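import Pool.Agent.VSC.MinJet

/-!
# Comparison of subflows
-/

namespace Pool.Agent.VSC

open Metric

theorem unit_diff {a b : V} (ha : a ≠ 0) (hb : b ≠ 0) :
    ‖‖a‖⁻¹ • a - ‖b‖⁻¹ • b‖ ≤ 2 * ‖a - b‖ / ‖b‖ := by
  have ha' : 0 < ‖a‖ := norm_pos_iff.2 ha
  have hb' : 0 < ‖b‖ := norm_pos_iff.2 hb
  have h1 : ‖a‖⁻¹ • a - ‖b‖⁻¹ • b = ‖b‖⁻¹ • (a - b) + (‖a‖⁻¹ - ‖b‖⁻¹) • a := by
    rw [smul_sub, sub_smul]; abel
  rw [h1]
  refine (norm_add_le _ _).trans ?_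
  rw [norm_smul, norm_smul, norm_inv, norm_norm, Real.norm_eq_abs]
  have h2 : |‖a‖⁻¹ - ‖b‖⁻¹| * ‖a‖ = |‖b‖ - ‖a‖| / ‖b‖ := by
    have h3 : ‖a‖⁻¹ - ‖b‖⁻¹ = (‖b‖ - ‖a‖) / (‖a‖ * ‖b‖) := by field_simp
    rw [h3, abs_div, abs_of_pos (mul_pos ha' hb')]
    field_simp
  rw [h2]
  have h4 : |‖b‖ - ‖a‖| ≤ ‖a - b‖ := by
    rw [abs_sub_comm]; exact abs_norm_sub_norm_le a b
  rw [inv_mul_eq_div, ← add_div]
  gcongr
  linarith

/-- Existence of a minimum of the penalised function. -/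
theorem exists_min {L γ κ T : ℝ} (hγ : 0 ≤ γ) (hκ : 0 < κ) {S K : Set (V × ℝ)}
    (hS : IsClosed S) (hK : IsClosed K) (hS0 : ∀ x t, (x, t) ∈ S → 0 ≤ t)
    (hS1 : ∀ x t, (x, t) ∈ S → t ≤ T) (hK0 : ∀ x t, (x, t) ∈ K → 0 ≤ t)
    (hK1 : ∀ x t, (x, t) ∈ K → t ≤ T) {xs : V} {ts : ℝ} (h1 : (xs, ts) ∈ S)
    (h2 : (xs, ts) ∈ K) :
    ∃ (xh : V) (th : ℝ) (yh : V) (sh : ℝ), (xh, th) ∈ S ∧ (yh, sh) ∈ K ∧
      ∀ x t y s, (x, t) ∈ S → (y, s) ∈ K → Phi L γ κ xh th yh sh ≤ Phi L γ κ x t y s := by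
  set val := Phi L γ κ xs ts xs ts with hval
  have hvaleq : val = γ * ts + 2 * κ * ‖xs‖ ^ 2 := by
    rw [hval, Phi, sub_self, norm_zero]; ring
  have hts0 := hS0 _ _ h1
  have hval0 : 2 * κ * ‖xs‖ ^ 2 ≤ val := by rw [hvaleq]; nlinarith [mul_nonneg hγ hts0]
  have hval1 : 0 ≤ val := le_trans (by positivity) hval0
  set ρ := Real.sqrt (val / κ) with hρ
  have hρ0 : 0 ≤ ρ := Real.sqrt_nonneg _
  have hρ2 : κ * ρ ^ 2 = val := by
    rw [hρ, Real.sq_sqrt (by positivity)]; field_simp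
  have hlow : ∀ x t y s, (x, t) ∈ S → κ * (‖x‖ ^ 2 + ‖y‖ ^ 2) ≤ Phi L γ κ x t y s := by
    intro x t y s hx
    have e1 := hS0 _ _ hx
    unfold Phi
    have e2 : 0 ≤ Real.exp (4 * L * t) * ‖x - y‖ ^ 4 := by positivity
    nlinarith [sq_nonneg (t - s), mul_nonneg hγ e1]
  set A : Set ((V × ℝ) × (V × ℝ)) := (S ∩ (closedBall 0 ρ ×ˢ Set.Icc 0 T)) ×ˢ
    (K ∩ (closedBall 0 ρ ×ˢ Set.Icc 0 T)) with hA
  have hAc : IsCompact A :=
    (((isCompact_closedBall _ _).prod isCompact_Icc).inter_left hS).prod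
      (((isCompact_closedBall _ _).prod isCompact_Icc).inter_left hK)
  have hxsρ : ‖xs‖ ≤ ρ := by
    have : ‖xs‖ ^ 2 ≤ ρ ^ 2 := by
      have : κ * ‖xs‖ ^ 2 ≤ κ * ρ ^ 2 := by rw [hρ2]; nlinarith [sq_nonneg ‖xs‖]
      exact le_of_mul_le_mul_left this hκ
    exact (abs_le_of_sq_le_sq' this hρ0).2
  have hstar : (((xs, ts), (xs, ts)) : (V × ℝ) × (V × ℝ)) ∈ A := by
    refine ⟨⟨h1, ?_, hts0, hS1 _ _ h1⟩, h2, ?_, hts0, hS1 _ _ h1⟩ <;>
    · rw [mem_closedBall_zero_iff]; exact hxsρ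
  have hcont : Continuous fun u : (V × ℝ) × (V × ℝ) => Phi L γ κ u.1.1 u.1.2 u.2.1 u.2.2 := by
    unfold Phi; fun_prop
  obtain ⟨⟨⟨xh, th⟩, ⟨yh, sh⟩⟩, hmem, hminA⟩ := hAc.exists_isMinOn ⟨_, hstar⟩ hcont.continuousOn
  refine ⟨xh, th, yh, sh, hmem.1.1, hmem.2.1, fun x t y s hx hy => ?_⟩
  have hmv : Phi L γ κ xh th yh sh ≤ val := hminA hstar
  by_cases hb : ‖x‖ ≤ ρ ∧ ‖y‖ ≤ ρ
  · have : (((x, t), (y, s)) : (V × ℝ) × (V × ℝ)) ∈ A := by
      refine ⟨⟨hx, ?_, hS0 _ _ hx, hS1 _ _ hx⟩, hy, ?_, hK0 _ _ hy, hK1 _ _ hy⟩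
      · rw [mem_closedBall_zero_iff]; exact hb.1
      · rw [mem_closedBall_zero_iff]; exact hb.2
    exact hminA this
  · refine hmv.trans (le_trans ?_ (hlow x t y s hx))
    rw [← hρ2]
    refine mul_le_mul_of_nonneg_left ?_ hκ.le
    rw [not_and_or, not_le, not_le] at hb
    rcases hb with hb | hb
    · nlinarith [sq_nonneg ‖y‖]
    · nlinarith [sq_nonneg ‖x‖]

/-- The case of a small gradient. -/
theorem case_small {f : V → ℝ} {T F0 : ℝ} {S K : Set (V × ℝ)} (hS : Subflow f T S)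
    (hK : Subflow (fun x => -f x) T K) (hf : ∀ x, |f x| ≤ F0) {x y : V} {t s a b : ℝ}
    {p q : V} {X Y : V →L[ℝ] V →L[ℝ] ℝ} (hx : (x, t) ∈ S) (hy : (y, s) ∈ K) (ht : 0 < t)
    (hs : 0 < s) (hjx : LowJet S x t a p X) (hjy : LowJet K y s b q Y) {c d : ℝ} (hc : 0 < c)
    (hd : 0 ≤ d)
    (hXY : ∀ h h' : V, X h h + Y h' h' ≤ c * ‖h - h'‖ ^ 2 + d * (‖h‖ ^ 2 + ‖h'‖ ^ 2)) :
    a + b ≤ 8 * (1 + F0) * (c + d) + F0 * (‖p‖ + ‖q‖) := by
  have h1 := low_bound hS hf hx ht hjx (mu := c + d) (by linarith) (fun h => by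
    have := hXY h 0
    simp only [map_zero, sub_zero, norm_zero] at this
    nlinarith)
  have h2 := low_bound hK (fun x => by simpa using hf x) hy hs hjy (mu := c + d) (by linarith)
    (fun h => by
    have := hXY 0 h
    simp only [map_zero, zero_sub, norm_zero, norm_neg, zero_add] at this
    nlinarith)
  linarith

/-- The case of a large gradient. -/
theorem case_large {f : V → ℝ} {T F0 L : ℝ} {S K : Set (V × ℝ)} (hS : Subflow f T S)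
    (hK : Subflow (fun x => -f x) T K) (hf : ∀ x, |f x| ≤ F0)
    (hfL : ∀ x y, |f x - f y| ≤ L * ‖x - y‖) {x y : V} {t s a b : ℝ}
    {p q : V} {X Y : V →L[ℝ] V →L[ℝ] ℝ} (hx : (x, t) ∈ S) (hy : (y, s) ∈ K) (ht : 0 < t)
    (hs : 0 < s) (hjx : LowJet S x t a p X) (hjy : LowJet K y s b q Y) {c d : ℝ} (hc : 0 ≤ c)
    (hXY : ∀ h h' : V, X h h + Y h' h' ≤ c * ‖h - h'‖ ^ 2 + d * (‖h‖ ^ 2 + ‖h'‖ ^ 2))
    {P : V} (hP : P ≠ 0) {w : ℝ} (hw : 2 * w ≤ ‖P‖) (hw0 : 0 < w) (hp : ‖p - P‖ ≤ w)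
    (hq : ‖q + P‖ ≤ w) :
    a + b ≤ c * (4 * w / ‖P‖) ^ 2 + 2 * d + L * ‖x - y‖ * ‖P‖ + 2 * F0 * w := by
  have hP' : 0 < ‖P‖ := norm_pos_iff.2 hP
  have hF0 : 0 ≤ F0 := le_trans (abs_nonneg _) (hf x)
  have hpn : |‖p‖ - ‖P‖| ≤ w := (abs_norm_sub_norm_le p P).trans hp
  have hqn : |‖q‖ - ‖P‖| ≤ w := by
    have : |‖q‖ - ‖-P‖| ≤ ‖q - -P‖ := abs_norm_sub_norm_le q (-P)
    rw [norm_neg, sub_neg_eq_add] at this
    exact this.trans hq
  have hp0 : p ≠ 0 := by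
    rintro rfl
    rw [norm_zero, zero_sub, abs_neg, abs_of_pos hP'] at hpn
    linarith
  have hq0 : q ≠ 0 := by
    rintro rfl
    rw [norm_zero, zero_sub, abs_neg, abs_of_pos hP'] at hqn
    linarith
  have hpp : 0 < ‖p‖ := norm_pos_iff.2 hp0
  have hqp : 0 < ‖q‖ := norm_pos_iff.2 hq0
  set xi : V := ‖p‖⁻¹ • J p with hxi
  set xi' : V := (-‖q‖⁻¹) • J q with hxi'
  have n1 : ‖xi‖ = 1 := by
    rw [hxi, norm_smul, norm_J, norm_inv, norm_norm, inv_mul_cancel₀ hpp.ne']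
  have n2 : ‖xi'‖ = 1 := by
    rw [hxi', norm_smul, norm_J, norm_neg, norm_inv, norm_norm, inv_mul_cancel₀ hqp.ne']
  have o1 : inner ℝ xi p = 0 := by rw [hxi, real_inner_smul_left, inner_J, mul_zero]
  have o2 : inner ℝ xi' q = 0 := by rw [hxi', real_inner_smul_left, inner_J, mul_zero]
  have j1 := hS.low hx ht hjx hp0 n1 o1
  have j2 := hK.low hy hs hjy hq0 n2 o2
  have hdiff : ‖xi - xi'‖ ≤ 4 * w / ‖P‖ := by
    have e1 : xi - xi' = J (‖p‖⁻¹ • p + ‖q‖⁻¹ • q) := by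
      rw [J_add, J_smul, J_smul, hxi, hxi', neg_smul, sub_neg_eq_add]
    rw [e1, norm_J]
    have e2 : ‖p‖⁻¹ • p + ‖q‖⁻¹ • q = (‖p‖⁻¹ • p - ‖P‖⁻¹ • P) + (‖q‖⁻¹ • q - ‖-P‖⁻¹ • (-P)) := by
      rw [norm_neg, smul_neg]; abel
    rw [e2]
    refine (norm_add_le _ _).trans ?_
    have e3 := unit_diff hp0 hP
    have e4 := unit_diff hq0 (neg_ne_zero.2 hP)
    rw [norm_neg, sub_neg_eq_add] at e4
    rw [norm_neg]
    have e5 : 2 * ‖p - P‖ / ‖P‖ ≤ 2 * w / ‖P‖ := by gcongr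
    have e6 : 2 * ‖q + P‖ / ‖P‖ ≤ 2 * w / ‖P‖ := by gcongr
    have e7 : 4 * w / ‖P‖ = 2 * w / ‖P‖ + 2 * w / ‖P‖ := by ring
    rw [e7]
    exact add_le_add (e3.trans e5) (e4.trans e6)
  have hXY1 := hXY xi xi'
  rw [n1, n2] at hXY1
  have h1 : c * ‖xi - xi'‖ ^ 2 ≤ c * (4 * w / ‖P‖) ^ 2 :=
    mul_le_mul_of_nonneg_left (pow_le_pow_left₀ (norm_nonneg _) hdiff 2) hc
  have h2 : f x * ‖p‖ + (-f y) * ‖q‖ ≤ L * ‖x - y‖ * ‖P‖ + 2 * F0 * w := by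
    have e1 : f x * (‖p‖ - ‖P‖) ≤ F0 * w := by
      calc f x * (‖p‖ - ‖P‖) ≤ |f x * (‖p‖ - ‖P‖)| := le_abs_self _
        _ = |f x| * |‖p‖ - ‖P‖| := abs_mul _ _
        _ ≤ F0 * w := mul_le_mul (hf x) hpn (abs_nonneg _) hF0
    have e2 : (-f y) * (‖q‖ - ‖P‖) ≤ F0 * w := by
      calc (-f y) * (‖q‖ - ‖P‖) ≤ |(-f y) * (‖q‖ - ‖P‖)| := le_abs_self _
        _ = |f y| * |‖q‖ - ‖P‖| := by rw [abs_mul, abs_neg]
        _ ≤ F0 * w := mul_le_mul (hf y) hqn (abs_nonneg _) hF0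
    have e3 : (f x - f y) * ‖P‖ ≤ L * ‖x - y‖ * ‖P‖ :=
      mul_le_mul_of_nonneg_right ((le_abs_self _).trans (hfL x y)) hP'.le
    nlinarith
  linarith

/-- Finite speed keeps the minimum point away from the initial time. -/
theorem time_pos {f : V → ℝ} {T F0 d0 : ℝ} {S K : Set (V × ℝ)} (hK : Subflow f T K)
    (hf : ∀ x, |f x| ≤ F0) (h0 : ∀ x y, (x, (0:ℝ)) ∈ S → (y, (0:ℝ)) ∈ K → d0 ≤ ‖x - y‖)
    {R : ℝ} (hR : 0 < R) (hR1 : R ≤ 1) (hRd : R < d0) {x y : V} {s : ℝ} (hx : (x, (0:ℝ)) ∈ S)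
    (hy : (y, s) ∈ K) (hxy : ‖x - y‖ ≤ R / 2) (hs : 4 * (1 + F0) * s ≤ 3 / 4 * R ^ 2) : False := by
  have hF0 : 0 ≤ F0 := le_trans (abs_nonneg _) (hf x)
  have h1 : ∀ z, ‖z - x‖ ≤ R → (z, (0:ℝ)) ∉ K := by
    intro z hz hzK
    have := h0 x z hx hzK
    rw [norm_sub_rev] at this
    linarith
  have h2 := hole hK hf hR (C := 4 * (1 + F0)) (by nlinarith [mul_nonneg hF0 (sub_nonneg.2 hR1)])
    (x0 := x) le_rfl h1 s (hK.time_nonneg _ _ hy) (by rw [sub_zero]; nlinarith) y (by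
      rw [sub_zero, norm_sub_rev]
      have : ‖x - y‖ ^ 2 ≤ (R / 2) ^ 2 := pow_le_pow_left₀ (norm_nonneg _) hxy 2
      nlinarith)
  exact h2 hy

/-- Comparison: an `f`-subflow and a `(-f)`-subflow which start at a positive distance never
meet. -/
theorem comparison {f : V → ℝ} {T F0 L : ℝ} {S K : Set (V × ℝ)} (hS : Subflow f T S)
    (hK : Subflow (fun x => -f x) T K) (hf : ∀ x, |f x| ≤ F0) (hL : 0 ≤ L)
    (hfL : ∀ x y, |f x - f y| ≤ L * ‖x - y‖) {d0 : ℝ} (hd0 : 0 < d0)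
    (h0 : ∀ x y, (x, (0:ℝ)) ∈ S → (y, (0:ℝ)) ∈ K → d0 ≤ ‖x - y‖) :
    ∀ x t, (x, t) ∈ S → (x, t) ∉ K := by
  intro xs ts hxS hxK
  have hF0 : 0 ≤ F0 := le_trans (abs_nonneg _) (hf xs)
  have hf' : ∀ x, |(fun x => -f x) x| ≤ F0 := fun x => by simpa using hf x
  have hts0 := hS.time_nonneg _ _ hxS
  have htsT := hS.time_le _ _ hxS
  have hts : 0 < ts := by
    rcases hts0.lt_or_eq with h | h
    · exact h
    · exfalso
      rw [← h] at hxS hxK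
      have := h0 _ _ hxS hxK
      rw [sub_self, norm_zero] at this
      linarith
  have hT : 0 < T := lt_of_lt_of_le hts htsT
  -- constants
  set C0 := 4 * (1 + F0) with hC0
  have hC0p : 0 < C0 := by positivity
  obtain ⟨R, hR, hR1, hRd⟩ : ∃ R : ℝ, 0 < R ∧ R ≤ 1 ∧ R < d0 :=
    ⟨min 1 (d0 / 2), lt_min one_pos (by positivity), min_le_left _ _,
      lt_of_le_of_lt (min_le_right _ _) (by linarith)⟩
  set s0 := 3 / 4 * R ^ 2 / C0 with hs0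
  have hs0p : 0 < s0 := by positivity
  have hs0C : C0 * s0 = 3 / 4 * R ^ 2 := by rw [hs0]; field_simp
  obtain ⟨v0, hv0, hv1, hv2⟩ : ∃ v0 : ℝ, 0 < v0 ∧ v0 ≤ (R / 2) ^ 4 ∧ v0 ≤ s0 ^ 2 :=
    ⟨min ((R / 2) ^ 4) (s0 ^ 2), lt_min (by positivity) (by positivity), min_le_left _ _,
      min_le_right _ _⟩
  set γ := v0 / (2 * T) with hγ
  have hγp : 0 < γ := by positivity
  have hγT : γ * T = v0 / 2 := by rw [hγ]; field_simp
  set E4 := Real.exp (4 * L * T) with hE4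
  have hE4p : 0 < E4 := Real.exp_pos _
  obtain ⟨η, hη, hη1, hη2⟩ : ∃ η : ℝ, 0 < η ∧ η ≤ 1 ∧
      96 * (1 + F0) * E4 * η ^ 2 + 8 * F0 * E4 * η ^ 3 ≤ γ / 4 := by
    have hden : 0 < 4 * ((96 * (1 + F0) + 8 * F0) * E4) := by positivity
    refine ⟨min 1 (γ / (4 * ((96 * (1 + F0) + 8 * F0) * E4))), lt_min one_pos (by positivity),
      min_le_left _ _, ?_⟩
    set η := min 1 (γ / (4 * ((96 * (1 + F0) + 8 * F0) * E4))) with hηdef
    have e0 : 0 < η := lt_min one_pos (by positivity)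
    have e1 : η ≤ 1 := min_le_left _ _
    have e2 : η * (4 * ((96 * (1 + F0) + 8 * F0) * E4)) ≤ γ := by
      rw [← le_div_iff₀ hden]; exact min_le_right _ _
    have e3 : η ^ 2 ≤ η := by linarith [mul_nonneg e0.le (sub_nonneg.2 e1)]
    have e4 : η ^ 3 ≤ η := by linarith [mul_nonneg e0.le (sub_nonneg.2 e3)]
    have e5 : 96 * (1 + F0) * E4 * η ^ 2 ≤ 96 * (1 + F0) * E4 * η :=
      mul_le_mul_of_nonneg_left e3 (by positivity)
    have e6 : 8 * F0 * E4 * η ^ 3 ≤ 8 * F0 * E4 * η :=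
      mul_le_mul_of_nonneg_left e4 (by positivity)
    linarith
  set M := 8 + 4 * (12 * E4 + 2) / η ^ 6 + 4 * F0 + 8 * L * E4 with hM
  set M' := 2 + 40 * (1 + F0) + 4 * F0 with hM'
  have hMp : 0 < M := by positivity
  have hM'p : 0 < M' := by positivity
  obtain ⟨e, he, he1, heη, heM, heM'⟩ : ∃ e : ℝ, 0 < e ∧ e ≤ 1 ∧ e ≤ η ^ 3 ∧ e * M ≤ γ / 4 ∧
      e * M' ≤ γ / 4 := by
    set e := min (min 1 (η ^ 3)) (γ / (4 * (M + M'))) with hedef
    have e0 : 0 < e := lt_min (lt_min one_pos (by positivity)) (by positivity)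
    have e1 : e * (4 * (M + M')) ≤ γ := by
      rw [← le_div_iff₀ (by positivity)]; exact min_le_right _ _
    have e2 : 0 < e * M := mul_pos e0 hMp
    have e3 : 0 < e * M' := mul_pos e0 hM'p
    refine ⟨e, e0, le_trans (min_le_left _ _) (min_le_left _ _),
      le_trans (min_le_left _ _) (min_le_right _ _), by linarith, by linarith⟩
  obtain ⟨κ, hκ, hκe, hκ2, hκ3⟩ : ∃ κ : ℝ, 0 < κ ∧ κ ≤ e ∧ 4 * κ * v0 ≤ e ^ 2 ∧
      2 * κ * ‖xs‖ ^ 2 ≤ v0 / 2 := by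
    set κ := min e (min (e ^ 2 / (4 * v0)) (v0 / (4 * (‖xs‖ ^ 2 + 1)))) with hκdef
    have k0 : 0 < κ := lt_min he (lt_min (by positivity) (by positivity))
    have k1 : κ * (4 * v0) ≤ e ^ 2 := by
      rw [← le_div_iff₀ (by positivity)]
      exact le_trans (min_le_right _ _) (min_le_left _ _)
    have k2 : κ * (4 * (‖xs‖ ^ 2 + 1)) ≤ v0 := by
      rw [← le_div_iff₀ (by positivity)]
      exact le_trans (min_le_right _ _) (min_le_right _ _)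
    exact ⟨κ, k0, min_le_left _ _, by linarith, by linarith⟩
  obtain ⟨xh, th, yh, sh, hxh, hyh, hmin⟩ := exists_min (L := L) hγp.le hκ hS.closed hK.closed
    hS.time_nonneg hS.time_le hK.time_nonneg hK.time_le hxS hxK
  have hth0 := hS.time_nonneg _ _ hxh
  have hthT := hS.time_le _ _ hxh
  have hsh0 := hK.time_nonneg _ _ hyh
  -- value of the minimum
  have hval : Phi L γ κ xh th yh sh ≤ v0 := by
    refine (hmin _ _ _ _ hxS hxK).trans ?_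
    unfold Phi
    rw [sub_self, sub_self, norm_zero]
    have : γ * ts ≤ γ * T := mul_le_mul_of_nonneg_left htsT hγp.le
    linarith
  set g := Real.exp (4 * L * th) with hg
  have hg1 : 1 ≤ g := Real.one_le_exp (by positivity)
  have hgE : g ≤ E4 := Real.exp_le_exp.2 (mul_le_mul_of_nonneg_left hthT (by positivity))
  have hgp : 0 < g := Real.exp_pos _
  set n := ‖xh - yh‖ with hn
  have hn0 : 0 ≤ n := norm_nonneg _
  unfold Phi at hval
  rw [← hg, ← hn] at hval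
  have q1 : 0 ≤ g * n ^ 4 := by positivity
  have q2 : 0 ≤ (th - sh) ^ 2 := sq_nonneg _
  have q3 : 0 ≤ γ * th := by positivity
  have q4 : 0 ≤ κ * ‖xh‖ ^ 2 := by positivity
  have q5 : 0 ≤ κ * ‖yh‖ ^ 2 := by positivity
  have hnR : n ≤ R / 2 := by
    have e1 : n ^ 4 ≤ g * n ^ 4 := by
      linarith [mul_nonneg (sub_nonneg.2 hg1) (pow_nonneg hn0 4)]
    have e2 : n ^ 4 ≤ (R / 2) ^ 4 := by linarith
    exact le_of_pow_le_pow_left₀ (by norm_num) (by positivity) e2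
  have hn1 : n ≤ 1 := by linarith
  have htsh : |th - sh| ≤ s0 := by
    have : (th - sh) ^ 2 ≤ s0 ^ 2 := by linarith
    exact abs_le_of_sq_le_sq this hs0p.le
  have hxκ : 2 * κ * ‖xh‖ ≤ e := by
    have e1 : κ * ‖xh‖ ^ 2 ≤ v0 := by linarith
    have e2 : (2 * κ * ‖xh‖) ^ 2 ≤ e ^ 2 := by
      have : (2 * κ * ‖xh‖) ^ 2 = 4 * κ * (κ * ‖xh‖ ^ 2) := by ring
      rw [this]
      refine le_trans ?_ hκ2
      exact mul_le_mul_of_nonneg_left e1 (by positivity)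
    exact (abs_le_of_sq_le_sq' e2 he.le).2
  have hyκ : 2 * κ * ‖yh‖ ≤ e := by
    have e1 : κ * ‖yh‖ ^ 2 ≤ v0 := by linarith
    have e2 : (2 * κ * ‖yh‖) ^ 2 ≤ e ^ 2 := by
      have : (2 * κ * ‖yh‖) ^ 2 = 4 * κ * (κ * ‖yh‖ ^ 2) := by ring
      rw [this]
      refine le_trans ?_ hκ2
      exact mul_le_mul_of_nonneg_left e1 (by positivity)
    exact (abs_le_of_sq_le_sq' e2 he.le).2
  -- positive times
  have hthp : 0 < th := by
    rcases hth0.lt_or_eq with h | h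
    · exact h
    · exfalso
      have h1 : (xh, (0:ℝ)) ∈ S := by rw [h]; exact hxh
      refine time_pos hK hf' h0 hR hR1 hRd h1 hyh hnR ?_
      rw [← h, zero_sub, abs_neg, abs_of_nonneg hsh0] at htsh
      rw [← hs0C]
      exact mul_le_mul_of_nonneg_left htsh hC0p.le
  have hshp : 0 < sh := by
    rcases hsh0.lt_or_eq with h | h
    · exact h
    · exfalso
      have h1 : (yh, (0:ℝ)) ∈ K := by rw [h]; exact hyh
      have h0' : ∀ x y, (x, (0:ℝ)) ∈ K → (y, (0:ℝ)) ∈ S → d0 ≤ ‖x - y‖ := by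
        intro x y hx hy
        rw [norm_sub_rev]
        exact h0 y x hy hx
      refine time_pos hS hf h0' hR hR1 hRd h1 hxh (by rw [norm_sub_rev]; exact hnR) ?_
      rw [← h, sub_zero, abs_of_nonneg hth0] at htsh
      rw [← hs0C]
      exact mul_le_mul_of_nonneg_left htsh hC0p.le
  -- the jets
  obtain ⟨x, t, y, s, a, b, p, q, X, Y, hx, hy, hxd, htd, hyd, hsd, ha, hb, hp, hq, hjx, hjy,
    hXY⟩ := jets_at_min hL hκ hS.closed hK.closed hxh hyh hn1 hmin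
      (δ := min e (min th sh)) (lt_min he (lt_min hthp hshp))
  rw [← hg, ← hn] at ha hp hq hXY
  set δ := min e (min th sh) with hδ
  have hδe : δ ≤ e := min_le_left _ _
  have hδt : δ ≤ th := le_trans (min_le_right _ _) (min_le_left _ _)
  have hδs : δ ≤ sh := le_trans (min_le_right _ _) (min_le_right _ _)
  have htp : 0 < t := by
    have := (abs_lt.1 htd).1
    linarith
  have hsp : 0 < s := by
    have := (abs_lt.1 hsd).1
    linarith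
  have hδ0 : 0 < δ := lt_min he (lt_min hthp hshp)
  have hab : γ + 4 * L * g * n ^ 4 - 2 * e ≤ a + b := by
    have e1 := (abs_lt.1 ha).1
    have e2 := (abs_lt.1 hb).1
    linarith
  set P : V := (4 * g * n ^ 2) • (xh - yh) with hP
  have hPn : ‖P‖ = 4 * g * n ^ 3 := by
    rw [hP, norm_smul, Real.norm_eq_abs, abs_of_nonneg (by positivity), ← hn]; ring
  have hpP : ‖p - P‖ ≤ 2 * e := by
    have e1 : p - P = (p - (P + (2 * κ) • xh)) + (2 * κ) • xh := by abel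
    rw [e1]
    refine (norm_add_le _ _).trans ?_
    rw [norm_smul, Real.norm_eq_abs, abs_of_nonneg (by positivity)]
    linarith
  have hqP : ‖q + P‖ ≤ 2 * e := by
    have e1 : q + P = (q - (-P + (2 * κ) • yh)) + (2 * κ) • yh := by abel
    rw [e1]
    refine (norm_add_le _ _).trans ?_
    rw [norm_smul, Real.norm_eq_abs, abs_of_nonneg (by positivity)]
    linarith
  have hcpos : 0 < 12 * g * n ^ 2 + 2 * κ := by positivity
  have hLgn : 0 ≤ 4 * L * g * n ^ 4 := by positivity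
  rcases lt_or_ge n η with hcase | hcase
  · have k1 := case_small hS hK hf hx hy htp hsp hjx hjy hcpos (by positivity) hXY
    have k2 : ‖p‖ ≤ 4 * E4 * η ^ 3 + 2 * e := by
      have e1 : ‖p‖ ≤ ‖p - P‖ + ‖P‖ := by
        have := norm_add_le (p - P) P
        rwa [sub_add_cancel] at this
      have e2 : g * n ^ 3 ≤ E4 * η ^ 3 :=
        mul_le_mul hgE (pow_le_pow_left₀ hn0 hcase.le 3) (by positivity) hE4p.le
      rw [hPn] at e1
      linarith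
    have k3 : ‖q‖ ≤ 4 * E4 * η ^ 3 + 2 * e := by
      have e1 : ‖q‖ ≤ ‖q + P‖ + ‖P‖ := by
        have := norm_sub_le (q + P) P
        rwa [add_sub_cancel_right] at this
      have e2 : g * n ^ 3 ≤ E4 * η ^ 3 :=
        mul_le_mul hgE (pow_le_pow_left₀ hn0 hcase.le 3) (by positivity) hE4p.le
      rw [hPn] at e1
      linarith
    have k4 : F0 * (‖p‖ + ‖q‖) ≤ F0 * (8 * E4 * η ^ 3 + 4 * e) :=
      mul_le_mul_of_nonneg_left (by linarith) hF0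
    have k5 : g * n ^ 2 ≤ E4 * η ^ 2 :=
      mul_le_mul hgE (pow_le_pow_left₀ hn0 hcase.le 2) (by positivity) hE4p.le
    have k6 : 8 * (1 + F0) * (12 * g * n ^ 2 + 2 * κ + (2 * κ + δ))
        ≤ 8 * (1 + F0) * (12 * (E4 * η ^ 2) + 5 * e) :=
      mul_le_mul_of_nonneg_left (by linarith) (by positivity)
    have k7 : e * M' = 2 * e + 40 * (1 + F0) * e + 4 * F0 * e := by rw [hM']; ring
    have k8 : 8 * (1 + F0) * (12 * (E4 * η ^ 2) + 5 * e)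
        = 96 * (1 + F0) * E4 * η ^ 2 + 40 * (1 + F0) * e := by ring
    have k9 : F0 * (8 * E4 * η ^ 3 + 4 * e) = 8 * F0 * E4 * η ^ 3 + 4 * F0 * e := by ring
    linarith
  · have hηn : η ^ 3 ≤ n ^ 3 := pow_le_pow_left₀ hη.le hcase 3
    have hPlow : 4 * η ^ 3 ≤ ‖P‖ := by
      rw [hPn]
      linarith [mul_nonneg (sub_nonneg.2 hg1) (pow_nonneg hn0 3)]
    have hPpos : 0 < ‖P‖ := lt_of_lt_of_le (by positivity) hPlow
    have hPhigh : ‖P‖ ≤ 4 * E4 := by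
      rw [hPn]
      have : g * n ^ 3 ≤ E4 * 1 := mul_le_mul hgE (pow_le_one₀ hn0 hn1) (by positivity) hE4p.le
      linarith
    have k1 := case_large hS hK hf hfL hx hy htp hsp hjx hjy hcpos.le hXY
      (norm_pos_iff.1 hPpos) (w := 2 * e) (by linarith) (by positivity) hpP hqP
    have k2 : 4 * (2 * e) / ‖P‖ ≤ 2 * e / η ^ 3 := by
      rw [div_le_div_iff₀ hPpos (by positivity)]
      have := mul_le_mul_of_nonneg_left hPlow (show (0:ℝ) ≤ 2 * e by positivity)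
      linarith
    have k3 : (4 * (2 * e) / ‖P‖) ^ 2 ≤ 4 * e / η ^ 6 := by
      have e1 : (4 * (2 * e) / ‖P‖) ^ 2 ≤ (2 * e / η ^ 3) ^ 2 :=
        pow_le_pow_left₀ (by positivity) k2 2
      refine e1.trans ?_
      have e2 : (2 * e / η ^ 3) ^ 2 = 4 * e ^ 2 / η ^ 6 := by
        rw [div_pow, mul_pow, ← pow_mul]; norm_num
      rw [e2]
      have e3 : e ^ 2 ≤ e := by linarith [mul_nonneg he.le (sub_nonneg.2 he1)]
      gcongr
    have k4 : 12 * g * n ^ 2 + 2 * κ ≤ 12 * E4 + 2 := by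
      have : g * n ^ 2 ≤ E4 * 1 := mul_le_mul hgE (pow_le_one₀ hn0 hn1) (by positivity) hE4p.le
      linarith
    have k5 : (12 * g * n ^ 2 + 2 * κ) * (4 * (2 * e) / ‖P‖) ^ 2
        ≤ (12 * E4 + 2) * (4 * e / η ^ 6) :=
      mul_le_mul k4 k3 (sq_nonneg _) (by positivity)
    have k6 : ‖x - y‖ ≤ n + 2 * e := by
      have e1 : x - y = (x - xh) + (xh - yh) - (y - yh) := by abel
      rw [e1]
      have e2 := norm_sub_le ((x - xh) + (xh - yh)) (y - yh)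
      have e3 := norm_add_le (x - xh) (xh - yh)
      linarith
    have k7 : L * ‖x - y‖ * ‖P‖ ≤ 4 * L * g * n ^ 4 + 8 * L * E4 * e := by
      have e1 : L * ‖x - y‖ * ‖P‖ ≤ L * (n + 2 * e) * ‖P‖ :=
        mul_le_mul_of_nonneg_right (mul_le_mul_of_nonneg_left k6 hL) hPpos.le
      have e2 : L * (n + 2 * e) * ‖P‖ = L * n * ‖P‖ + 2 * L * e * ‖P‖ := by ring
      have e3 : 2 * L * e * ‖P‖ ≤ 2 * L * e * (4 * E4) :=
        mul_le_mul_of_nonneg_left hPhigh (by positivity)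
      have e4 : L * n * ‖P‖ = 4 * L * g * n ^ 4 := by rw [hPn]; ring
      linarith
    have k8 : e * M = 8 * e + (12 * E4 + 2) * (4 * e / η ^ 6) + 4 * F0 * e + 8 * L * E4 * e := by
      rw [hM]; ring
    linarith

end Pool.Agent.VSC
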