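import Pool.Agent.VSC.LPer
import Pool.Agent.VSC.Comp

/-!
# Comparison, existence and uniqueness of viscosity solutions of the level set equation
-/

open scoped RealInnerProductSpace Topology
open Set Filter

noncomputable section

namespace Pool.Agent.VSC

theorem ViscSub.congr {f : V → ℝ} {u v : V × ℝ → ℝ} (h : ViscSub f u) (huv : ∀ z ∈ DD, u z = v z) : ViscSub f v := by
  intro φ z hφ hz hmax
  refine h φ z hφ hz ?_
  filter_upwards [hmax, DD_nhds hz] with w h1 h2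
  rw [huv w h2, huv z (le_of_lt hz)]
  exact h1

/-- **Comparison** for viscosity sub- and supersolutions of the level set equation (no growth condition). -/
theorem visc_comparison {f : V → ℝ} {F₀ L : ℝ} (hF : ∀ x, |f x| ≤ F₀) (hL : 0 ≤ L)
    (hLip : ∀ x y, |f x - f y| ≤ L * ‖x - y‖) {u v : V × ℝ → ℝ} (hu : UpperSemicontinuousOn u DD)
    (hv : UpperSemicontinuousOn (fun z => -v z) DD) (hsub : ViscSub f u) (hsup : ViscSuper f v)
    (h0 : ∀ ε > 0, ∃ δ > 0, ∀ x y, ‖x - y‖ < δ → u (x, 0) ≤ v (y, 0) + ε) : ∀ z ∈ DD, u z ≤ v z := by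
  have hfc : Continuous f := by
    have hl : LipschitzWith ⟨L, hL⟩ f := LipschitzWith.of_dist_le_mul fun x y => by
      rw [Real.dist_eq, dist_eq_norm]
      exact hLip x y
    exact hl.continuous
  intro z hz
  by_contra hcon
  push Not at hcon
  obtain ⟨b, hb1, hb2⟩ := exists_between hcon
  obtain ⟨a, ha1, ha2⟩ := exists_between hb2
  obtain ⟨δ, hδ, hd⟩ := h0 ((a - b) / 2) (by linarith)
  have hS := hsub.subflow hfc hF hu a z.2
  have hK := ViscSub.subflow (f := fun x => -f x) (F₀ := F₀) hfc.neg (fun x => by simpa using hF x) hsup hv (-b) z.2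
  refine comparison hS hK hF hL hLip hδ (fun x y hx hy => ?_) z.1 z.2 ⟨hz, le_rfl, ha2.le⟩ ⟨hz, le_rfl, ?_⟩
  · by_contra hlt
    push Not at hlt
    have h1 := hd x y hlt
    have h2 : a ≤ u (x, 0) := hx.2.2
    have h3 : -b ≤ -v (y, 0) := hy.2.2
    linarith
  · show -b ≤ -v z
    linarith

/-- Affine functions. -/
theorem affine_PT (e : V) (a : ℝ) (z : V × ℝ) : PT (fun z : V × ℝ => -⟪z.1, e⟫ + a * z.2) z a (-e) 0 := by
  refine ⟨fun v w => rfl, fun ε hε => Eventually.of_forall fun k => ?_⟩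
  have e1 : -⟪(z + k).1, e⟫ + a * (z + k).2 - (-⟪z.1, e⟫ + a * z.2) -
      (a * k.2 + ⟪-e, k.1⟫ + 1 / 2 * (0 : V →L[ℝ] V →L[ℝ] ℝ) k.1 k.1) = 0 := by
    have h1 : (0 : V →L[ℝ] V →L[ℝ] ℝ) k.1 k.1 = 0 := rfl
    rw [h1, Prod.fst_add, Prod.snd_add, inner_add_left, inner_neg_left, real_inner_comm k.1 e]
    ring
  rw [e1, abs_zero]
  positivity

theorem affine_LSub {g a : ℝ} {p : V} (hp : ‖p‖ = 1) (h : a ≤ g) : LSub g a p 0 := by
  have hp0 : p ≠ 0 := by
    intro h0
    rw [h0, norm_zero] at hp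
    exact zero_ne_one hp
  refine Or.inl ⟨hp0, ?_⟩
  have h1 : tr2 0 - (0 : V →L[ℝ] V →L[ℝ] ℝ) p p / ‖p‖ ^ 2 = 0 := by
    rw [tr2_sub_div hp0]
    show (0 : ℝ) / ‖p‖ ^ 2 = 0
    rw [zero_div]
  rw [h1, hp]
  linarith

/-- **Existence** of a continuous viscosity solution with initial datum `- x . e`. -/
theorem exists_solution {f : V → ℝ} {F₀ L : ℝ} (hF : ∀ x, |f x| ≤ F₀) (hL : 0 ≤ L)
    (hLip : ∀ x y, |f x - f y| ≤ L * ‖x - y‖) {e : V} (he : ‖e‖ = 1) :
    ∃ u : V × ℝ → ℝ, ContinuousOn u DD ∧ ViscSub f u ∧ ViscSuper f u ∧ (∀ x, u (x, 0) = -⟪x, e⟫) ∧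
      ∀ z ∈ DD, |u z + ⟪z.1, e⟫| ≤ F₀ * z.2 := by
  have hF0 : 0 ≤ F₀ := (abs_nonneg _).trans (hF 0)
  have hfc : Continuous f := by
    have hl : LipschitzWith ⟨L, hL⟩ f := LipschitzWith.of_dist_le_mul fun x y => by
      rw [Real.dist_eq, dist_eq_norm]
      exact hLip x y
    exact hl.continuous
  set wm : V × ℝ → ℝ := fun z => -⟪z.1, e⟫ + (-F₀) * z.2 with hwm
  set wp : V × ℝ → ℝ := fun z => -⟪z.1, e⟫ + F₀ * z.2 with hwp
  have hm : Continuous wm := by rw [hwm]; fun_prop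
  have hp : Continuous wp := by rw [hwp]; fun_prop
  have hle : ∀ z ∈ DD, wm z ≤ wp z := by
    intro z hz
    have hz' : 0 ≤ z.2 := hz
    have := mul_nonneg hF0 hz'
    simp only [hwm, hwp]
    linarith
  have hvm : ViscSub f wm := by
    refine viscSub_of_PT (a := fun _ => -F₀) (p := fun _ => -e) (X := fun _ => 0) (fun z _ => affine_PT e _ z)
      fun z _ => affine_LSub (by rw [norm_neg, he]) ?_
    exact (abs_le.1 (hF z.1)).1
  have hvp : ViscSuper f wp := by
    refine viscSub_of_PT (a := fun _ => -F₀) (p := fun _ => -(-e)) (X := fun _ => 0) (fun z _ => ?_)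
      fun z _ => affine_LSub (by rw [neg_neg, he]) ?_
    · have h1 := affine_PT (-e) (-F₀) z
      have h2 : (fun z : V × ℝ => -wp z) = fun z : V × ℝ => -⟪z.1, -e⟫ + (-F₀) * z.2 := by
        funext z
        simp only [hwp, inner_neg_right]
        ring
      rw [h2]
      exact h1
    · have := (abs_le.1 (hF z.1)).2
      linarith
  obtain ⟨u, hu, hmax⟩ := exists_max_adm hfc hm hp hle hvm
  have hv := super_of_max hfc hm hp hvp hu hmax
  have hmn : Continuous fun z => -wp z := hp.neg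
  have hpn : Continuous fun z => -wm z := hm.neg
  have hbn : ∀ z ∈ DD, -wp z ≤ -u z ∧ -u z ≤ -wm z := fun z hz => by
    have := hu.bd z hz
    constructor <;> linarith
  set v : V × ℝ → ℝ := ue fun z => -u z with hv'
  have hvu : UpperSemicontinuousOn v DD := ue_usc hmn hpn hbn
  have hnn : (fun z => -(-v z)) = v := by funext z; ring
  have hsup : ViscSuper f (fun z => -v z) := by
    show ViscSub (fun x => -f x) (fun z => -(-v z))
    rw [hnn]
    exact hv
  have hcmp : ∀ z ∈ DD, u z ≤ -v z := by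
    refine visc_comparison hF hL hLip hu.usc (by rw [hnn]; exact hvu) hu.visc hsup fun ε hε => ⟨ε, hε, fun x y hxy => ?_⟩
    have h1 : u (x, 0) ≤ -⟪x, e⟫ := by
      have h2 := (hu.bd (x, 0) (show (0 : ℝ) ≤ 0 from le_rfl)).2
      have h3 : wp (x, 0) = -⟪x, e⟫ := by simp [hwp]
      rwa [h3] at h2
    have h2 : -⟪y, e⟫ ≤ -v (y, 0) := by
      have h3 := ue_le hmn hpn hbn (show (y, (0 : ℝ)) ∈ DD from (show (0 : ℝ) ≤ 0 from le_rfl))
      have h4 : -wm (y, 0) = ⟪y, e⟫ := by simp [hwm]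
      rw [h4] at h3
      linarith
    have h3 : ⟪y - x, e⟫ ≤ ε := by
      refine (real_inner_le_norm _ _).trans ?_
      rw [he, mul_one, norm_sub_rev]
      exact hxy.le
    rw [inner_sub_left] at h3
    linarith
  have heq : ∀ z ∈ DD, v z = -u z := fun z hz => le_antisymm (by linarith [hcmp z hz]) (le_ue hmn hpn hbn hz)
  refine ⟨u, ?_, hu.visc, ?_, ?_, ?_⟩
  · intro z hz
    refine tendsto_order.2 ⟨fun c hc => ?_, fun c hc => hu.usc z hz c hc⟩
    have h1 : v z < -c := by rw [heq z hz]; linarith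
    filter_upwards [hvu z hz (-c) h1, self_mem_nhdsWithin] with w h2 h3
    rw [heq w h3] at h2
    linarith
  · exact ViscSub.congr hv heq
  · intro x
    have h1 := hu.bd (x, 0) (show (0 : ℝ) ≤ 0 from le_rfl)
    have h2 : wm (x, 0) = -⟪x, e⟫ := by simp [hwm]
    have h3 : wp (x, 0) = -⟪x, e⟫ := by simp [hwp]
    rw [h2, h3] at h1
    linarith [h1.1, h1.2]
  · intro z hz
    have h1 := hu.bd z hz
    simp only [hwm, hwp] at h1
    rw [abs_le]
    constructor <;> linarith [h1.1, h1.2]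

/-- **Uniqueness** of the continuous viscosity solution with initial datum `- x . e`, without growth condition. -/
theorem unique_solution {f : V → ℝ} {F₀ L : ℝ} (hF : ∀ x, |f x| ≤ F₀) (hL : 0 ≤ L)
    (hLip : ∀ x y, |f x - f y| ≤ L * ‖x - y‖) {e : V} (he : ‖e‖ = 1) {u v : V × ℝ → ℝ} (hu : ContinuousOn u DD)
    (hu1 : ViscSub f u) (hu2 : ViscSuper f u) (hu0 : ∀ x, u (x, 0) = -⟪x, e⟫) (hv : ContinuousOn v DD)
    (hv1 : ViscSub f v) (hv2 : ViscSuper f v) (hv0 : ∀ x, v (x, 0) = -⟪x, e⟫) : ∀ z ∈ DD, u z = v z := by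
  have key : ∀ ε > 0, ∃ δ > 0, ∀ x y : V, ‖x - y‖ < δ → -⟪x, e⟫ ≤ -⟪y, e⟫ + ε := by
    intro ε hε
    refine ⟨ε, hε, fun x y hxy => ?_⟩
    have h3 : ⟪y - x, e⟫ ≤ ε := by
      refine (real_inner_le_norm _ _).trans ?_
      rw [he, mul_one, norm_sub_rev]
      exact hxy.le
    rw [inner_sub_left] at h3
    linarith
  intro z hz
  refine le_antisymm ?_ ?_
  · refine visc_comparison hF hL hLip hu.upperSemicontinuousOn hv.neg.upperSemicontinuousOn hu1 hv2 (fun ε hε => ?_) z hz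
    obtain ⟨δ, hδ, h⟩ := key ε hε
    exact ⟨δ, hδ, fun x y hxy => by rw [hu0, hv0]; exact h x y hxy⟩
  · refine visc_comparison hF hL hLip hv.upperSemicontinuousOn hu.neg.upperSemicontinuousOn hv1 hu2 (fun ε hε => ?_) z hz
    obtain ⟨δ, hδ, h⟩ := key ε hε
    exact ⟨δ, hδ, fun x y hxy => by rw [hu0, hv0]; exact h x y hxy⟩

end Pool.Agent.VSC
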