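import Pool.Agent.VSC.Defs

/-!
# Parabolic Taylor expansions and the level set operator

`dt`, `dx`, `dxx`: the derivatives of a function on space time, `PT`: parabolic Taylor expansions,
`LSub`: the (sub-)inequality of the level set operator, with the Evans-Spruck convention at zero gradient.
-/

open scoped RealInnerProductSpace Topology
open Set Filter

noncomputable section

namespace Pool.Agent.VSC

/-- Second order Taylor expansion of a `C²` function. -/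
theorem taylor2 {W : Type*} [NormedAddCommGroup W] [NormedSpace ℝ W] {φ : W → ℝ} {z : W} (h : ContDiffAt ℝ 2 φ z)
    {ε : ℝ} (hε : 0 < ε) :
    ∀ᶠ k in 𝓝 (0 : W),
      |φ (z + k) - φ z - fderiv ℝ φ z k - 1 / 2 * fderiv ℝ (fderiv ℝ φ) z k k| ≤ ε * ‖k‖ ^ 2 := by
  have hd1 : ContDiffAt ℝ 1 (fderiv ℝ φ) z := h.fderiv_right (by norm_num)
  have hd : HasFDerivAt (fderiv ℝ φ) (fderiv ℝ (fderiv ℝ φ) z) z := (hd1.differentiableAt (by norm_num)).hasFDerivAt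
  have h1 := (hasFDerivAt_iff_isLittleO_nhds_zero.1 hd).def hε
  have h2 : ∀ᶠ w in 𝓝 z, DifferentiableAt ℝ φ w := by
    filter_upwards [h.eventually (by simp)] with w hw using hw.differentiableAt (by norm_num)
  obtain ⟨ρ₁, hρ₁, h3⟩ := Metric.eventually_nhds_iff.1 h1
  obtain ⟨ρ₂, hρ₂, h4⟩ := Metric.eventually_nhds_iff.1 h2
  rw [Metric.eventually_nhds_iff]
  refine ⟨min ρ₁ ρ₂, lt_min hρ₁ hρ₂, fun k hk => ?_⟩
  rw [dist_zero_right] at hk
  set R : ℝ → ℝ := fun t => φ (z + t • k) - t * fderiv ℝ φ z k - t ^ 2 * (1 / 2 * fderiv ℝ (fderiv ℝ φ) z k k) with hR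
  have hn : ∀ t ∈ Icc (0 : ℝ) 1, ‖t • k‖ < min ρ₁ ρ₂ := by
    intro t ht
    rw [norm_smul, Real.norm_eq_abs, abs_of_nonneg ht.1]
    refine lt_of_le_of_lt ?_ hk
    nlinarith [norm_nonneg k, ht.2]
  have hdR : ∀ t ∈ Icc (0 : ℝ) 1, HasDerivAt R (fderiv ℝ φ (z + t • k) k - fderiv ℝ φ z k -
      t * fderiv ℝ (fderiv ℝ φ) z k k) t := by
    intro t ht
    have a1 : HasDerivAt (fun t : ℝ => z + t • k) k t := by
      simpa using ((hasDerivAt_id t).smul_const k).const_add z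
    have a0 : DifferentiableAt ℝ φ (z + t • k) := by
      refine h4 ?_
      rw [dist_eq_norm, add_sub_cancel_left]
      exact (hn t ht).trans_le (min_le_right _ _)
    have a2 := a0.hasFDerivAt.comp_hasDerivAt t a1
    have a3 : HasDerivAt (fun t : ℝ => t * fderiv ℝ φ z k) (fderiv ℝ φ z k) t := by
      simpa using (hasDerivAt_id t).mul_const (fderiv ℝ φ z k)
    have a4 : HasDerivAt (fun t : ℝ => t ^ 2 * (1 / 2 * fderiv ℝ (fderiv ℝ φ) z k k))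
        (t * fderiv ℝ (fderiv ℝ φ) z k k) t := by
      refine HasDerivAt.congr_deriv ((hasDerivAt_pow 2 t).mul_const (1 / 2 * fderiv ℝ (fderiv ℝ φ) z k k)) ?_
      norm_num
      ring
    exact (a2.sub a3).sub a4
  have hb : ∀ t ∈ Ico (0 : ℝ) 1, ‖fderiv ℝ φ (z + t • k) k - fderiv ℝ φ z k -
      t * fderiv ℝ (fderiv ℝ φ) z k k‖ ≤ ε * ‖k‖ ^ 2 := by
    intro t ht
    have h5 := h3 (show dist (t • k) 0 < ρ₁ by
      rw [dist_zero_right]; exact (hn t ⟨ht.1, ht.2.le⟩).trans_le (min_le_left _ _))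
    have e1 : fderiv ℝ φ (z + t • k) k - fderiv ℝ φ z k - t * fderiv ℝ (fderiv ℝ φ) z k k =
        (fderiv ℝ φ (z + t • k) - fderiv ℝ φ z - fderiv ℝ (fderiv ℝ φ) z (t • k)) k := by
      simp
    rw [e1]
    calc ‖(fderiv ℝ φ (z + t • k) - fderiv ℝ φ z - fderiv ℝ (fderiv ℝ φ) z (t • k)) k‖
        ≤ ‖fderiv ℝ φ (z + t • k) - fderiv ℝ φ z - fderiv ℝ (fderiv ℝ φ) z (t • k)‖ * ‖k‖ :=
          ContinuousLinearMap.le_opNorm _ _
      _ ≤ (ε * ‖t • k‖) * ‖k‖ := mul_le_mul_of_nonneg_right h5 (norm_nonneg _)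
      _ = t * (ε * ‖k‖ ^ 2) := by rw [norm_smul, Real.norm_eq_abs, abs_of_nonneg ht.1]; ring
      _ ≤ 1 * (ε * ‖k‖ ^ 2) := mul_le_mul_of_nonneg_right ht.2.le (by positivity)
      _ = ε * ‖k‖ ^ 2 := one_mul _
  have h6 := norm_image_sub_le_of_norm_deriv_le_segment_01' (fun t ht => (hdR t ht).hasDerivWithinAt) hb
  have e2 : R 1 - R 0 = φ (z + k) - φ z - fderiv ℝ φ z k - 1 / 2 * fderiv ℝ (fderiv ℝ φ) z k k := by
    simp only [hR, one_smul, zero_smul, add_zero]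
    ring
  rw [e2, Real.norm_eq_abs] at h6
  exact h6

/-- Time derivative. -/
def dt (φ : V × ℝ → ℝ) (z : V × ℝ) : ℝ := fderiv ℝ φ z (0, 1)

/-- Space gradient. -/
def dx (φ : V × ℝ → ℝ) (z : V × ℝ) : V :=
  (InnerProductSpace.toDual ℝ V).symm ((fderiv ℝ φ z).comp (ContinuousLinearMap.inl ℝ V ℝ))

/-- Space Hessian. -/
def dxx (φ : V × ℝ → ℝ) (z : V × ℝ) : V →L[ℝ] V →L[ℝ] ℝ :=
  (fderiv ℝ (fderiv ℝ φ) z).bilinearComp (ContinuousLinearMap.inl ℝ V ℝ) (ContinuousLinearMap.inl ℝ V ℝ)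

theorem inner_dx (φ : V × ℝ → ℝ) (z : V × ℝ) (v : V) : ⟪dx φ z, v⟫ = fderiv ℝ φ z (v, 0) :=
  InnerProductSpace.toDual_symm_apply

theorem dxx_apply (φ : V × ℝ → ℝ) (z : V × ℝ) (v w : V) : dxx φ z v w = fderiv ℝ (fderiv ℝ φ) z (v, 0) (w, 0) := rfl

/-- Parabolic Taylor expansion. -/
def PT (φ : V × ℝ → ℝ) (z : V × ℝ) (a : ℝ) (p : V) (X : V →L[ℝ] V →L[ℝ] ℝ) : Prop :=
  (∀ v w, X v w = X w v) ∧ ∀ ε > 0, ∀ᶠ h in 𝓝 (0 : V × ℝ),
    |φ (z + h) - φ z - (a * h.2 + ⟪p, h.1⟫ + 1 / 2 * X h.1 h.1)| ≤ ε * (|h.2| + ‖h.1‖ ^ 2)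

theorem PT_of_contDiffAt {φ : V × ℝ → ℝ} {z : V × ℝ} (h : ContDiffAt ℝ 2 φ z) :
    PT φ z (dt φ z) (dx φ z) (dxx φ z) := by
  have hsym : IsSymmSndFDerivAt ℝ φ z := h.isSymmSndFDerivAt (by simp)
  refine ⟨fun v w => hsym.eq _ _, fun ε hε => ?_⟩
  set B := fderiv ℝ (fderiv ℝ φ) z with hB
  set M : ℝ := ‖B‖ with hM
  have hM0 : 0 ≤ M := norm_nonneg B
  have e1 := taylor2 h (half_pos hε)
  have e2 : ∀ᶠ k in 𝓝 (0 : V × ℝ), ‖k‖ < min 1 (ε / (3 * M + 1)) := by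
    have := Metric.ball_mem_nhds (0 : V × ℝ) (show 0 < min 1 (ε / (3 * M + 1)) by positivity)
    filter_upwards [this] with k hk
    simpa using hk
  filter_upwards [e1, e2] with k h1 h2
  have hk1 : ‖k.1‖ ≤ ‖k‖ := norm_fst_le k
  have hk2 : |k.2| ≤ ‖k‖ := by rw [← Real.norm_eq_abs]; exact norm_snd_le k
  have h3 : ‖k‖ < 1 := h2.trans_le (min_le_left _ _)
  have h4 : ‖k‖ * (3 * M + 1) < ε := by
    have := h2.trans_le (min_le_right _ _)
    rwa [lt_div_iff₀ (by positivity)] at this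
  have hdec : k = (k.1, 0) + (0, k.2) := by simp
  have hL : fderiv ℝ φ z k = dt φ z * k.2 + ⟪dx φ z, k.1⟫ := by
    rw [inner_dx, dt]
    have : k = (k.1, 0) + k.2 • ((0 : V), (1 : ℝ)) := by simp
    conv_lhs => rw [this]
    rw [map_add, map_smul, smul_eq_mul]
    ring
  have hQ : B k k = dxx φ z k.1 k.1 + (B (k.1, 0) (0, k.2) + B (0, k.2) k) := by
    rw [dxx_apply, ← hB]
    conv_lhs => rw [hdec]
    simp only [map_add, ContinuousLinearMap.add_apply]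
    have : B (0, k.2) k = B (0, k.2) (k.1, 0) + B (0, k.2) (0, k.2) := by
      rw [← map_add]; simp
    rw [this]
    ring
  have n1 : ‖((0 : V), k.2)‖ = |k.2| := by simp [Prod.norm_def]
  have n2 : ‖(k.1, (0 : ℝ))‖ = ‖k.1‖ := by simp [Prod.norm_def]
  have b1 : |B (k.1, 0) (0, k.2)| ≤ M * ‖k‖ * |k.2| := by
    have := B.le_opNorm₂ (k.1, 0) (0, k.2)
    rw [n1, n2, Real.norm_eq_abs] at this
    refine this.trans ?_
    exact mul_le_mul_of_nonneg_right (mul_le_mul_of_nonneg_left hk1 hM0) (abs_nonneg _)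
  have b2 : |B (0, k.2) k| ≤ M * ‖k‖ * |k.2| := by
    have := B.le_opNorm₂ (0, k.2) k
    rw [n1, Real.norm_eq_abs] at this
    refine this.trans (le_of_eq ?_)
    ring
  have h5 : ‖k‖ ^ 2 ≤ |k.2| + ‖k.1‖ ^ 2 := by
    have : ‖k‖ = max ‖k.1‖ |k.2| := by rw [Prod.norm_def, Real.norm_eq_abs]
    rcases le_total ‖k.1‖ |k.2| with hc | hc
    · rw [this, max_eq_right hc] at *
      nlinarith [abs_nonneg k.2, sq_nonneg ‖k.1‖]
    · rw [this, max_eq_left hc] at *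
      nlinarith [abs_nonneg k.2]
  rw [← hB, hL, hQ] at h1
  have e3 : φ (z + k) - φ z - (dt φ z * k.2 + ⟪dx φ z, k.1⟫ + 1 / 2 * dxx φ z k.1 k.1) =
      (φ (z + k) - φ z - (dt φ z * k.2 + ⟪dx φ z, k.1⟫) -
        1 / 2 * (dxx φ z k.1 k.1 + (B (k.1, 0) (0, k.2) + B (0, k.2) k))) +
      1 / 2 * (B (k.1, 0) (0, k.2) + B (0, k.2) k) := by ring
  rw [e3]
  refine (abs_add_le _ _).trans ?_
  have h6 : |1 / 2 * (B (k.1, 0) (0, k.2) + B (0, k.2) k)| ≤ ε / 2 * |k.2| := by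
    rw [abs_mul, abs_of_pos (by norm_num : (0 : ℝ) < 1 / 2)]
    have h7 := abs_add_le (B (k.1, 0) (0, k.2)) (B (0, k.2) k)
    have h8 : M * ‖k‖ * |k.2| ≤ ε / 2 * |k.2| := by
      refine mul_le_mul_of_nonneg_right ?_ (abs_nonneg _)
      nlinarith [norm_nonneg k]
    linarith
  have h7 : ε / 2 * ‖k‖ ^ 2 ≤ ε / 2 * (|k.2| + ‖k.1‖ ^ 2) := mul_le_mul_of_nonneg_left h5 (by positivity)
  have h8 : ε / 2 * |k.2| ≤ ε / 2 * (|k.2| + ‖k.1‖ ^ 2) :=
    mul_le_mul_of_nonneg_left (by nlinarith [sq_nonneg ‖k.1‖]) (by positivity)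
  linarith

/-- Comparison of the parabolic Taylor expansions at a local maximum of the difference. -/
theorem PT_le {φ ψ : V × ℝ → ℝ} {z : V × ℝ} {a a' : ℝ} {p p' : V} {X X' : V →L[ℝ] V →L[ℝ] ℝ} (h : PT φ z a p X)
    (h' : PT ψ z a' p' X') (hm : IsLocalMax (fun w => φ w - ψ w) z) :
    a = a' ∧ p = p' ∧ ∀ v, X v v ≤ X' v v := by
  have hsh : Tendsto (fun k : V × ℝ => z + k) (𝓝 0) (𝓝 z) := by
    have : Tendsto (fun k : V × ℝ => z + k) (𝓝 0) (𝓝 (z + 0)) := (by fun_prop : Continuous fun k => z + k).tendsto 0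
    rwa [add_zero] at this
  -- the basic inequality
  have key : ∀ ε > 0, ∀ᶠ k in 𝓝 (0 : V × ℝ),
      (a - a') * k.2 + ⟪p - p', k.1⟫ + 1 / 2 * (X k.1 k.1 - X' k.1 k.1) ≤ 2 * ε * (|k.2| + ‖k.1‖ ^ 2) := by
    intro ε hε
    filter_upwards [h.2 ε hε, h'.2 ε hε, hsh.eventually hm] with k h1 h2 h3
    have h4 := (abs_le.1 h1).1
    have h5 := (abs_le.1 h2).2
    rw [inner_sub_left]
    linarith
  -- time direction
  have ht : ∀ s : ℝ, (a - a') * s ≤ 0 := by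
    intro s
    have h1 : ∀ ε > 0, (a - a') * s ≤ 2 * ε * |s| := by
      intro ε hε
      have hc : Tendsto (fun τ : ℝ => ((0 : V), τ * s)) (𝓝[>] 0) (𝓝 0) := by
        have : Tendsto (fun τ : ℝ => ((0 : V), τ * s)) (𝓝 0) (𝓝 ((0 : V), (0 : ℝ) * s)) :=
          (by fun_prop : Continuous fun τ : ℝ => ((0 : V), τ * s)).tendsto 0
        rw [zero_mul] at this
        exact this.mono_left nhdsWithin_le_nhds
      obtain ⟨τ, h2, h3⟩ := ((hc.eventually (key ε hε)).and eventually_mem_nhdsWithin).exists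
      have h3' : 0 < τ := h3
      simp only [inner_zero_right, map_zero, sub_zero, mul_zero, add_zero, norm_zero, abs_mul,
        abs_of_pos h3'] at h2
      have h4 : τ * ((a - a') * s) ≤ τ * (2 * ε * |s|) := by
        nlinarith
      exact le_of_mul_le_mul_left h4 h3'
    refine le_of_forall_pos_le_add fun ε hε => ?_
    have h2 := h1 (ε / (2 * (|s| + 1))) (by positivity)
    have h3 : 2 * (ε / (2 * (|s| + 1))) * |s| ≤ ε := by
      have : 2 * (ε / (2 * (|s| + 1))) * |s| = ε * |s| / (|s| + 1) := by field_simp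
      rw [this, div_le_iff₀ (by positivity)]
      nlinarith [abs_nonneg s]
    linarith
  have ha : a = a' := by
    have h1 := ht 1
    have h2 := ht (-1)
    linarith
  -- space directions
  have hx : ∀ v : V, ∀ τ₀ > 0, ∀ ε > 0, ∃ τ, 0 < τ ∧ τ < τ₀ ∧
      τ * ⟪p - p', v⟫ + τ ^ 2 * (1 / 2 * (X v v - X' v v)) ≤ τ ^ 2 * (2 * ε * ‖v‖ ^ 2) := by
    intro v τ₀ hτ₀ ε hε
    have hc : Tendsto (fun τ : ℝ => (τ • v, (0 : ℝ))) (𝓝[>] 0) (𝓝 0) := by
      have : Tendsto (fun τ : ℝ => (τ • v, (0 : ℝ))) (𝓝 0) (𝓝 ((0 : ℝ) • v, (0 : ℝ))) :=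
        (by fun_prop : Continuous fun τ : ℝ => (τ • v, (0 : ℝ))).tendsto 0
      rw [zero_smul] at this
      exact this.mono_left nhdsWithin_le_nhds
    obtain ⟨τ, h2, h3⟩ := ((hc.eventually (key ε hε)).and (Ioo_mem_nhdsGT hτ₀)).exists
    refine ⟨τ, h3.1, h3.2, ?_⟩
    simp only [mul_zero, zero_add, abs_zero, norm_smul, Real.norm_eq_abs, mul_pow, sq_abs,
      map_smul, real_inner_smul_right, ContinuousLinearMap.smul_apply, smul_eq_mul] at h2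
    linarith
  have hp : ∀ v : V, ⟪p - p', v⟫ ≤ 0 := by
    intro v
    by_contra hcon
    push Not at hcon
    set c := ⟪p - p', v⟫ with hc
    set D := |1 / 2 * (X v v - X' v v)| + 2 * 1 * ‖v‖ ^ 2 + 1 with hD
    have hD0 : 0 < D := by positivity
    obtain ⟨τ, h1, h2, h3⟩ := hx v (c / D) (by positivity) 1 one_pos
    rw [lt_div_iff₀ hD0] at h2
    have h4 := neg_abs_le (1 / 2 * (X v v - X' v v))
    have h5 : c + τ * (1 / 2 * (X v v - X' v v)) ≤ τ * (2 * 1 * ‖v‖ ^ 2) := by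
      have : τ * (c + τ * (1 / 2 * (X v v - X' v v))) ≤ τ * (τ * (2 * 1 * ‖v‖ ^ 2)) := by nlinarith
      exact le_of_mul_le_mul_left this h1
    nlinarith
  have hpp : p = p' := by
    have h1 := hp (p - p')
    rw [real_inner_self_eq_norm_sq] at h1
    have : ‖p - p'‖ = 0 := by
      have := norm_nonneg (p - p')
      nlinarith
    rwa [norm_eq_zero, sub_eq_zero] at this
  refine ⟨ha, hpp, fun v => ?_⟩
  have h1 : ∀ ε > 0, X v v - X' v v ≤ 4 * ε * ‖v‖ ^ 2 := by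
    intro ε hε
    obtain ⟨τ, h1, -, h3⟩ := hx v 1 one_pos ε hε
    rw [hpp, sub_self, inner_zero_left, mul_zero, zero_add] at h3
    have := le_of_mul_le_mul_left h3 (by positivity)
    linarith
  have h2 : X v v - X' v v ≤ 0 := by
    refine le_of_forall_pos_le_add fun ε hε => ?_
    have h2 := h1 (ε / (4 * (‖v‖ ^ 2 + 1))) (by positivity)
    have h3 : 4 * (ε / (4 * (‖v‖ ^ 2 + 1))) * ‖v‖ ^ 2 ≤ ε := by
      have : 4 * (ε / (4 * (‖v‖ ^ 2 + 1))) * ‖v‖ ^ 2 = ε * ‖v‖ ^ 2 / (‖v‖ ^ 2 + 1) := by field_simp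
      rw [this, div_le_iff₀ (by positivity)]
      nlinarith [sq_nonneg ‖v‖]
    linarith
  linarith

theorem PT_unique {φ : V × ℝ → ℝ} {z : V × ℝ} {a a' : ℝ} {p p' : V} {X X' : V →L[ℝ] V →L[ℝ] ℝ} (h : PT φ z a p X)
    (h' : PT φ z a' p' X') : a = a' ∧ p = p' ∧ X = X' := by
  have h0 : IsLocalMax (fun w => φ w - φ w) z := Eventually.of_forall fun w => by simp
  obtain ⟨h1, h2, h3⟩ := PT_le h h' h0
  obtain ⟨-, -, h4⟩ := PT_le h' h h0
  refine ⟨h1, h2, ?_⟩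
  ext v w
  have e1 : ∀ v, X v v = X' v v := fun v => le_antisymm (h3 v) (h4 v)
  have e2 := e1 (v + w)
  simp only [map_add, ContinuousLinearMap.add_apply] at e2
  rw [e1 v, e1 w, h.1 w v, h'.1 w v] at e2
  linarith

theorem dt_eq {φ : V × ℝ → ℝ} {z : V × ℝ} (hφ : ContDiffAt ℝ 2 φ z) {a : ℝ} {p : V} {X : V →L[ℝ] V →L[ℝ] ℝ}
    (h : PT φ z a p X) : dt φ z = a := (PT_unique (PT_of_contDiffAt hφ) h).1

theorem dx_eq {φ : V × ℝ → ℝ} {z : V × ℝ} (hφ : ContDiffAt ℝ 2 φ z) {a : ℝ} {p : V} {X : V →L[ℝ] V →L[ℝ] ℝ}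
    (h : PT φ z a p X) : dx φ z = p := (PT_unique (PT_of_contDiffAt hφ) h).2.1

theorem dxx_eq {φ : V × ℝ → ℝ} {z : V × ℝ} (hφ : ContDiffAt ℝ 2 φ z) {a : ℝ} {p : V} {X : V →L[ℝ] V →L[ℝ] ℝ}
    (h : PT φ z a p X) : dxx φ z = X := (PT_unique (PT_of_contDiffAt hφ) h).2.2

theorem dt_cont {φ : V × ℝ → ℝ} {z : V × ℝ} (h : ContDiffAt ℝ 2 φ z) : ContinuousAt (dt φ) z := by
  have h1 : ContinuousAt (fderiv ℝ φ) z := (h.fderiv_right (m := 0) (by norm_num)).continuousAt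
  exact h1.clm_apply continuousAt_const

theorem dx_cont {φ : V × ℝ → ℝ} {z : V × ℝ} (h : ContDiffAt ℝ 2 φ z) : ContinuousAt (dx φ) z := by
  have h1 : ContinuousAt (fderiv ℝ φ) z := (h.fderiv_right (m := 0) (by norm_num)).continuousAt
  exact (InnerProductSpace.toDual ℝ V).symm.continuous.continuousAt.comp (h1.clm_comp continuousAt_const)

theorem dxx_cont {φ : V × ℝ → ℝ} {z : V × ℝ} (h : ContDiffAt ℝ 2 φ z) : ContinuousAt (dxx φ) z := by
  have h1 : ContDiffAt ℝ 1 (fderiv ℝ φ) z := h.fderiv_right (by norm_num)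
  have h2 : ContinuousAt (fderiv ℝ (fderiv ℝ φ)) z := (h1.fderiv_right (m := 0) (by norm_num)).continuousAt
  have h3 : dxx φ = fun z => (((fderiv ℝ (fderiv ℝ φ) z).comp (ContinuousLinearMap.inl ℝ V ℝ)).flip.comp
    (ContinuousLinearMap.inl ℝ V ℝ)).flip := rfl
  rw [h3]
  have h4 : ContinuousAt (fun z => ((fderiv ℝ (fderiv ℝ φ) z).comp (ContinuousLinearMap.inl ℝ V ℝ)).flip) z :=
    (ContinuousLinearMap.flipₗᵢ ℝ V (V × ℝ) ℝ).continuous.continuousAt.comp (h2.clm_comp continuousAt_const)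
  exact (ContinuousLinearMap.flipₗᵢ ℝ V V ℝ).continuous.continuousAt.comp (h4.clm_comp continuousAt_const)

end Pool.Agent.VSC
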