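import Pool.Agent.VSC.SumI

/-!
# The theorem on sums in finite dimensional normed spaces

`sums_gen`: usc functions on compact sets, second order majorant at a point.
`sum_quad`: compact sets, quadratic majorant (the form used in the comparison theorem).
-/

open scoped RealInnerProductSpace Topology
open Set Filter WithLp

noncomputable section

namespace Pool.Agent.VSC

section Op

variable {G : Type*} [NormedAddCommGroup G] [InnerProductSpace ℝ G] [FiniteDimensional ℝ G] [CompleteSpace G]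

/-- The operator of a bilinear form. -/
def opOf (b : G →L[ℝ] G →L[ℝ] ℝ) : G →L[ℝ] G :=
  LinearMap.toContinuousLinearMap
    { toFun := fun z => (InnerProductSpace.toDual ℝ G).symm (b z)
      map_add' := fun x y => by simp
      map_smul' := fun c x => by simp }

theorem inner_opOf (b : G →L[ℝ] G →L[ℝ] ℝ) (z w : G) : ⟪opOf b z, w⟫ = b z w :=
  InnerProductSpace.toDual_symm_apply

end Op

section One

variable {E E' : Type*} [NormedAddCommGroup E] [NormedSpace ℝ E] [NormedAddCommGroup E'] [InnerProductSpace ℝ E']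
  [FiniteDimensional ℝ E'] (e : E ≃L[ℝ] E') (K : Set E) (x₀ : E) (P : E →L[ℝ] ℝ) (u : E → ℝ)

/-- The set in new coordinates. -/
def pullS (ρ : ℝ) : Set E' := {ξ | x₀ + e.symm ξ ∈ K} ∩ Metric.closedBall 0 ρ

/-- The function in new coordinates, minus its linear part. -/
def pullF (ξ : E') : ℝ := u (x₀ + e.symm ξ) - u x₀ - P (e.symm ξ)

variable {K u}

theorem pullS_compact (hK : IsCompact K) (ρ : ℝ) : IsCompact (pullS e K x₀ ρ) := by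
  refine (isCompact_closedBall (0 : E') ρ).inter_left ?_
  exact hK.isClosed.preimage (by fun_prop : Continuous fun ξ : E' => x₀ + e.symm ξ)

theorem pullF_usc (hu : UpperSemicontinuousOn u K) (ρ : ℝ) :
    UpperSemicontinuousOn (pullF e x₀ P u) (pullS e K x₀ ρ) := by
  have hc : Continuous fun ξ : E' => x₀ + e.symm ξ := by fun_prop
  have h1 : UpperSemicontinuousOn (fun ξ : E' => u (x₀ + e.symm ξ)) (pullS e K x₀ ρ) := by
    intro ξ hξ t ht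
    have h2 := hu _ hξ.1 t ht
    have h3 : Tendsto (fun ξ : E' => x₀ + e.symm ξ) (𝓝[pullS e K x₀ ρ] ξ) (𝓝[K] (x₀ + e.symm ξ)) := by
      refine tendsto_nhdsWithin_iff.2 ⟨(hc.tendsto ξ).mono_left nhdsWithin_le_nhds, ?_⟩
      filter_upwards [self_mem_nhdsWithin] with η hη using hη.1
    exact h3.eventually h2
  have h2 : UpperSemicontinuousOn (fun ξ : E' => -u x₀ - P (e.symm ξ)) (pullS e K x₀ ρ) :=
    (by fun_prop : Continuous fun ξ : E' => -u x₀ - P (e.symm ξ)).continuousOn.upperSemicontinuousOn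
  have h3 := h1.add h2
  have h4 : pullF e x₀ P u = fun ξ : E' => u (x₀ + e.symm ξ) + (-u x₀ - P (e.symm ξ)) := by
    funext ξ
    simp only [pullF]
    ring
  rw [h4]
  exact h3

/-- The bilinear form in old coordinates. -/
def pullX (X : E' →L[ℝ] E') : E →L[ℝ] E →L[ℝ] ℝ :=
  (innerSL ℝ).bilinearComp (X.comp (e : E →L[ℝ] E')) (e : E →L[ℝ] E')

theorem pullX_apply (X : E' →L[ℝ] E') (a b : E) : pullX e X a b = ⟪X (e a), e b⟫ := rfl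

/-- The linear form in old coordinates. -/
def pullP (p : E') : E →L[ℝ] ℝ := P + (innerSL ℝ p).comp (e : E →L[ℝ] E')

theorem pullP_apply (p : E') (a : E) : pullP e P p a = P a + ⟪p, e a⟫ := rfl

theorem pullP_norm {N : ℝ} (hN0 : 0 ≤ N) (hN : ∀ x, ‖e x‖ ≤ N * ‖x‖) (p : E') : ‖pullP e P p - P‖ ≤ N * ‖p‖ := by
  rw [pullP, add_sub_cancel_left]
  refine ContinuousLinearMap.opNorm_le_bound _ (by positivity) fun x => ?_
  have h1 : ‖((innerSL ℝ p).comp (e : E →L[ℝ] E')) x‖ ≤ ‖p‖ * ‖e x‖ := norm_inner_le_norm p (e x)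
  have h2 := mul_le_mul_of_nonneg_left (hN x) (norm_nonneg p)
  linarith

theorem jet_transfer {N ρ : ℝ} (hN0 : 0 < N) (hN : ∀ x, ‖e x‖ ≤ N * ‖x‖) {ξ p : E'} {X : E' →L[ℝ] E'}
    (hξ : ‖ξ‖ < ρ)
    (h : ∀ ε > 0, ∀ᶠ k in 𝓝 (0 : E'), ξ + k ∈ pullS e K x₀ ρ →
      pullF e x₀ P u (ξ + k) ≤ pullF e x₀ P u ξ + ⟪p, k⟫ + 1 / 2 * ⟪X k, k⟫ + ε * ‖k‖ ^ 2)
    {ε : ℝ} (hε : 0 < ε) :
    ∃ r > 0, ∀ z ∈ K, ‖z - (x₀ + e.symm ξ)‖ < r →
      u z ≤ u (x₀ + e.symm ξ) + pullP e P p (z - (x₀ + e.symm ξ)) +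
        1 / 2 * pullX e X (z - (x₀ + e.symm ξ)) (z - (x₀ + e.symm ξ)) + ε * ‖z - (x₀ + e.symm ξ)‖ ^ 2 := by
  obtain ⟨s, hs, h1⟩ := Metric.eventually_nhds_iff.1 (h (ε / N ^ 2) (by positivity))
  refine ⟨min (s / N) ((ρ - ‖ξ‖) / N), lt_min (by positivity) (div_pos (by linarith) hN0), fun z hz hzr => ?_⟩
  set k : E' := e (z - (x₀ + e.symm ξ)) with hk
  have hkn : ‖k‖ ≤ N * ‖z - (x₀ + e.symm ξ)‖ := hN _
  have h2 : ‖k‖ < s := by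
    have := lt_of_lt_of_le hzr (min_le_left _ _)
    rw [lt_div_iff₀ hN0] at this
    linarith
  have h3 : ‖k‖ < ρ - ‖ξ‖ := by
    have := lt_of_lt_of_le hzr (min_le_right _ _)
    rw [lt_div_iff₀ hN0] at this
    linarith
  have h4 : x₀ + e.symm (ξ + k) = z := by
    rw [map_add, hk, ContinuousLinearEquiv.symm_apply_apply]
    abel
  have h5 : ξ + k ∈ pullS e K x₀ ρ := by
    refine ⟨?_, ?_⟩
    · show x₀ + e.symm (ξ + k) ∈ K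
      rw [h4]; exact hz
    · rw [Metric.mem_closedBall, dist_zero_right]
      exact (norm_add_le _ _).trans (by linarith)
  have h6 := h1 (show dist k 0 < s by rwa [dist_zero_right]) h5
  have h7 : e.symm (ξ + k) = z - x₀ := by rw [← h4]; abel
  simp only [pullF] at h6
  rw [h4, h7] at h6
  rw [pullP_apply, pullX_apply, ← hk]
  have h8 : P (z - (x₀ + e.symm ξ)) = P (z - x₀) - P (e.symm ξ) := by
    rw [← map_sub]; congr 1; abel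
  have h9 : ε / N ^ 2 * ‖k‖ ^ 2 ≤ ε * ‖z - (x₀ + e.symm ξ)‖ ^ 2 := by
    have := pow_le_pow_left₀ (norm_nonneg _) hkn 2
    calc ε / N ^ 2 * ‖k‖ ^ 2 ≤ ε / N ^ 2 * (N * ‖z - (x₀ + e.symm ξ)‖) ^ 2 :=
          mul_le_mul_of_nonneg_left this (by positivity)
      _ = ε * ‖z - (x₀ + e.symm ξ)‖ ^ 2 := by field_simp
  rw [h8]
  linarith

end One

variable {E F : Type*} [NormedAddCommGroup E] [NormedSpace ℝ E] [FiniteDimensional ℝ E]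
  [NormedAddCommGroup F] [NormedSpace ℝ F] [FiniteDimensional ℝ F]

/-- **Theorem on sums**: upper semicontinuous functions on compact sets. -/
theorem sums_gen {K₁ : Set E} {K₂ : Set F} (hK₁ : IsCompact K₁) (hK₂ : IsCompact K₂) {u : E → ℝ} {v : F → ℝ}
    (hu : UpperSemicontinuousOn u K₁) (hv : UpperSemicontinuousOn v K₂) {x₀ : E} {y₀ : F} (hx₀ : x₀ ∈ K₁)
    (hy₀ : y₀ ∈ K₂) (P : E →L[ℝ] ℝ) (Q : F →L[ℝ] ℝ) (B : (E × F) →L[ℝ] (E × F) →L[ℝ] ℝ)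
    (h : ∀ ε > 0, ∃ r > 0, ∀ x ∈ K₁, ∀ y ∈ K₂, ‖x - x₀‖ < r → ‖y - y₀‖ < r →
      u x + v y ≤ u x₀ + v y₀ + P (x - x₀) + Q (y - y₀) + 1 / 2 * B (x - x₀, y - y₀) (x - x₀, y - y₀) +
        ε * (‖x - x₀‖ ^ 2 + ‖y - y₀‖ ^ 2))
    {δ : ℝ} (hδ : 0 < δ) :
    ∃ x ∈ K₁, ∃ y ∈ K₂, ∃ (p : E →L[ℝ] ℝ) (q : F →L[ℝ] ℝ) (X : E →L[ℝ] E →L[ℝ] ℝ) (Y : F →L[ℝ] F →L[ℝ] ℝ),
      ‖x - x₀‖ < δ ∧ ‖y - y₀‖ < δ ∧ |u x - u x₀| < δ ∧ |v y - v y₀| < δ ∧ ‖p - P‖ < δ ∧ ‖q - Q‖ < δ ∧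
      (∀ a b, X a b = X b a) ∧ (∀ a b, Y a b = Y b a) ∧
      (∀ ε > 0, ∃ r > 0, ∀ z ∈ K₁, ‖z - x‖ < r →
        u z ≤ u x + p (z - x) + 1 / 2 * X (z - x) (z - x) + ε * ‖z - x‖ ^ 2) ∧
      (∀ ε > 0, ∃ r > 0, ∀ z ∈ K₂, ‖z - y‖ < r →
        v z ≤ v y + q (z - y) + 1 / 2 * Y (z - y) (z - y) + ε * ‖z - y‖ ^ 2) ∧
      ∀ a b, X a a + Y b b ≤ B (a, b) (a, b) + δ * (‖a‖ ^ 2 + ‖b‖ ^ 2) := by
  let e₁ : E ≃L[ℝ] EuclideanSpace ℝ (Fin (Module.finrank ℝ E)) := toEuclidean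
  let e₂ : F ≃L[ℝ] EuclideanSpace ℝ (Fin (Module.finrank ℝ F)) := toEuclidean
  -- a common bound for the coordinate changes
  obtain ⟨N, hN0, hN1, hN2, hN3, hN4⟩ : ∃ N : ℝ, 0 < N ∧ (∀ x, ‖e₁ x‖ ≤ N * ‖x‖) ∧ (∀ y, ‖e₂ y‖ ≤ N * ‖y‖) ∧
      (∀ x, ‖e₁.symm x‖ ≤ N * ‖x‖) ∧ ∀ y, ‖e₂.symm y‖ ≤ N * ‖y‖ := by
    set n1 := ‖(e₁ : E →L[ℝ] EuclideanSpace ℝ (Fin (Module.finrank ℝ E)))‖ with hn1
    set n2 := ‖(e₂ : F →L[ℝ] EuclideanSpace ℝ (Fin (Module.finrank ℝ F)))‖ with hn2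
    set n3 := ‖(e₁.symm : EuclideanSpace ℝ (Fin (Module.finrank ℝ E)) →L[ℝ] E)‖ with hn3
    set n4 := ‖(e₂.symm : EuclideanSpace ℝ (Fin (Module.finrank ℝ F)) →L[ℝ] F)‖ with hn4
    have p1 : 0 ≤ n1 := norm_nonneg _
    have p2 : 0 ≤ n2 := norm_nonneg _
    have p3 : 0 ≤ n3 := norm_nonneg _
    have p4 : 0 ≤ n4 := norm_nonneg _
    refine ⟨1 + n1 + n2 + n3 + n4, by positivity, fun x => ?_, fun x => ?_, fun x => ?_, fun x => ?_⟩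
    · exact ((e₁ : E →L[ℝ] EuclideanSpace ℝ (Fin (Module.finrank ℝ E))).le_opNorm x).trans (mul_le_mul_of_nonneg_right (by linarith) (norm_nonneg _))
    · exact ((e₂ : F →L[ℝ] EuclideanSpace ℝ (Fin (Module.finrank ℝ F))).le_opNorm x).trans (mul_le_mul_of_nonneg_right (by linarith) (norm_nonneg _))
    · exact ((e₁.symm : EuclideanSpace ℝ (Fin (Module.finrank ℝ E)) →L[ℝ] E).le_opNorm x).trans (mul_le_mul_of_nonneg_right (by linarith) (norm_nonneg _))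
    · exact ((e₂.symm : EuclideanSpace ℝ (Fin (Module.finrank ℝ F)) →L[ℝ] F).le_opNorm x).trans (mul_le_mul_of_nonneg_right (by linarith) (norm_nonneg _))
  set ε₀ : ℝ := δ / (4 * N ^ 4) with hε₀
  have hε₀0 : 0 < ε₀ := by positivity
  obtain ⟨r, hr, hmaj⟩ := h ε₀ hε₀0
  set ρ : ℝ := r / (2 * N) with hρ
  have hρ0 : 0 < ρ := by positivity
  have hNρ : N * ρ < r := by
    rw [hρ]
    have : N * (r / (2 * N)) = r / 2 := by field_simp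
    linarith
  set L : WithLp 2 (EuclideanSpace ℝ (Fin (Module.finrank ℝ E)) × EuclideanSpace ℝ (Fin (Module.finrank ℝ F))) →L[ℝ] E × F :=
    (((e₁.symm : EuclideanSpace ℝ (Fin (Module.finrank ℝ E)) →L[ℝ] E).comp (fstL 2 ℝ (EuclideanSpace ℝ (Fin (Module.finrank ℝ E))) (EuclideanSpace ℝ (Fin (Module.finrank ℝ F))))).prod ((e₂.symm : EuclideanSpace ℝ (Fin (Module.finrank ℝ F)) →L[ℝ] F).comp (sndL 2 ℝ (EuclideanSpace ℝ (Fin (Module.finrank ℝ E))) (EuclideanSpace ℝ (Fin (Module.finrank ℝ F)))))) with hL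
  have hLa : ∀ z : WithLp 2 (EuclideanSpace ℝ (Fin (Module.finrank ℝ E)) × EuclideanSpace ℝ (Fin (Module.finrank ℝ F))), L z = (e₁.symm z.fst, e₂.symm z.snd) := fun z => rfl
  set b : WithLp 2 (EuclideanSpace ℝ (Fin (Module.finrank ℝ E)) × EuclideanSpace ℝ (Fin (Module.finrank ℝ F))) →L[ℝ] WithLp 2 (EuclideanSpace ℝ (Fin (Module.finrank ℝ E)) × EuclideanSpace ℝ (Fin (Module.finrank ℝ F))) →L[ℝ] ℝ :=
    (1 / 2 : ℝ) • (B.bilinearComp L L + (B.bilinearComp L L).flip) with hb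
  have hba : ∀ z w, b z w = 1 / 2 * (B (L z) (L w) + B (L w) (L z)) := fun z w => rfl
  set A : WithLp 2 (EuclideanSpace ℝ (Fin (Module.finrank ℝ E)) × EuclideanSpace ℝ (Fin (Module.finrank ℝ F))) →L[ℝ] WithLp 2 (EuclideanSpace ℝ (Fin (Module.finrank ℝ E)) × EuclideanSpace ℝ (Fin (Module.finrank ℝ F))) :=
    opOf b + (2 * ε₀ * N ^ 2) • ContinuousLinearMap.id ℝ _ with hA
  have hAa : ∀ z w, ⟪A z, w⟫ = 1 / 2 * (B (L z) (L w) + B (L w) (L z)) + 2 * ε₀ * N ^ 2 * ⟪z, w⟫ := by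
    intro z w
    have : A z = opOf b z + (2 * ε₀ * N ^ 2) • z := rfl
    rw [this, inner_add_left, inner_opOf, hba, real_inner_smul_left]
  have hAs : ∀ z w, ⟪A z, w⟫ = ⟪z, A w⟫ := by
    intro z w
    rw [real_inner_comm (A w) z, hAa, hAa, real_inner_comm z w]
    ring
  have hAq : ∀ z, ⟪A z, z⟫ = B (L z) (L z) + 2 * ε₀ * N ^ 2 * ‖z‖ ^ 2 := by
    intro z
    rw [hAa, real_inner_self_eq_norm_sq]
    ring
  have hC₁ := pullS_compact e₁ x₀ hK₁ ρ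
  have hC₂ := pullS_compact e₂ y₀ hK₂ ρ
  have hU₁ := pullF_usc e₁ x₀ P hu ρ
  have hU₂ := pullF_usc e₂ y₀ Q hv ρ
  have hz₁ : (0 : EuclideanSpace ℝ (Fin (Module.finrank ℝ E))) ∈ pullS e₁ K₁ x₀ ρ := by
    refine ⟨?_, Metric.mem_closedBall_self hρ0.le⟩
    show x₀ + e₁.symm 0 ∈ K₁
    rw [map_zero, add_zero]; exact hx₀
  have hz₂ : (0 : EuclideanSpace ℝ (Fin (Module.finrank ℝ F))) ∈ pullS e₂ K₂ y₀ ρ := by
    refine ⟨?_, Metric.mem_closedBall_self hρ0.le⟩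
    show y₀ + e₂.symm 0 ∈ K₂
    rw [map_zero, add_zero]; exact hy₀
  have hf₁ : pullF e₁ x₀ P u 0 = 0 := by simp [pullF]
  have hf₂ : pullF e₂ y₀ Q v 0 = 0 := by simp [pullF]
  have hmaj' : ∀ ξ ∈ pullS e₁ K₁ x₀ ρ, ∀ η ∈ pullS e₂ K₂ y₀ ρ, pullF e₁ x₀ P u ξ + pullF e₂ y₀ Q v η ≤
      1 / 2 * ⟪A (toLp 2 (ξ, η)), (toLp 2 (ξ, η) : WithLp 2 (EuclideanSpace ℝ (Fin (Module.finrank ℝ E)) × EuclideanSpace ℝ (Fin (Module.finrank ℝ F))))⟫ := by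
    intro ξ hξ η hη
    have hξ2 : ‖ξ‖ ≤ ρ := by simpa using hξ.2
    have hη2 : ‖η‖ ≤ ρ := by simpa using hη.2
    have n1 : ‖e₁.symm ξ‖ < r := (hN3 ξ).trans_lt ((mul_le_mul_of_nonneg_left hξ2 hN0.le).trans_lt hNρ)
    have n2 : ‖e₂.symm η‖ < r := (hN4 η).trans_lt ((mul_le_mul_of_nonneg_left hη2 hN0.le).trans_lt hNρ)
    have h1 := hmaj _ hξ.1 _ hη.1 (by rwa [add_sub_cancel_left]) (by rwa [add_sub_cancel_left])
    rw [add_sub_cancel_left, add_sub_cancel_left] at h1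
    rw [hAq, hLa]
    have h2 : ‖(toLp 2 (ξ, η) : WithLp 2 (EuclideanSpace ℝ (Fin (Module.finrank ℝ E)) × EuclideanSpace ℝ (Fin (Module.finrank ℝ F))))‖ ^ 2 = ‖ξ‖ ^ 2 + ‖η‖ ^ 2 := prod_norm_sq_eq_of_L2 _
    have h3 : ‖e₁.symm ξ‖ ^ 2 + ‖e₂.symm η‖ ^ 2 ≤ N ^ 2 * (‖ξ‖ ^ 2 + ‖η‖ ^ 2) := by
      have a1 := pow_le_pow_left₀ (norm_nonneg _) (hN3 ξ) 2
      have a2 := pow_le_pow_left₀ (norm_nonneg _) (hN4 η) 2
      rw [mul_pow] at a1 a2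
      linarith
    have h4 := mul_le_mul_of_nonneg_left h3 hε₀0.le
    have h5 : pullF e₁ x₀ P u ξ = u (x₀ + e₁.symm ξ) - u x₀ - P (e₁.symm ξ) := rfl
    have h6 : pullF e₂ y₀ Q v η = v (y₀ + e₂.symm η) - v y₀ - Q (e₂.symm η) := rfl
    rw [h2, h5, h6]
    show _ ≤ 1 / 2 * (B (e₁.symm ξ, e₂.symm η) (e₁.symm ξ, e₂.symm η) + 2 * ε₀ * N ^ 2 * (‖ξ‖ ^ 2 + ‖η‖ ^ 2))
    linarith
  -- the small parameter
  set M : ℝ := 1 + N + N * ‖P‖ + N * ‖Q‖ + 2 * N ^ 2 with hM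
  have hM0 : 0 < M := by positivity
  set d : ℝ := min ρ (δ / M) with hd
  have hd0 : 0 < d := lt_min hρ0 (by positivity)
  have hdρ : d ≤ ρ := min_le_left _ _
  have hdM : d + d * N + d * (N * ‖P‖) + d * (N * ‖Q‖) + 2 * (d * N ^ 2) ≤ δ := by
    have h1 : d ≤ δ / M := min_le_right _ _
    rw [le_div_iff₀ hM0] at h1
    have h2 : d * M = d + d * N + d * (N * ‖P‖) + d * (N * ‖Q‖) + 2 * (d * N ^ 2) := by rw [hM]; ring
    linarith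
  have q1 : 0 ≤ d * N := by positivity
  have q2 : 0 ≤ d * (N * ‖P‖) := by positivity
  have q3 : 0 ≤ d * (N * ‖Q‖) := by positivity
  have q4 : 0 ≤ d * N ^ 2 := by positivity
  obtain ⟨ξ, hξ, η, hη, p, q, X, Y, c1, c2, c3, c4, c5, c6, c7, c8, c9, c10, c11⟩ :=
    sums_inner hC₁ hC₂ hz₁ hz₂ hU₁ hU₂ hf₁ hf₂ hAs hmaj' hd0
  have g1 : ‖e₁.symm ξ‖ ≤ d * N := (hN3 ξ).trans (by nlinarith)
  have g2 : ‖e₂.symm η‖ ≤ d * N := (hN4 η).trans (by nlinarith)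
  refine ⟨x₀ + e₁.symm ξ, hξ.1, y₀ + e₂.symm η, hη.1, pullP e₁ P p, pullP e₂ Q q, pullX e₁ X, pullX e₂ Y,
    ?_, ?_, ?_, ?_, ?_, ?_, ?_, ?_, ?_, ?_, ?_⟩
  · rw [add_sub_cancel_left]; linarith
  · rw [add_sub_cancel_left]; linarith
  · have h1 : u (x₀ + e₁.symm ξ) - u x₀ = pullF e₁ x₀ P u ξ + P (e₁.symm ξ) := by simp only [pullF]; ring
    have h2 : |P (e₁.symm ξ)| ≤ d * (N * ‖P‖) := by
      have h3 : ‖P (e₁.symm ξ)‖ ≤ ‖P‖ * ‖e₁.symm ξ‖ := P.le_opNorm _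
      rw [Real.norm_eq_abs] at h3
      have h4 := mul_le_mul_of_nonneg_left g1 (norm_nonneg P)
      linarith
    rw [h1]
    refine (abs_add_le _ _).trans_lt ?_
    linarith
  · have h1 : v (y₀ + e₂.symm η) - v y₀ = pullF e₂ y₀ Q v η + Q (e₂.symm η) := by simp only [pullF]; ring
    have h2 : |Q (e₂.symm η)| ≤ d * (N * ‖Q‖) := by
      have h3 : ‖Q (e₂.symm η)‖ ≤ ‖Q‖ * ‖e₂.symm η‖ := Q.le_opNorm _
      rw [Real.norm_eq_abs] at h3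
      have h4 := mul_le_mul_of_nonneg_left g2 (norm_nonneg Q)
      linarith
    rw [h1]
    refine (abs_add_le _ _).trans_lt ?_
    linarith
  · have h1 := pullP_norm e₁ P hN0.le hN1 p
    nlinarith
  · have h1 := pullP_norm e₂ Q hN0.le hN2 q
    nlinarith
  · intro a b'
    rw [pullX_apply, pullX_apply, c7, real_inner_comm]
  · intro a b'
    rw [pullX_apply, pullX_apply, c8, real_inner_comm]
  · intro ε hε
    exact jet_transfer e₁ x₀ P hN0 hN1 (by linarith) c9 hε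
  · intro ε hε
    exact jet_transfer e₂ y₀ Q hN0 hN2 (by linarith) c10 hε
  · intro a b'
    have h1 := c11 (e₁ a) (e₂ b')
    rw [hAq, hLa] at h1
    have h2 : ‖(toLp 2 (e₁ a, e₂ b') : WithLp 2 (EuclideanSpace ℝ (Fin (Module.finrank ℝ E)) × EuclideanSpace ℝ (Fin (Module.finrank ℝ F))))‖ ^ 2 = ‖e₁ a‖ ^ 2 + ‖e₂ b'‖ ^ 2 := prod_norm_sq_eq_of_L2 _
    rw [h2] at h1
    have h3 : (e₁.symm (toLp 2 (e₁ a, e₂ b') : WithLp 2 (EuclideanSpace ℝ (Fin (Module.finrank ℝ E)) × EuclideanSpace ℝ (Fin (Module.finrank ℝ F)))).fst,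
        e₂.symm (toLp 2 (e₁ a, e₂ b') : WithLp 2 (EuclideanSpace ℝ (Fin (Module.finrank ℝ E)) × EuclideanSpace ℝ (Fin (Module.finrank ℝ F)))).snd) = (a, b') := by
      show (e₁.symm (e₁ a), e₂.symm (e₂ b')) = (a, b')
      rw [e₁.symm_apply_apply, e₂.symm_apply_apply]
    rw [h3] at h1
    rw [pullX_apply, pullX_apply]
    have a1 := pow_le_pow_left₀ (norm_nonneg _) (hN1 a) 2
    have a2 := pow_le_pow_left₀ (norm_nonneg _) (hN2 b') 2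
    rw [mul_pow] at a1 a2
    have h4 : (2 * ε₀ * N ^ 2 + d) * (‖e₁ a‖ ^ 2 + ‖e₂ b'‖ ^ 2) ≤
        (2 * ε₀ * N ^ 2 + d) * (N ^ 2 * (‖a‖ ^ 2 + ‖b'‖ ^ 2)) :=
      mul_le_mul_of_nonneg_left (by linarith) (by positivity)
    have h5 : (2 * ε₀ * N ^ 2 + d) * N ^ 2 ≤ δ := by
      have h6 : 2 * ε₀ * N ^ 2 * N ^ 2 = δ / 2 := by rw [hε₀]; field_simp; ring
      have h7 : 2 * (d * N ^ 2) ≤ δ := by linarith
      linarith
    have h6 := mul_le_mul_of_nonneg_right h5 (by positivity : 0 ≤ ‖a‖ ^ 2 + ‖b'‖ ^ 2)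
    linarith

/-- The theorem on sums for compact sets with a quadratic majorant. -/
theorem sum_quad {K₁ : Set E} {K₂ : Set F} (hK₁ : IsCompact K₁) (hK₂ : IsCompact K₂) {xh : E} {yh : F}
    (hxh : xh ∈ K₁) (hyh : yh ∈ K₂) (P : E →L[ℝ] ℝ) (Q : F →L[ℝ] ℝ) (B : (E × F) →L[ℝ] (E × F) →L[ℝ] ℝ)
    (h : ∀ x ∈ K₁, ∀ y ∈ K₂, 0 ≤ P (x - xh) + Q (y - yh) + (1 / 2) * B (x - xh, y - yh) (x - xh, y - yh))
    {de : ℝ} (hde : 0 < de) :
    ∃ x ∈ K₁, ∃ y ∈ K₂, ∃ (p : E →L[ℝ] ℝ) (q : F →L[ℝ] ℝ) (X : E →L[ℝ] E →L[ℝ] ℝ) (Y : F →L[ℝ] F →L[ℝ] ℝ),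
      ‖x - xh‖ < de ∧ ‖y - yh‖ < de ∧ ‖p - P‖ < de ∧ ‖q - Q‖ < de ∧
      (∀ eps : ℝ, 0 < eps → ∃ r : ℝ, 0 < r ∧ ∀ z ∈ K₁, ‖z - x‖ < r →
        0 ≤ p (z - x) + (1 / 2) * X (z - x) (z - x) + eps * ‖z - x‖ ^ 2) ∧
      (∀ eps : ℝ, 0 < eps → ∃ r : ℝ, 0 < r ∧ ∀ z ∈ K₂, ‖z - y‖ < r →
        0 ≤ q (z - y) + (1 / 2) * Y (z - y) (z - y) + eps * ‖z - y‖ ^ 2) ∧
      ∀ a b, X a a + Y b b ≤ B (a, b) (a, b) + de * (‖a‖ ^ 2 + ‖b‖ ^ 2) := by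
  obtain ⟨x, hx, y, hy, p, q, X, Y, c1, c2, -, -, c5, c6, -, -, c9, c10, c11⟩ :=
    sums_gen hK₁ hK₂ (u := fun _ => 0) (v := fun _ => 0) (continuous_const.continuousOn.upperSemicontinuousOn)
      (continuous_const.continuousOn.upperSemicontinuousOn) hxh hyh P Q B
      (fun ε hε => ⟨1, one_pos, fun x hx y hy _ _ => by
        have h1 := h x hx y hy
        have h2 : 0 ≤ ε * (‖x - xh‖ ^ 2 + ‖y - yh‖ ^ 2) := by positivity
        simp only [add_zero, zero_add]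
        linarith⟩) hde
  refine ⟨x, hx, y, hy, p, q, X, Y, c1, c2, c5, c6, fun eps heps => ?_, fun eps heps => ?_, c11⟩
  · obtain ⟨r, hr, h1⟩ := c9 eps heps
    refine ⟨r, hr, fun z hz hzr => ?_⟩
    have := h1 z hz hzr
    simp only [zero_add] at this
    exact this
  · obtain ⟨r, hr, h1⟩ := c10 eps heps
    refine ⟨r, hr, fun z hz hzr => ?_⟩
    have := h1 z hz hzr
    simp only [zero_add] at this
    exact this

end Pool.Agent.VSC
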