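import Pool.Agent.VSC.Hole

/-!
# Conversion of jets in space time to lower jets; the quartic majorant
-/

namespace Pool.Agent.VSC

/-- The spatial gradient of a linear functional on space time. -/
noncomputable def grad (p : (V × ℝ) →L[ℝ] ℝ) : V :=
  (InnerProductSpace.toDual ℝ V).symm (p.comp (ContinuousLinearMap.inl ℝ V ℝ))

theorem inner_grad (p : (V × ℝ) →L[ℝ] ℝ) (x : V) : inner ℝ (grad p) x = p (x, 0) := by
  rw [grad, InnerProductSpace.toDual_symm_apply]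
  rfl

/-- The spatial part of a bilinear form on space time. -/
noncomputable def spat (X : (V × ℝ) →L[ℝ] (V × ℝ) →L[ℝ] ℝ) : V →L[ℝ] V →L[ℝ] ℝ :=
  X.bilinearComp (ContinuousLinearMap.inl ℝ V ℝ) (ContinuousLinearMap.inl ℝ V ℝ)

theorem spat_apply (X : (V × ℝ) →L[ℝ] (V × ℝ) →L[ℝ] ℝ) (h h' : V) :
    spat X h h' = X (h, 0) (h', 0) := rfl

theorem map_pair (p : (V × ℝ) →L[ℝ] ℝ) (x : V) (t : ℝ) :
    p (x, t) = p (0, 1) * t + inner ℝ (grad p) x := by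
  have h1 : ((x, t) : V × ℝ) = (x, 0) + t • (0, 1) := by
    ext <;> simp
  rw [h1, map_add, map_smul, inner_grad, smul_eq_mul]
  ring

theorem norm_zero_one : ‖((0, 1) : V × ℝ)‖ = 1 := by
  rw [Prod.norm_def]; simp

theorem norm_pair_zero (h : V) : ‖((h, 0) : V × ℝ)‖ = ‖h‖ := by
  rw [Prod.norm_def]; simp

theorem norm_sq_pair_le (h : V) (t : ℝ) : ‖((h, t) : V × ℝ)‖ ^ 2 ≤ ‖h‖ ^ 2 + |t| ^ 2 := by
  rw [Prod.norm_def]
  simp only [Real.norm_eq_abs]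
  rcases max_choice ‖h‖ |t| with h1 | h1
  · rw [h1]; nlinarith [sq_nonneg (|t|)]
  · rw [h1]; nlinarith [sq_nonneg (‖h‖)]

theorem grad_sub_norm (p P : (V × ℝ) →L[ℝ] ℝ) : ‖grad p - grad P‖ ≤ ‖p - P‖ := by
  set v := grad p - grad P with hv
  have h1 : ‖v‖ ^ 2 = (p - P) (v, 0) := by
    rw [← real_inner_self_eq_norm_sq]
    conv_lhs => rw [hv]
    rw [inner_sub_left, inner_grad, inner_grad]
    rfl
  have h2 : (p - P) (v, 0) ≤ ‖p - P‖ * ‖v‖ := by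
    have := (p - P).le_opNorm (v, 0)
    rw [norm_pair_zero] at this
    exact le_trans (le_abs_self _) this
  rcases (norm_nonneg v).eq_or_lt with h3 | h3
  · rw [← h3]; exact norm_nonneg _
  · have : ‖v‖ * ‖v‖ ≤ ‖p - P‖ * ‖v‖ := by rw [← h1] at h2; linarith [sq (‖v‖)]
    exact le_of_mul_le_mul_right this h3

/-- A jet in space time restricted to a neighbourhood gives a lower jet. -/
theorem lowJet_of_jet {S K : Set (V × ℝ)} {x : V} {t : ℝ} {p : (V × ℝ) →L[ℝ] ℝ}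
    {X : (V × ℝ) →L[ℝ] (V × ℝ) →L[ℝ] ℝ} {r0 : ℝ} (hr0 : 0 < r0)
    (hK : ∀ z ∈ S, ‖z - (x, t)‖ < r0 → z ∈ K)
    (h : ∀ eps : ℝ, 0 < eps → ∃ r : ℝ, 0 < r ∧ ∀ z ∈ K, ‖z - (x, t)‖ < r →
        0 ≤ p (z - (x, t)) + (1 / 2) * X (z - (x, t)) (z - (x, t)) + eps * ‖z - (x, t)‖ ^ 2) :
    LowJet S x t (p (0, 1)) (grad p) (spat X) := by
  intro eps heps
  obtain ⟨r1, hr1, h1⟩ := h (eps / 2) (by positivity)
  obtain ⟨r, hr, hrr0, hrr1, hrX⟩ : ∃ r : ℝ, 0 < r ∧ r ≤ r0 ∧ r ≤ r1 ∧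
      r * (2 * ‖X‖ + eps) ≤ eps / 2 := by
    have hpos : 0 < 2 * ‖X‖ + eps := by positivity
    refine ⟨min (min r0 r1) (eps / 2 / (2 * ‖X‖ + eps)), lt_min (lt_min hr0 hr1) (by positivity),
      le_trans (min_le_left _ _) (min_le_left _ _),
      le_trans (min_le_left _ _) (min_le_right _ _), ?_⟩
    have := min_le_right (min r0 r1) (eps / 2 / (2 * ‖X‖ + eps))
    rwa [le_div_iff₀ hpos] at this
  refine ⟨r, hr, fun x' t' hS hx' ht' htt => ?_⟩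
  have e1 : ((x', t') : V × ℝ) - (x, t) = (x' - x, t' - t) := rfl
  have hnorm : ‖((x', t') : V × ℝ) - (x, t)‖ < r := by
    rw [e1, Prod.norm_def]
    refine max_lt hx' ?_
    simp only [Real.norm_eq_abs]
    rw [abs_lt]; constructor <;> linarith
  have h2 := h1 (x', t') (hK _ hS (lt_of_lt_of_le hnorm hrr0)) (lt_of_lt_of_le hnorm hrr1)
  rw [e1] at h2
  set w := x' - x with hw
  set τ := t' - t with hτ
  have hwr : ‖w‖ ≤ r := hx'.le
  have hτr : |τ| ≤ r := by rw [abs_le]; constructor <;> linarith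
  rw [map_pair] at h2
  have e2 : ((w, τ) : V × ℝ) = (w, 0) + τ • (0, 1) := by ext <;> simp
  have e3 : X (w, τ) (w, τ) = X (w, 0) (w, 0) + τ * X (w, 0) (0, 1) + τ * X (0, 1) (w, 0)
      + τ * τ * X (0, 1) (0, 1) := by
    rw [e2]
    simp only [map_add, map_smul, _root_.add_apply, _root_.smul_apply, smul_eq_mul]
    ring
  have hXn : 0 ≤ ‖X‖ := X.opNorm_nonneg
  have b1 : τ * X (w, 0) (0, 1) ≤ |τ| * (‖X‖ * r) := by
    have : |X (w, 0) (0, 1)| ≤ ‖X‖ * ‖((w, 0) : V × ℝ)‖ * ‖((0, 1) : V × ℝ)‖ :=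
      X.le_opNorm₂ _ _
    rw [norm_pair_zero, norm_zero_one, mul_one] at this
    calc τ * X (w, 0) (0, 1) ≤ |τ * X (w, 0) (0, 1)| := le_abs_self _
      _ = |τ| * |X (w, 0) (0, 1)| := abs_mul _ _
      _ ≤ |τ| * (‖X‖ * r) := by
          refine mul_le_mul_of_nonneg_left (this.trans ?_) (abs_nonneg _)
          exact mul_le_mul_of_nonneg_left hwr hXn
  have b2 : τ * X (0, 1) (w, 0) ≤ |τ| * (‖X‖ * r) := by
    have : |X (0, 1) (w, 0)| ≤ ‖X‖ * ‖((0, 1) : V × ℝ)‖ * ‖((w, 0) : V × ℝ)‖ :=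
      X.le_opNorm₂ _ _
    rw [norm_pair_zero, norm_zero_one, mul_one] at this
    calc τ * X (0, 1) (w, 0) ≤ |τ * X (0, 1) (w, 0)| := le_abs_self _
      _ = |τ| * |X (0, 1) (w, 0)| := abs_mul _ _
      _ ≤ |τ| * (‖X‖ * r) := by
          refine mul_le_mul_of_nonneg_left (this.trans ?_) (abs_nonneg _)
          exact mul_le_mul_of_nonneg_left hwr hXn
  have b3 : τ * τ * X (0, 1) (0, 1) ≤ |τ| * (‖X‖ * r) := by
    have : |X (0, 1) (0, 1)| ≤ ‖X‖ * ‖((0, 1) : V × ℝ)‖ * ‖((0, 1) : V × ℝ)‖ :=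
      X.le_opNorm₂ _ _
    rw [norm_zero_one, mul_one, mul_one] at this
    calc τ * τ * X (0, 1) (0, 1) ≤ |τ * τ * X (0, 1) (0, 1)| := le_abs_self _
      _ = |τ| * (|τ| * |X (0, 1) (0, 1)|) := by rw [abs_mul, abs_mul]; ring
      _ ≤ |τ| * (r * ‖X‖) := by
          refine mul_le_mul_of_nonneg_left ?_ (abs_nonneg _)
          exact mul_le_mul hτr this (abs_nonneg _) hr.le
      _ = |τ| * (‖X‖ * r) := by ring
  have b4 : eps / 2 * ‖((w, τ) : V × ℝ)‖ ^ 2 ≤ eps / 2 * (‖w‖ ^ 2 + |τ| * r) := by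
    refine mul_le_mul_of_nonneg_left ((norm_sq_pair_le w τ).trans ?_) (by positivity)
    have : |τ| ^ 2 ≤ |τ| * r := by rw [sq]; exact mul_le_mul_of_nonneg_left hτr (abs_nonneg _)
    linarith
  have b5 : |τ| * (r * (2 * ‖X‖ + eps)) ≤ |τ| * (eps / 2) :=
    mul_le_mul_of_nonneg_left hrX (abs_nonneg _)
  rw [spat_apply, inner_grad]
  rw [e3, inner_grad] at h2
  have b6 : 0 ≤ |τ| * (‖X‖ * r) := by positivity
  have b7 : 0 ≤ |τ| * eps := by positivity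
  have b8 : 0 ≤ ‖w‖ ^ 2 * eps := by positivity
  have b9 : 0 ≤ |τ| * (r * eps) := by positivity
  nlinarith

end Pool.Agent.VSC
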