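import Mathlib

/-!
# Set theoretic subflows of forced curvature flow in the plane (definitions)

The plane is `V = EuclideanSpace ℝ (Fin 2)`.  Space time is `V × ℝ`.
-/

namespace Pool.Agent.VSC

/-- The plane. -/
abbrev V : Type := EuclideanSpace ℝ (Fin 2)

/-- `(a, p, X)` is an outer jet of `S` at `(x0, t0)`: up to an error `o(|t - t0| + |x - x0|^2)` the
points `(x, t)` of `S` near `(x0, t0)` with `t ≤ t0` satisfy
`a (t - t0) + p . (x - x0) + (1/2) X (x - x0, x - x0) ≤ 0`. -/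
def OuterJet (S : Set (V × ℝ)) (x0 : V) (t0 : ℝ) (a : ℝ) (p : V) (X : V →L[ℝ] V →L[ℝ] ℝ) : Prop :=
  ∀ eps : ℝ, 0 < eps → ∃ r : ℝ, 0 < r ∧ ∀ (x : V) (t : ℝ), (x, t) ∈ S → ‖x - x0‖ < r →
    t0 - r < t → t ≤ t0 →
    a * (t - t0) + inner ℝ p (x - x0) + (1 / 2) * X (x - x0) (x - x0)
      ≤ eps * (|t - t0| + ‖x - x0‖ ^ 2)

/-- `S` is an `f`-subflow on `(0, T]`: a closed subset of `V × [0, T]` which moves with normal
velocity at most `- curvature + f` in the sense of outer jets, and which is left accessible. -/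
structure Subflow (f : V → ℝ) (T : ℝ) (S : Set (V × ℝ)) : Prop where
  closed : IsClosed S
  time_nonneg : ∀ x t, (x, t) ∈ S → 0 ≤ t
  time_le : ∀ x t, (x, t) ∈ S → t ≤ T
  jet : ∀ x0 t0, (x0, t0) ∈ S → 0 < t0 → ∀ (a : ℝ) (p : V) (X : V →L[ℝ] V →L[ℝ] ℝ),
    OuterJet S x0 t0 a p X → p ≠ 0 → ∀ xi : V, ‖xi‖ = 1 → inner ℝ xi p = 0 →
    X xi xi - f x0 * ‖p‖ ≤ a
  left : ∀ x0 t0, (x0, t0) ∈ S → 0 < t0 → ∀ r : ℝ, 0 < r →
    ∃ x t, (x, t) ∈ S ∧ ‖x - x0‖ < r ∧ t0 - r < t ∧ t < t0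

/-- Lower jets: the outer jets with all signs reversed (convenient in the comparison proof). -/
def LowJet (S : Set (V × ℝ)) (x0 : V) (t0 : ℝ) (a : ℝ) (p : V) (X : V →L[ℝ] V →L[ℝ] ℝ) : Prop :=
  ∀ eps : ℝ, 0 < eps → ∃ r : ℝ, 0 < r ∧ ∀ (x : V) (t : ℝ), (x, t) ∈ S → ‖x - x0‖ < r →
    t0 - r < t → t ≤ t0 →
    0 ≤ a * (t - t0) + inner ℝ p (x - x0) + (1 / 2) * X (x - x0) (x - x0)
      + eps * (|t - t0| + ‖x - x0‖ ^ 2)

theorem LowJet.outer {S : Set (V × ℝ)} {x0 : V} {t0 a : ℝ} {p : V} {X : V →L[ℝ] V →L[ℝ] ℝ}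
    (h : LowJet S x0 t0 a p X) : OuterJet S x0 t0 (-a) (-p) (-X) := by
  intro eps heps
  obtain ⟨r, hr, h1⟩ := h eps heps
  refine ⟨r, hr, fun x t hx h2 h3 h4 => ?_⟩
  have := h1 x t hx h2 h3 h4
  simp only [inner_neg_left, _root_.neg_apply]
  nlinarith

/-- The jet condition of a subflow in terms of lower jets. -/
theorem Subflow.low {f : V → ℝ} {T : ℝ} {S : Set (V × ℝ)} (h : Subflow f T S) {x0 : V} {t0 : ℝ}
    (hx : (x0, t0) ∈ S) (ht : 0 < t0) {a : ℝ} {p : V} {X : V →L[ℝ] V →L[ℝ] ℝ}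
    (hj : LowJet S x0 t0 a p X) (hp : p ≠ 0) {xi : V} (h1 : ‖xi‖ = 1) (h2 : inner ℝ xi p = 0) :
    a ≤ X xi xi + f x0 * ‖p‖ := by
  have := h.jet x0 t0 hx ht (-a) (-p) (-X) hj.outer (neg_ne_zero.2 hp) xi h1 (by simp [h2])
  simp only [_root_.neg_apply, norm_neg] at this
  linarith

/-- Rotation by a right angle. -/
noncomputable def J (x : V) : V := WithLp.toLp 2 ![-(x 1), x 0]

theorem J_zero_apply (x : V) : J x 0 = -(x 1) := rfl
theorem J_one_apply (x : V) : J x 1 = x 0 := rfl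

theorem norm_J (x : V) : ‖J x‖ = ‖x‖ := by
  rw [EuclideanSpace.norm_eq, EuclideanSpace.norm_eq, Fin.sum_univ_two, Fin.sum_univ_two,
    J_zero_apply, J_one_apply]
  congr 1
  simp only [Real.norm_eq_abs, sq_abs]
  ring

theorem inner_J (x : V) : inner ℝ (J x) x = 0 := by
  rw [PiLp.inner_apply, Fin.sum_univ_two, J_zero_apply, J_one_apply]
  simp only [RCLike.inner_apply, conj_trivial]
  ring

theorem J_add (x y : V) : J (x + y) = J x + J y := by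
  ext i
  fin_cases i
  · show -((x + y) 1) = -(x 1) + -(y 1)
    simp; ring
  · show (x + y) 0 = x 0 + y 0
    simp

theorem J_smul (c : ℝ) (x : V) : J (c • x) = c • J x := by
  ext i
  fin_cases i
  · show -((c • x) 1) = c * -(x 1)
    simp
  · show (c • x) 0 = c * x 0
    simp

end Pool.Agent.VSC
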