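import Pool.Agent.VSC.Defs

/-!
# Hole lemma (finite speed) and jets with vanishing spatial gradient
-/

namespace Pool.Agent.VSC

theorem exists_perp {p : V} (hp : p ≠ 0) : ∃ xi : V, ‖xi‖ = 1 ∧ inner ℝ xi p = 0 := by
  have hn : ‖p‖ ≠ 0 := norm_ne_zero_iff.2 hp
  refine ⟨‖p‖⁻¹ • J p, ?_, ?_⟩
  · rw [norm_smul, norm_J, norm_inv, norm_norm, inv_mul_cancel₀ hn]
  · rw [real_inner_smul_left, inner_J, mul_zero]

theorem sq_norm_add (a b : V) : ‖a + b‖ ^ 2 = ‖a‖ ^ 2 + 2 * inner ℝ a b + ‖b‖ ^ 2 :=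
  norm_add_sq_real a b

/-- `c` times the identity as a bilinear form. -/
noncomputable def idForm (c : ℝ) : V →L[ℝ] V →L[ℝ] ℝ := c • (innerSL ℝ : V →L[ℝ] V →L[ℝ] ℝ)

theorem idForm_self (c : ℝ) (h : V) : idForm c h h = c * ‖h‖ ^ 2 := by
  have : idForm c h h = c * inner ℝ h h := rfl
  rw [this, real_inner_self_eq_norm_sq]

/-- Hole lemma: an empty closed ball of radius `R` at time `t1` stays empty after shrinking its
squared radius with speed `C > 2 (1 + F0 R)`. -/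
theorem hole {f : V → ℝ} {T F0 : ℝ} {S : Set (V × ℝ)} (hS : Subflow f T S)
    (hf : ∀ x, |f x| ≤ F0) {C R : ℝ} (hR : 0 < R) (hC : 2 * (1 + F0 * R) < C) {x0 : V} {t1 : ℝ}
    (ht1 : 0 ≤ t1) (h0 : ∀ x, ‖x - x0‖ ≤ R → (x, t1) ∉ S) :
    ∀ t, t1 ≤ t → C * (t - t1) < R ^ 2 → ∀ x, ‖x - x0‖ ^ 2 ≤ R ^ 2 - C * (t - t1) →
      (x, t) ∉ S := by
  intro t2 h2 hC2 x2 hx2 hmem
  have hF0 : 0 ≤ F0 := le_trans (abs_nonneg _) (hf x0)
  have hCpos : 0 < C := by nlinarith [mul_nonneg hF0 hR.le]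
  set A : Set (V × ℝ) := {z | z ∈ S ∧ t1 ≤ z.2 ∧ z.2 ≤ t2 ∧ ‖z.1 - x0‖ ^ 2 ≤ R ^ 2 - C * (z.2 - t1)}
    with hAdef
  have hAclosed : IsClosed A := by
    refine hS.closed.inter (IsClosed.inter ?_ (IsClosed.inter ?_ ?_))
    · exact isClosed_le continuous_const continuous_snd
    · exact isClosed_le continuous_snd continuous_const
    · exact isClosed_le (f := fun z : V × ℝ => ‖z.1 - x0‖ ^ 2)
        (g := fun z : V × ℝ => R ^ 2 - C * (z.2 - t1)) (by fun_prop) (by fun_prop)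
  have hAsub : A ⊆ Metric.closedBall x0 R ×ˢ Set.Icc t1 t2 := by
    rintro ⟨x, t⟩ ⟨-, h1, h3, h4⟩
    refine ⟨?_, h1, h3⟩
    rw [mem_closedBall_iff_norm]
    simp only at h1 h3 h4
    have : ‖x - x0‖ ^ 2 ≤ R ^ 2 := by nlinarith [mul_nonneg hCpos.le (sub_nonneg.2 h1)]
    exact (abs_le_of_sq_le_sq' this hR.le).2
  have hAc : IsCompact A :=
    ((isCompact_closedBall x0 R).prod isCompact_Icc).of_isClosed_subset hAclosed hAsub
  obtain ⟨⟨xs, ts⟩, hzA, hzmin⟩ :=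
    hAc.exists_isMinOn ⟨(x2, t2), hmem, h2, le_refl _, hx2⟩ continuous_snd.continuousOn
  have hzmin' : ∀ x t, (x, t) ∈ A → ts ≤ t := fun x t h => hzmin h
  obtain ⟨hzS, hz1, hz2, hz3⟩ := hzA
  simp only at hz1 hz2 hz3
  have hge : ∀ x t, (x, t) ∈ S → t1 ≤ t → t ≤ ts → R ^ 2 - C * (t - t1) ≤ ‖x - x0‖ ^ 2 := by
    intro x t hxt h1t htts
    by_contra hcon
    push Not at hcon
    have h1t' : t1 < t := by
      rcases h1t.lt_or_eq with h | h
      · exact h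
      · exfalso
        subst h
        apply h0 x _ hxt
        have : ‖x - x0‖ ^ 2 ≤ R ^ 2 := by nlinarith
        exact (abs_le_of_sq_le_sq' this hR.le).2
    have hcont : ContinuousAt (fun y : V => ‖y - x0‖ ^ 2) x := by fun_prop
    have hev : ∀ᶠ y in nhds x, ‖y - x0‖ ^ 2 < R ^ 2 - C * (t - t1) :=
      hcont.eventually (gt_mem_nhds hcon)
    obtain ⟨r, hr, hr2⟩ := Metric.eventually_nhds_iff.1 hev
    obtain ⟨x', t', hx', hn', htt', htt2⟩ :=
      hS.left x t hxt (lt_of_le_of_lt ht1 h1t') (min r (t - t1)) (lt_min hr (by linarith))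
    have h5 := hr2 (y := x') (by rw [dist_eq_norm]; exact lt_of_lt_of_le hn' (min_le_left _ _))
    have h6 : t1 < t' := by
      have := min_le_right r (t - t1)
      linarith
    have h7 : (x', t') ∈ A := by
      refine ⟨hx', h6.le, ?_, ?_⟩
      · show t' ≤ t2
        linarith
      · show ‖x' - x0‖ ^ 2 ≤ R ^ 2 - C * (t' - t1)
        nlinarith
    have := hzmin' x' t' h7
    linarith
  have hts : t1 < ts := by
    rcases hz1.lt_or_eq with h | h
    · exact h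
    · exfalso
      subst h
      apply h0 xs _ hzS
      have : ‖xs - x0‖ ^ 2 ≤ R ^ 2 := by nlinarith
      exact (abs_le_of_sq_le_sq' this hR.le).2
  have heq : ‖xs - x0‖ ^ 2 = R ^ 2 - C * (ts - t1) := le_antisymm hz3 (hge xs ts hzS hz1 le_rfl)
  have hpos : 0 < ‖xs - x0‖ ^ 2 := by rw [heq]; nlinarith
  have hne : xs - x0 ≠ 0 := by
    intro h
    rw [h] at hpos
    simp at hpos
  -- the jet
  have hj : LowJet S xs ts C ((2 : ℝ) • (xs - x0)) (idForm 2) := by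
    intro eps heps
    refine ⟨ts - t1, by linarith, fun x t hxt _ h3 h4 => ?_⟩
    have h5 := hge x t hxt (by linarith) h4
    have h6 : x - x0 = (xs - x0) + (x - xs) := by abel
    rw [h6, sq_norm_add] at h5
    have h7 : (0:ℝ) ≤ eps * (|t - ts| + ‖x - xs‖ ^ 2) := by positivity
    rw [idForm_self, real_inner_smul_left]
    nlinarith
  have hp : (2 : ℝ) • (xs - x0) ≠ 0 := smul_ne_zero two_ne_zero hne
  obtain ⟨xi, hxi1, hxi2⟩ := exists_perp hp
  have h9 := hS.low hzS (lt_of_le_of_lt ht1 hts) hj hp hxi1 hxi2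
  rw [idForm_self, hxi1, norm_smul] at h9
  have h11 : ‖xs - x0‖ ≤ R := by
    have : ‖xs - x0‖ ^ 2 ≤ R ^ 2 := by rw [heq]; nlinarith
    exact (abs_le_of_sq_le_sq' this hR.le).2
  have h12 : f xs ≤ F0 := le_trans (le_abs_self _) (hf xs)
  have h13 : f xs * (‖(2:ℝ)‖ * ‖xs - x0‖) ≤ F0 * (2 * R) := by
    have h2n : ‖(2:ℝ)‖ = 2 := by norm_num
    rw [h2n]
    have : f xs * (2 * ‖xs - x0‖) ≤ F0 * (2 * ‖xs - x0‖) :=
      mul_le_mul_of_nonneg_right h12 (by positivity)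
    nlinarith [mul_nonneg hF0 (sub_nonneg.2 h11)]
  nlinarith

/-- Lemma Z: jets with vanishing spatial gradient. -/
theorem low_zero {f : V → ℝ} {T F0 : ℝ} {S : Set (V × ℝ)} (hS : Subflow f T S)
    (hf : ∀ x, |f x| ≤ F0) {x0 : V} {t0 : ℝ} (hx : (x0, t0) ∈ S) (ht : 0 < t0) {al c : ℝ}
    (hc : 0 < c) (hj : ∀ eps : ℝ, 0 < eps → ∃ r : ℝ, 0 < r ∧ ∀ (x : V) (t : ℝ), (x, t) ∈ S →
      ‖x - x0‖ < r → t0 - r < t → t ≤ t0 →
      0 ≤ al * (t - t0) + c * ‖x - x0‖ ^ 2 + eps * (|t - t0| + ‖x - x0‖ ^ 2)) :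
    al ≤ 4 * (1 + F0) * c := by
  by_contra hcon
  push Not at hcon
  have hF0 : 0 ≤ F0 := le_trans (abs_nonneg _) (hf x0)
  set C0 : ℝ := 4 * (1 + F0) with hC0
  have hC0pos : 0 < C0 := by positivity
  -- choose eps
  obtain ⟨eps, heps, heps2⟩ : ∃ eps : ℝ, 0 < eps ∧ C0 * (c + eps) < al - eps := by
    refine ⟨(al - C0 * c) / (2 * (C0 + 1)), div_pos (by linarith) (by positivity), ?_⟩
    have h1 : (al - C0 * c) / (2 * (C0 + 1)) * (C0 + 1) = (al - C0 * c) / 2 := by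
      field_simp
    nlinarith
  set al' := al - eps with hal'
  set c' := c + eps with hc'
  have hc'pos : 0 < c' := by positivity
  have hal'pos : 0 < al' := lt_trans (by positivity) heps2
  obtain ⟨r, hr, hr2⟩ := hj eps heps
  set m := (C0 + al' / c') / 2 with hm
  have hq : C0 < al' / c' := by rw [lt_div_iff₀ hc'pos]; linarith
  have hm1 : C0 < m := by rw [hm]; linarith
  have hm2 : m < al' / c' := by rw [hm]; linarith
  have hmpos : 0 < m := lt_trans hC0pos hm1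
  -- choose tau
  obtain ⟨tau, htau, htau1, htau2, htau3, htau4⟩ : ∃ tau : ℝ, 0 < tau ∧ tau < r ∧ tau ≤ t0 ∧
      m * tau < r ^ 2 ∧ m * tau ≤ 1 := by
    set b := min (min (r / 2) t0) (min (r ^ 2 / (2 * m)) (1 / m)) with hb
    have hbpos : 0 < b := by
      refine lt_min (lt_min (by positivity) ht) (lt_min (by positivity) (by positivity))
    have hb1 : b ≤ r / 2 := le_trans (min_le_left _ _) (min_le_left _ _)
    have hb2 : b ≤ t0 := le_trans (min_le_left _ _) (min_le_right _ _)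
    have hb3 : b ≤ r ^ 2 / (2 * m) := le_trans (min_le_right _ _) (min_le_left _ _)
    have hb4 : b ≤ 1 / m := le_trans (min_le_right _ _) (min_le_right _ _)
    refine ⟨b, hbpos, by linarith, hb2, ?_, ?_⟩
    · rw [le_div_iff₀ (by positivity)] at hb3
      nlinarith [sq_pos_of_pos hr]
    · rw [le_div_iff₀ hmpos] at hb4
      linarith
  set R := Real.sqrt (m * tau) with hRdef
  have hRsq : R ^ 2 = m * tau := Real.sq_sqrt (by positivity)
  have hRpos : 0 < R := Real.sqrt_pos.2 (by positivity)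
  have hR1 : R ≤ 1 := by
    rw [hRdef]
    calc Real.sqrt (m * tau) ≤ Real.sqrt 1 := Real.sqrt_le_sqrt htau4
      _ = 1 := Real.sqrt_one
  have hRr : R < r := by
    have : R ^ 2 < r ^ 2 := by rw [hRsq]; exact htau3
    exact lt_of_pow_lt_pow_left₀ 2 hr.le this
  have hempty : ∀ x, ‖x - x0‖ ≤ R → (x, t0 - tau) ∉ S := by
    intro x hxR hxS
    have h1 := hr2 x (t0 - tau) hxS (lt_of_le_of_lt hxR hRr) (by linarith) (by linarith)
    have h2 : t0 - tau - t0 = -tau := by ring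
    rw [h2, abs_neg, abs_of_pos htau] at h1
    have h3 : ‖x - x0‖ ^ 2 ≤ m * tau := by
      rw [← hRsq]; exact pow_le_pow_left₀ (norm_nonneg _) hxR 2
    have h4 : al' * tau ≤ c' * ‖x - x0‖ ^ 2 := by rw [hal', hc']; linarith
    have h5 : c' * ‖x - x0‖ ^ 2 ≤ c' * (m * tau) := mul_le_mul_of_nonneg_left h3 hc'pos.le
    have h6 : c' * m < al' := by rw [lt_div_iff₀ hc'pos] at hm2; linarith
    nlinarith
  have hCb : 2 * (1 + F0 * R) < C0 := by rw [hC0]; nlinarith [mul_nonneg hF0 (sub_nonneg.2 hR1)]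
  have h7 := hole hS hf hRpos hCb (x0 := x0) (t1 := t0 - tau) (by linarith) hempty t0
    (by linarith) (by rw [hRsq]; nlinarith) x0 (by rw [hRsq]; simp; nlinarith)
  exact h7 hx

/-- Corollary Z': every lower jet, `p = 0` allowed. -/
theorem low_bound {f : V → ℝ} {T F0 : ℝ} {S : Set (V × ℝ)} (hS : Subflow f T S)
    (hf : ∀ x, |f x| ≤ F0) {x0 : V} {t0 : ℝ} (hx : (x0, t0) ∈ S) (ht : 0 < t0) {al mu : ℝ}
    {p : V} {X : V →L[ℝ] V →L[ℝ] ℝ} (hj : LowJet S x0 t0 al p X) (hmu : 0 < mu)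
    (hX : ∀ h : V, X h h ≤ mu * ‖h‖ ^ 2) : al ≤ 4 * (1 + F0) * mu + F0 * ‖p‖ := by
  have hF0 : 0 ≤ F0 := le_trans (abs_nonneg _) (hf x0)
  by_cases hp : p = 0
  · subst hp
    have h1 := low_zero hS hf hx ht (al := al) (c := mu / 2) (by positivity) (by
      intro eps heps
      obtain ⟨r, hr, hr2⟩ := hj eps heps
      refine ⟨r, hr, fun x t h2 h3 h4 h5 => ?_⟩
      have h6 := hr2 x t h2 h3 h4 h5
      have h7 := hX (x - x0)
      rw [inner_zero_left] at h6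
      nlinarith)
    rw [norm_zero, mul_zero, add_zero]
    nlinarith [mul_pos (show (0:ℝ) < 4 * (1 + F0) by positivity) hmu]
  · obtain ⟨xi, hxi1, hxi2⟩ := exists_perp hp
    have h1 := hS.low hx ht hj hp hxi1 hxi2
    have h2 := hX xi
    rw [hxi1] at h2
    have h3 : f x0 * ‖p‖ ≤ F0 * ‖p‖ :=
      mul_le_mul_of_nonneg_right (le_trans (le_abs_self _) (hf x0)) (norm_nonneg _)
    nlinarith [mul_nonneg hF0 hmu.le]

end Pool.Agent.VSC
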