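import Pool.Agent.VSC.LSub

/-!
# Geometric invariance: composition of viscosity subsolutions with increasing functions
-/

open scoped RealInnerProductSpace Topology
open Set Filter

noncomputable section

namespace Pool.Agent.VSC

theorem ViscSub.comp {f : V → ℝ} {u : V × ℝ → ℝ} (h : ViscSub f u) {θ τ : ℝ → ℝ} {I : Set ℝ} (hI : IsOpen I)
    (hθI : ∀ s, θ s ∈ I) (hτθ : ∀ s, τ (θ s) = s) (hmono : MonotoneOn τ I) (hτC : ∀ y ∈ I, ContDiffAt ℝ 2 τ y)
    (hτ' : ∀ y ∈ I, 0 < deriv τ y) : ViscSub f (fun z => θ (u z)) := by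
  intro φ z hφ hz hmax
  set c : ℝ := θ (u z) with hc
  have hcI : c ∈ I := hθI _
  set φ₁ : V × ℝ → ℝ := fun w => φ w - φ z + c with hφ₁
  have hφ₁z : φ₁ z = c := by simp [hφ₁]
  have hφ₁C : ContDiffAt ℝ 2 φ₁ z := (hφ.sub contDiffAt_const).add contDiffAt_const
  have hφ₁I : ∀ᶠ w in 𝓝 z, φ₁ w ∈ I := hφ₁C.continuousAt.eventually (by rw [hφ₁z]; exact hI.mem_nhds hcI)
  set ψ : V × ℝ → ℝ := fun w => τ (φ₁ w) with hψ
  have hψC : ContDiffAt ℝ 2 ψ z := ContDiffAt.comp z (by rw [hφ₁z]; exact hτC c hcI) hφ₁C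
  have hmax' : IsLocalMax (fun w => u w - ψ w) z := by
    filter_upwards [hmax, hφ₁I] with w h1 h2
    have h3 : θ (u w) ≤ φ₁ w := by
      simp only [hφ₁]
      linarith
    have h4 := hmono (hθI (u w)) h2 h3
    rw [hτθ] at h4
    have h5 : ψ z = u z := by
      simp only [hψ, hφ₁z, hc, hτθ]
    rw [h5, sub_self]
    linarith
  have hsub := h ψ z hψC hz hmax'
  set d₁ : ℝ := deriv τ c with hd₁
  set d₂ : ℝ := deriv (deriv τ) c with hd₂
  have hd₁0 : 0 < d₁ := hτ' c hcI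
  have hfφ₁ : fderiv ℝ φ₁ = fderiv ℝ φ := by
    funext w
    simp only [hφ₁]
    rw [fderiv_add_const, fderiv_sub_const]
  have hdiff : ∀ᶠ w in 𝓝 z, DifferentiableAt ℝ φ₁ w := by
    filter_upwards [hφ₁C.eventually (by simp)] with w hw using hw.differentiableAt (by norm_num)
  have hfψ : ∀ᶠ w in 𝓝 z, fderiv ℝ ψ w = deriv τ (φ₁ w) • fderiv ℝ φ w := by
    filter_upwards [hdiff, hφ₁I] with w h1 h2
    have h3 : HasDerivAt τ (deriv τ (φ₁ w)) (φ₁ w) := ((hτC _ h2).differentiableAt (by norm_num)).hasDerivAt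
    have h4 := h3.comp_hasFDerivAt w h1.hasFDerivAt
    rw [hfφ₁] at h4
    exact h4.fderiv
  have hf1 : fderiv ℝ ψ z = d₁ • fderiv ℝ φ z := by
    have := hfψ.self_of_nhds
    rw [hφ₁z] at this
    exact this
  have hf2 : fderiv ℝ (fderiv ℝ ψ) z = d₁ • fderiv ℝ (fderiv ℝ φ) z + (d₂ • fderiv ℝ φ z).smulRight (fderiv ℝ φ z) := by
    have h1 : fderiv ℝ (fderiv ℝ ψ) z = fderiv ℝ (fun w => deriv τ (φ₁ w) • fderiv ℝ φ w) z :=
      Filter.EventuallyEq.fderiv_eq hfψ
    rw [h1]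
    have h2 : HasFDerivAt (fderiv ℝ φ) (fderiv ℝ (fderiv ℝ φ) z) z :=
      ((hφ.fderiv_right (m := 1) (by norm_num)).differentiableAt (by norm_num)).hasFDerivAt
    have h3 : HasDerivAt (deriv τ) d₂ (φ₁ z) := by
      rw [hφ₁z]
      have h4 : ContDiffAt ℝ 1 (deriv τ) c := by
        have h5 : ContDiffAt ℝ 1 (fderiv ℝ τ) c := (hτC c hcI).fderiv_right (by norm_num)
        have h6 : deriv τ = fun y => fderiv ℝ τ y 1 := by
          funext y
          exact fderiv_apply_one_eq_deriv.symm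
        rw [h6]
        exact h5.clm_apply contDiffAt_const
      exact (h4.differentiableAt (by norm_num)).hasDerivAt
    have h4 : HasFDerivAt (fun w => deriv τ (φ₁ w)) (d₂ • fderiv ℝ φ₁ z) z :=
      h3.comp_hasFDerivAt z hdiff.self_of_nhds.hasFDerivAt
    have h5 := h4.smul h2
    rw [hφ₁z, hfφ₁] at h5
    exact h5.fderiv
  have e1 : dt ψ z = d₁ * dt φ z := by
    rw [dt, hf1]
    rfl
  have e2 : dx ψ z = d₁ • dx φ z := by
    refine ext_inner_right ℝ fun v => ?_
    rw [inner_dx, hf1, real_inner_smul_left, inner_dx]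
    rfl
  have e3 : ∀ v w, dxx ψ z v w = d₁ * dxx φ z v w + d₂ * ⟪dx φ z, v⟫ * ⟪dx φ z, w⟫ := by
    intro v w
    rw [dxx_apply, hf2, inner_dx, inner_dx, dxx_apply]
    rfl
  rcases hsub with ⟨hp, hle⟩ | ⟨hp, η, hη, hle⟩
  · -- nonzero gradient
    have hp' : dx φ z ≠ 0 := by
      intro h0
      rw [e2, h0, smul_zero] at hp
      exact hp rfl
    refine Or.inl ⟨hp', ?_⟩
    rw [tr2_sub_div hp] at hle
    rw [tr2_sub_div hp']
    rw [e1, e3, e2, J_smul, inner_smul_right, real_inner_comm, inner_J] at hle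
    have hn : ‖d₁ • dx φ z‖ = d₁ * ‖dx φ z‖ := by rw [norm_smul, Real.norm_eq_abs, abs_of_pos hd₁0]
    rw [hn] at hle
    simp only [map_smul, ContinuousLinearMap.smul_apply, smul_eq_mul, mul_zero, zero_mul, add_zero] at hle
    have hn0 : ‖dx φ z‖ ≠ 0 := norm_ne_zero_iff.2 hp'
    have h1 : d₁ * (d₁ * (d₁ * dxx φ z (J (dx φ z)) (J (dx φ z)))) / (d₁ * ‖dx φ z‖) ^ 2 =
        d₁ * (dxx φ z (J (dx φ z)) (J (dx φ z)) / ‖dx φ z‖ ^ 2) := by
      field_simp
    have h2 : d₁ * dt φ z ≤ d₁ * (dxx φ z (J (dx φ z)) (J (dx φ z)) / ‖dx φ z‖ ^ 2 + f z.1 * ‖dx φ z‖) := by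
      calc d₁ * dt φ z ≤ _ := hle
        _ = d₁ * (d₁ * (d₁ * dxx φ z (J (dx φ z)) (J (dx φ z)))) / (d₁ * ‖dx φ z‖) ^ 2 +
            f z.1 * (d₁ * ‖dx φ z‖) := by ring
        _ = _ := by rw [h1]; ring
    exact le_of_mul_le_mul_left h2 hd₁0
  · have hp' : dx φ z = 0 := by
      rw [e2] at hp
      exact (smul_eq_zero.1 hp).resolve_left hd₁0.ne'
    refine Or.inr ⟨hp', η, hη, ?_⟩
    have h1 : ∀ v w, dxx ψ z v w = d₁ * dxx φ z v w := by
      intro v w
      rw [e3, hp', inner_zero_left, mul_zero, zero_mul, add_zero]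
    have h2 : tr2 (dxx ψ z) = d₁ * tr2 (dxx φ z) := by
      simp only [tr2, h1]
      ring
    rw [e1, h1, h2] at hle
    have h3 : d₁ * dt φ z ≤ d₁ * (tr2 (dxx φ z) - dxx φ z η η) := by linarith
    exact le_of_mul_le_mul_left h3 hd₁0

/-- The inverse of the sigmoid function. -/
def logit (y : ℝ) : ℝ := Real.log y - Real.log (1 - y)

theorem logit_sigmoid (x : ℝ) : logit (Real.sigmoid x) = x := by
  have h1 := Real.sigmoid_pos x
  have h2 := Real.sigmoid_mul_rexp_neg x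
  rw [Real.sigmoid_neg] at h2
  rw [logit, ← h2, Real.log_mul h1.ne' (Real.exp_pos _).ne', Real.log_exp]
  ring

theorem logit_deriv {y : ℝ} (hy : y ∈ Ioo (0 : ℝ) 1) : HasDerivAt logit (y⁻¹ + (1 - y)⁻¹) y := by
  have h1 : 1 - y ≠ 0 := by linarith [hy.2]
  have h2 : HasDerivAt (fun y : ℝ => Real.log (1 - y)) (-1 / (1 - y)) y := by
    have := ((hasDerivAt_id y).const_sub 1).log h1
    simpa using this
  have h3 := (Real.hasDerivAt_log hy.1.ne').sub h2
  refine h3.congr_deriv ?_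
  rw [neg_div, one_div]
  ring

/-- The family of increasing functions used to approximate indicators. -/
def sg (a k m s : ℝ) : ℝ := Real.sigmoid (k * (s - a) + m)

theorem viscSub_sg {f : V → ℝ} {u : V × ℝ → ℝ} (h : ViscSub f u) (a m : ℝ) {k : ℝ} (hk : 0 < k) :
    ViscSub f (fun z => sg a k m (u z)) := by
  refine h.comp (θ := sg a k m) (τ := fun y => a + (logit y - m) / k) (I := Ioo 0 1) isOpen_Ioo
    (fun s => ⟨Real.sigmoid_pos _, Real.sigmoid_lt_one _⟩) (fun s => ?_) ?_ ?_ ?_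
  · simp only [sg, logit_sigmoid]
    field_simp
    ring
  · intro y hy y' hy' hyy
    have h1 : Real.log y ≤ Real.log y' := Real.log_le_log hy.1 hyy
    have h2 : Real.log (1 - y') ≤ Real.log (1 - y) := Real.log_le_log (by linarith [hy'.2]) (by linarith)
    have h3 : logit y ≤ logit y' := by
      unfold logit
      linarith
    have h4 : (logit y - m) / k ≤ (logit y' - m) / k := div_le_div_of_nonneg_right (by linarith) hk.le
    simp only
    linarith
  · intro y hy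
    have h1 : ContDiffAt ℝ 2 Real.log y := Real.contDiffAt_log.2 hy.1.ne'
    have h2 : ContDiffAt ℝ 2 (fun y : ℝ => Real.log (1 - y)) y :=
      (contDiffAt_const.sub contDiffAt_id).log (by
        simp only [id]
        linarith [hy.2])
    exact contDiffAt_const.add (((h1.sub h2).sub contDiffAt_const).div_const k)
  · intro y hy
    have h1 := ((logit_deriv hy).sub_const m).div_const k
    have h2 := h1.const_add a
    rw [h2.deriv]
    have h3 : 0 < 1 - y := by linarith [hy.2]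
    have h4 : 0 < y := hy.1
    positivity

end Pool.Agent.VSC
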