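import Pool.Agent.VSC.LOne

/-!
# Upper semicontinuous envelopes
-/

open scoped RealInnerProductSpace Topology
open Set Filter

noncomputable section

namespace Pool.Agent.VSC

/-- Closed upper half of space time. -/
def DD : Set (V × ℝ) := {z : V × ℝ | 0 ≤ z.2}

theorem DD_closed : IsClosed DD := isClosed_le continuous_const continuous_snd

theorem DD_nhds {z : V × ℝ} (h : 0 < z.2) : DD ∈ 𝓝 z := by
  filter_upwards [(continuous_snd.tendsto z).eventually (lt_mem_nhds h)] with w hw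
  exact le_of_lt hw

/-- The upper semicontinuous envelope. -/
def ue (v : V × ℝ → ℝ) (z : V × ℝ) : ℝ := sInf {c | ∀ᶠ w in 𝓝[DD] z, v w ≤ c}

section

variable {v wm wp : V × ℝ → ℝ} (hm : Continuous wm) (hp : Continuous wp) (h : ∀ z ∈ DD, wm z ≤ v z ∧ v z ≤ wp z)
include hm hp h

theorem ue_set_bdd {z : V × ℝ} (hz : z ∈ DD) : wm z ∈ lowerBounds {c | ∀ᶠ w in 𝓝[DD] z, v w ≤ c} := by
  intro c hc
  have h1 : v z ≤ c := hc.self_of_nhdsWithin hz
  exact (h z hz).1.trans h1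

theorem ue_set_mem (z : V × ℝ) {c : ℝ} (hc : wp z < c) : c ∈ {c | ∀ᶠ w in 𝓝[DD] z, v w ≤ c} := by
  have h1 : ∀ᶠ w in 𝓝[DD] z, wp w < c := ((hp.tendsto z).mono_left nhdsWithin_le_nhds).eventually (gt_mem_nhds hc)
  filter_upwards [h1, self_mem_nhdsWithin] with w h2 h3
  exact (h w h3).2.trans h2.le

theorem le_ue {z : V × ℝ} (hz : z ∈ DD) : v z ≤ ue v z :=
  le_csInf ⟨_, ue_set_mem hm hp h z (lt_add_one _)⟩ fun c hc => hc.self_of_nhdsWithin hz

theorem ue_le {z : V × ℝ} (hz : z ∈ DD) : ue v z ≤ wp z := by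
  refine le_of_forall_gt_imp_ge_of_dense fun c hc => ?_
  exact csInf_le ⟨_, ue_set_bdd hm hp h hz⟩ (ue_set_mem hm hp h z hc)

theorem ue_ge {z : V × ℝ} (hz : z ∈ DD) : wm z ≤ ue v z := (h z hz).1.trans (le_ue hm hp h hz)

theorem ue_ev {z : V × ℝ} {c : ℝ} (hc : ue v z < c) : ∀ᶠ w in 𝓝[DD] z, v w ≤ c := by
  obtain ⟨c', hc', hlt⟩ := exists_lt_of_csInf_lt ⟨_, ue_set_mem hm hp h z (lt_add_one _)⟩ hc
  filter_upwards [hc'] with w hw using hw.trans hlt.le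

theorem ue_freq {z : V × ℝ} (hz : z ∈ DD) {c : ℝ} (hc : c < ue v z) : ∃ᶠ w in 𝓝[DD] z, c < v w := by
  intro hcon
  have h1 : c ∈ {c | ∀ᶠ w in 𝓝[DD] z, v w ≤ c} := by
    filter_upwards [hcon] with w hw using not_lt.1 hw
  exact absurd (csInf_le ⟨_, ue_set_bdd hm hp h hz⟩ h1) (not_le.2 hc)

theorem ue_usc : UpperSemicontinuousOn (ue v) DD := by
  intro z hz c hc
  obtain ⟨c', h1, h2⟩ := exists_between hc
  have h3 := ue_ev hm hp h h1
  have h4 : ∀ᶠ w in 𝓝[DD] z, ∀ᶠ w' in 𝓝[DD] w, v w' ≤ c' := eventually_eventually_nhdsWithin.2 h3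
  filter_upwards [h4, self_mem_nhdsWithin] with w h5 h6
  exact (csInf_le ⟨_, ue_set_bdd hm hp h h6⟩ h5).trans_lt h2

end

/-- Failure of the subsolution inequality gives the reversed inequality. -/
theorem not_LSub {g a : ℝ} {p : V} {X : V →L[ℝ] V →L[ℝ] ℝ} (h : ¬ LSub (-g) a p X) : LSub g (-a) (-p) (-X) := by
  have htr : tr2 (-X) = -tr2 X := by
    show -(X _ _) + -(X _ _) = _
    rw [tr2]; ring
  by_cases hp : p = 0
  · refine Or.inr ⟨by rw [hp, neg_zero], 0, by simp, ?_⟩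
    have h1 : ¬ a ≤ tr2 X - X 0 0 := fun h2 => h (Or.inr ⟨hp, 0, by simp, h2⟩)
    push Not at h1
    have h2 : X 0 0 = 0 := by simp
    have h3 : (-X) 0 0 = 0 := by simp
    rw [h2] at h1
    rw [htr, h3]
    linarith
  · refine Or.inl ⟨neg_ne_zero.2 hp, ?_⟩
    have h1 : ¬ a ≤ tr2 X - X p p / ‖p‖ ^ 2 + -g * ‖p‖ := fun h2 => h (Or.inl ⟨hp, h2⟩)
    push Not at h1
    have h2 : (-X) (-p) (-p) = -(X p p) := by
      show -(X (-p) (-p)) = -(X p p)
      simp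
    rw [htr, h2, norm_neg, neg_div]
    linarith

/-- Quadratic functions are viscosity subsolutions if they are classical ones. -/
theorem viscSub_of_PT {f : V → ℝ} {u : V × ℝ → ℝ} {a : V × ℝ → ℝ} {p : V × ℝ → V} {X : V × ℝ → V →L[ℝ] V →L[ℝ] ℝ}
    (h : ∀ z : V × ℝ, 0 < z.2 → PT u z (a z) (p z) (X z)) (h' : ∀ z : V × ℝ, 0 < z.2 → LSub (f z.1) (a z) (p z) (X z)) :
    ViscSub f u := by
  intro φ z hφ hz hmax
  obtain ⟨h1, h2, h3⟩ := PT_le (h z hz) (PT_of_contDiffAt hφ) hmax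
  rw [← h1, ← h2]
  exact (h' z hz).mono le_rfl h3

end Pool.Agent.VSC
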