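import Pool.Agent.VSC.LComp

/-!
# The indicator of a superlevel set of a viscosity subsolution is a viscosity subsolution
-/

open scoped RealInnerProductSpace Topology
open Set Filter

noncomputable section

namespace Pool.Agent.VSC

/-- The indicator of the superlevel set. -/
def ind (u : V × ℝ → ℝ) (a : ℝ) (z : V × ℝ) : ℝ := if a ≤ u z then 1 else 0

theorem ind_of_le {u : V × ℝ → ℝ} {a : ℝ} {z : V × ℝ} (h : a ≤ u z) : ind u a z = 1 := if_pos h

theorem ind_of_lt {u : V × ℝ → ℝ} {a : ℝ} {z : V × ℝ} (h : u z < a) : ind u a z = 0 := if_neg (not_le.2 h)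

theorem ind_nonneg (u : V × ℝ → ℝ) (a : ℝ) (z : V × ℝ) : 0 ≤ ind u a z := by
  unfold ind
  split_ifs <;> norm_num

theorem ind_le_one (u : V × ℝ → ℝ) (a : ℝ) (z : V × ℝ) : ind u a z ≤ 1 := by
  unfold ind
  split_ifs <;> norm_num

theorem ind_usc {u : V × ℝ → ℝ} {K : Set (V × ℝ)} (hu : UpperSemicontinuousOn u K) (a : ℝ) :
    UpperSemicontinuousOn (ind u a) K := by
  intro z hz y hy
  by_cases h : a ≤ u z
  · rw [ind_of_le h] at hy
    filter_upwards with w
    exact (ind_le_one u a w).trans_lt hy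
  · push Not at h
    rw [ind_of_lt h] at hy
    filter_upwards [hu z hz a h] with w hw
    rw [ind_of_lt hw]
    exact hy

theorem sg_continuous (a k m : ℝ) : Continuous (sg a k m) := by
  unfold sg
  exact continuous_sigmoid.comp (by fun_prop)

theorem sg_monotone (a m : ℝ) {k : ℝ} (hk : 0 < k) : Monotone (sg a k m) := by
  intro s s' hss
  refine Real.sigmoid_monotone ?_
  nlinarith

theorem viscSub_ind {f : V → ℝ} (hf : Continuous f) {u : V × ℝ → ℝ} (h : ViscSub f u)
    (hu : UpperSemicontinuousOn u {z : V × ℝ | 0 ≤ z.2}) (a : ℝ) : ViscSub f (ind u a) := by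
  intro φ z₀ hφ ht hmax
  have hr : 0 < z₀.2 / 2 := by linarith
  refine stab hf ht hφ hmax hr ?_
  have hsub : Metric.closedBall z₀ (z₀.2 / 2) ⊆ {z : V × ℝ | 0 ≤ z.2} := by
    intro z hz
    rw [Metric.mem_closedBall, dist_eq_norm] at hz
    have h1 : |z.2 - z₀.2| ≤ z₀.2 / 2 := by
      rw [← Real.norm_eq_abs]
      exact (norm_snd_le (z - z₀)).trans hz
    have := (abs_le.1 h1).1
    show 0 ≤ z.2
    linarith
  have huB := hu.mono hsub
  intro ε hε
  -- the parameter m
  obtain ⟨m, hm⟩ : ∃ m : ℝ, 1 - ε < Real.sigmoid m :=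
    (Real.tendsto_sigmoid_atTop.eventually (lt_mem_nhds (by linarith))).exists
  have hk : ∃ k : ℝ, 0 < k ∧ ∀ z ∈ Metric.closedBall z₀ (z₀.2 / 2), ∃ z', dist z' z < ε ∧
      sg a k m (u z) ≤ ind u a z' + ε := by
    by_contra hcon
    push Not at hcon
    have h1 := fun n : ℕ => hcon ((n : ℝ) + 1) (by positivity)
    choose y hyB hy using h1
    obtain ⟨z, hzB, s, hs, hlim⟩ := (isCompact_closedBall z₀ (z₀.2 / 2)).tendsto_subseq hyB
    -- `z` is outside the superlevel set
    have hz : u z < a := by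
      have h2 : ∀ᶠ n in atTop, dist z (y (s n)) < ε := by
        filter_upwards [Metric.tendsto_atTop.1 hlim ε hε |>.choose_spec |> fun h => eventually_atTop.2 ⟨_, h⟩]
          with n hn
        rw [dist_comm]
        exact hn
      obtain ⟨n, hn⟩ := h2.exists
      have h3 := hy (s n) z hn
      by_contra h4
      push Not at h4
      rw [ind_of_le h4] at h3
      have h5 : sg a ((s n : ℝ) + 1) m (u (y (s n))) < 1 := Real.sigmoid_lt_one _
      linarith
    set b := (u z + a) / 2 with hb
    have hb1 : u z < b := by rw [hb]; linarith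
    have hb2 : b < a := by rw [hb]; linarith
    have h2 : ∀ᶠ n in atTop, u (y (s n)) < b := by
      have h3 := huB z hzB b hb1
      have h4 : Tendsto (fun n => y (s n)) atTop (𝓝[Metric.closedBall z₀ (z₀.2 / 2)] z) :=
        tendsto_nhdsWithin_iff.2 ⟨hlim, Eventually.of_forall fun n => hyB _⟩
      exact h4.eventually h3
    have h3 : Tendsto (fun n : ℕ => sg a ((s n : ℝ) + 1) m b) atTop (𝓝 0) := by
      have h4 : Tendsto (fun n : ℕ => ((s n : ℝ) + 1) * (b - a) + m) atTop atBot := by
        have h5 : Tendsto (fun n : ℕ => ((s n : ℝ) + 1)) atTop atTop :=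
          tendsto_atTop_add_const_right _ _ (tendsto_natCast_atTop_atTop.comp hs.tendsto_atTop)
        exact tendsto_atBot_add_const_right _ _ (h5.atTop_mul_const_of_neg (by linarith))
      exact Real.tendsto_sigmoid_atBot.comp h4
    obtain ⟨n, h5, h6⟩ := (h2.and (h3.eventually (gt_mem_nhds hε))).exists
    have h7 : sg a ((s n : ℝ) + 1) m (u (y (s n))) ≤ sg a ((s n : ℝ) + 1) m b :=
      sg_monotone a m (by positivity) h5.le
    have h8 := hy (s n) (y (s n)) (by rw [dist_self]; exact hε)
    have h9 := ind_nonneg u a (y (s n))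
    linarith
  obtain ⟨k, hk0, hk1⟩ := hk
  refine ⟨fun z => sg a k m (u z), viscSub_sg h a m hk0, ?_, ⟨z₀, by rw [dist_self]; exact hε, ?_⟩, hk1⟩
  · exact (sg_continuous a k m).comp_upperSemicontinuousOn huB (sg_monotone a m hk0)
  · by_cases h1 : a ≤ u z₀
    · rw [ind_of_le h1]
      have h2 : Real.sigmoid m ≤ sg a k m (u z₀) := by
        refine Real.sigmoid_monotone ?_
        nlinarith
      linarith
    · push Not at h1
      rw [ind_of_lt h1]
      have : 0 < sg a k m (u z₀) := Real.sigmoid_pos _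
      linarith

end Pool.Agent.VSC
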