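import Pool.Agent.VSC.LInd

/-!
# Left accessibility and one-sided jets of superlevel sets
-/

open scoped RealInnerProductSpace Topology
open Set Filter

noncomputable section

namespace Pool.Agent.VSC

/-- Quadratic polynomials. -/
def qp (x₀ : V) (t₀ M : ℝ) (p : V) (X : V →L[ℝ] V →L[ℝ] ℝ) (z : V × ℝ) : ℝ :=
  M * (z.2 - t₀) + ⟪p, z.1 - x₀⟫ + 1 / 2 * X (z.1 - x₀) (z.1 - x₀)

theorem qp_contDiff (x₀ : V) (t₀ M : ℝ) (p : V) (X : V →L[ℝ] V →L[ℝ] ℝ) : ContDiff ℝ 2 (qp x₀ t₀ M p X) := by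
  unfold qp
  have h1 : ContDiff ℝ 2 fun z : V × ℝ => z.1 - x₀ := contDiff_fst.sub contDiff_const
  have h2 : ContDiff ℝ 2 fun z : V × ℝ => X (z.1 - x₀) (z.1 - x₀) := (X.contDiff.comp h1).clm_apply h1
  exact ((contDiff_const.mul (contDiff_snd.sub contDiff_const)).add (contDiff_const.inner ℝ h1)).add
    (contDiff_const.mul h2)

/-- The gradient of the quadratic polynomial. -/
def qg (x₀ : V) (p : V) (X : V →L[ℝ] V →L[ℝ] ℝ) (x : V) : V :=
  p + (InnerProductSpace.toDual ℝ V).symm (X (x - x₀))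

theorem inner_qg (x₀ : V) (p : V) (X : V →L[ℝ] V →L[ℝ] ℝ) (x v : V) : ⟪qg x₀ p X x, v⟫ = ⟪p, v⟫ + X (x - x₀) v := by
  rw [qg, inner_add_left, InnerProductSpace.toDual_symm_apply]

theorem qg_self (x₀ : V) (p : V) (X : V →L[ℝ] V →L[ℝ] ℝ) : qg x₀ p X x₀ = p := by
  rw [qg, sub_self, map_zero, map_zero, add_zero]

theorem qg_continuous (x₀ : V) (p : V) (X : V →L[ℝ] V →L[ℝ] ℝ) : Continuous (qg x₀ p X) := by
  unfold qg
  fun_prop

theorem PT_qp (x₀ : V) (t₀ M : ℝ) (p : V) {X : V →L[ℝ] V →L[ℝ] ℝ} (hX : ∀ v w, X v w = X w v) (y : V × ℝ) :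
    PT (qp x₀ t₀ M p X) y M (qg x₀ p X y.1) X := by
  refine ⟨hX, fun ε hε => Eventually.of_forall fun h => ?_⟩
  have e : qp x₀ t₀ M p X (y + h) - qp x₀ t₀ M p X y - (M * h.2 + ⟪qg x₀ p X y.1, h.1⟫ + 1 / 2 * X h.1 h.1) = 0 := by
    have h1 : (y + h).1 - x₀ = (y.1 - x₀) + h.1 := by rw [Prod.fst_add]; abel
    rw [inner_qg, qp, qp, h1, Prod.snd_add]
    simp only [map_add, ContinuousLinearMap.add_apply, inner_add_right]
    rw [hX h.1 (y.1 - x₀)]
    ring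
  rw [e, abs_zero]
  positivity

theorem PT_time {g : ℝ → ℝ} {g' : ℝ} {y : V × ℝ} (hg : HasDerivAt g g' y.2) :
    PT (fun z => g z.2) y g' 0 0 := by
  refine ⟨fun v w => rfl, fun ε hε => ?_⟩
  have h1 := (hasDerivAt_iff_isLittleO_nhds_zero.1 hg).def hε
  have h2 : Tendsto (fun h : V × ℝ => h.2) (𝓝 0) (𝓝 0) := continuous_snd.tendsto 0
  filter_upwards [h2.eventually h1] with h h3
  have e : g (y + h).2 - g y.2 - (g' * h.2 + ⟪(0 : V), h.1⟫ + 1 / 2 * (0 : V →L[ℝ] V →L[ℝ] ℝ) h.1 h.1) =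
      g (y.2 + h.2) - g y.2 - h.2 • g' := by
    rw [inner_zero_left, Prod.snd_add, smul_eq_mul]
    simp
    ring
  rw [e, ← Real.norm_eq_abs]
  refine h3.trans ?_
  rw [Real.norm_eq_abs]
  have : 0 ≤ ε * ‖h.1‖ ^ 2 := by positivity
  linarith

theorem PT.add {φ ψ : V × ℝ → ℝ} {z : V × ℝ} {a a' : ℝ} {p p' : V} {X X' : V →L[ℝ] V →L[ℝ] ℝ} (h : PT φ z a p X)
    (h' : PT ψ z a' p' X') : PT (fun w => φ w + ψ w) z (a + a') (p + p') (X + X') := by
  refine ⟨fun v w => ?_, fun ε hε => ?_⟩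
  · simp only [ContinuousLinearMap.add_apply]
    rw [h.1, h'.1]
  · filter_upwards [h.2 (ε / 2) (by positivity), h'.2 (ε / 2) (by positivity)] with k h1 h2
    have e : φ (z + k) + ψ (z + k) - (φ z + ψ z) - ((a + a') * k.2 + ⟪p + p', k.1⟫ + 1 / 2 * (X + X') k.1 k.1) =
        (φ (z + k) - φ z - (a * k.2 + ⟪p, k.1⟫ + 1 / 2 * X k.1 k.1)) +
        (ψ (z + k) - ψ z - (a' * k.2 + ⟪p', k.1⟫ + 1 / 2 * X' k.1 k.1)) := by
      rw [inner_add_left]
      simp only [ContinuousLinearMap.add_apply]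
      ring
    rw [e]
    refine (abs_add_le _ _).trans ?_
    linarith

/-- The metric as a bilinear form. -/
def gm : V →L[ℝ] V →L[ℝ] ℝ := innerSL ℝ

theorem gm_apply (v w : V) : gm v w = ⟪v, w⟫ := rfl

theorem tr2_gm : tr2 gm = 2 := by
  rw [tr2, gm_apply, gm_apply, real_inner_self_eq_norm_sq, real_inner_self_eq_norm_sq]
  simp
  norm_num

/-- Left accessibility of superlevel sets. -/
theorem left_access {f : V → ℝ} {F₀ : ℝ} (hF : ∀ x, |f x| ≤ F₀) {u : V × ℝ → ℝ} {a : ℝ} (hU : ViscSub f (ind u a))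
    (hu : UpperSemicontinuousOn u {z : V × ℝ | 0 ≤ z.2}) {z₀ : V × ℝ} (h0 : a ≤ u z₀) (ht : 0 < z₀.2) {r : ℝ}
    (hr : 0 < r) : ∃ z : V × ℝ, 0 ≤ z.2 ∧ a ≤ u z ∧ ‖z.1 - z₀.1‖ < r ∧ z₀.2 - r < z.2 ∧ z.2 < z₀.2 := by
  by_contra hcon
  push Not at hcon
  have hF0 : 0 ≤ F₀ := (abs_nonneg _).trans (hF 0)
  set s : ℝ := min (r / 2) (z₀.2 / 2) with hs
  have hs0 : 0 < s := lt_min (by linarith) (by linarith)
  have hs1 : s ≤ r / 2 := min_le_left _ _
  have hs2 : s ≤ z₀.2 / 2 := min_le_right _ _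
  set A : ℝ := 2 / s ^ 2 with hA
  have hA0 : 0 < A := by positivity
  have hAs : A * s ^ 2 = 2 := by rw [hA]; field_simp
  set M : ℝ := 4 * A + 2 * A * F₀ * s + 1 + 1 / s with hM
  have hM0 : 0 < M := by positivity
  have hMs : 1 / M ≤ s := by
    rw [div_le_iff₀ hM0]
    have h1 : s * M = s * (4 * A + 2 * A * F₀ * s + 1) + 1 := by
      rw [hM, mul_add]
      rw [mul_one_div_cancel hs0.ne']
    rw [h1]
    have : 0 ≤ s * (4 * A + 2 * A * F₀ * s + 1) := by positivity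
    linarith
  set ω : ℝ := 1 / (2 * M) with hω
  have hω0 : 0 < ω := by positivity
  have hωs : ω ≤ s / 2 := by
    have : ω = 1 / M / 2 := by rw [hω]; field_simp
    rw [this]; linarith
  have hMω : M * ω = 1 / 2 := by rw [hω]; field_simp
  have hM1 : M * (1 / M) = 1 := mul_one_div_cancel hM0.ne'
  set X : V →L[ℝ] V →L[ℝ] ℝ := (2 * A) • gm with hX
  have hXa : ∀ v w, X v w = 2 * A * ⟪v, w⟫ := fun v w => rfl
  have hXs : ∀ v w, X v w = X w v := fun v w => by rw [hXa, hXa, real_inner_comm]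
  set ψ : V × ℝ → ℝ := qp z₀.1 z₀.2 M 0 X with hψ
  have hψa : ∀ z : V × ℝ, ψ z = M * (z.2 - z₀.2) + A * ‖z.1 - z₀.1‖ ^ 2 := by
    intro z
    rw [hψ, qp, inner_zero_left, hXa, real_inner_self_eq_norm_sq]
    ring
  set N : Set (V × ℝ) := Metric.closedBall z₀.1 s ×ˢ Icc (z₀.2 - ω) (z₀.2 + 1 / M) with hN
  have hNc : IsCompact N := (isCompact_closedBall _ _).prod isCompact_Icc
  have hNsub : N ⊆ {z : V × ℝ | 0 ≤ z.2} := by
    intro z hz
    have := hz.2.1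
    show 0 ≤ z.2
    linarith
  have hz₀N : z₀ ∈ N := ⟨Metric.mem_closedBall_self hs0.le, by constructor <;> linarith [show 0 < 1 / M by positivity]⟩
  have husc : UpperSemicontinuousOn (fun z => ind u a z + -ψ z) N :=
    (ind_usc (hu.mono hNsub) a).add
      ((qp_contDiff z₀.1 z₀.2 M 0 X).continuous.neg.continuousOn.upperSemicontinuousOn)
  obtain ⟨y, hyN, hmax⟩ := husc.exists_isMaxOn ⟨z₀, hz₀N⟩ hNc
  have hmax' : ∀ z ∈ N, ind u a z - ψ z ≤ ind u a y - ψ y := by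
    intro z hz
    have := hmax hz
    simp only [mem_setOf_eq] at this
    linarith
  have hy1 : ‖y.1 - z₀.1‖ ≤ s := by
    have := hyN.1
    rwa [Metric.mem_closedBall, dist_eq_norm] at this
  have hval : 1 ≤ ind u a y - ψ y := by
    have h1 := hmax' z₀ hz₀N
    rw [ind_of_le h0, hψa z₀, sub_self, sub_self, norm_zero] at h1
    linarith
  have hle1 := ind_le_one u a y
  have hsq : 0 ≤ A * ‖y.1 - z₀.1‖ ^ 2 := by positivity
  rw [hψa] at hval
  have hyt : z₀.2 ≤ y.2 := by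
    by_contra hlt
    push Not at hlt
    have h1 : u y < a := by
      by_contra hge
      push Not at hge
      have := hcon y (hNsub hyN) hge (by linarith) (by linarith [hyN.2.1])
      linarith
    rw [ind_of_lt h1] at hval
    have h2 : M * (z₀.2 - y.2) ≤ M * ω := mul_le_mul_of_nonneg_left (by linarith [hyN.2.1]) hM0.le
    linarith
  have hyt2 : y.2 < z₀.2 + 1 / M := by
    refine lt_of_le_of_ne hyN.2.2 fun heq => ?_
    rw [heq] at hval
    have : M * (z₀.2 + 1 / M - z₀.2) = 1 := by rw [add_sub_cancel_left]; exact hM1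
    linarith
  have hys : ‖y.1 - z₀.1‖ < s := by
    refine lt_of_le_of_ne hy1 fun heq => ?_
    rw [heq, hAs] at hval
    have : 0 ≤ M * (y.2 - z₀.2) := mul_nonneg hM0.le (by linarith)
    linarith
  have hlm : IsLocalMax (fun w => ind u a w - ψ w) y := by
    have h1 : Metric.ball z₀.1 s ×ˢ Ioo (z₀.2 - ω) (z₀.2 + 1 / M) ∈ 𝓝 y :=
      (Metric.isOpen_ball.prod isOpen_Ioo).mem_nhds ⟨by rwa [Metric.mem_ball, dist_eq_norm], by linarith, hyt2⟩
    filter_upwards [h1] with w hw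
    exact hmax' w ⟨Metric.ball_subset_closedBall hw.1, Ioo_subset_Icc_self hw.2⟩
  have hψC : ContDiffAt ℝ 2 ψ y := (qp_contDiff z₀.1 z₀.2 M 0 X).contDiffAt
  have hPT := PT_qp z₀.1 z₀.2 M 0 hXs y
  have hsub := hU ψ y hψC (by linarith) hlm
  rw [dt_eq hψC hPT, dx_eq hψC hPT, dxx_eq hψC hPT] at hsub
  obtain ⟨η, -, h1⟩ := hsub.weak
  have h2 : tr2 X = 4 * A := by
    have : tr2 X = 2 * A * tr2 gm := by
      simp only [tr2, hXa, gm_apply]
      ring
    rw [this, tr2_gm]; ring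
  have h3 : 0 ≤ X η η := by
    rw [hXa, real_inner_self_eq_norm_sq]; positivity
  have h4 : ‖qg z₀.1 0 X y.1‖ ≤ 2 * A * s := by
    have h5 : qg z₀.1 0 X y.1 = (2 * A) • (y.1 - z₀.1) := by
      refine ext_inner_right ℝ fun v => ?_
      rw [inner_qg, inner_zero_left, hXa, real_inner_smul_left, zero_add]
    rw [h5, norm_smul, Real.norm_eq_abs, abs_of_pos (by positivity)]
    exact mul_le_mul_of_nonneg_left hy1 (by positivity)
  have h5 : f y.1 * ‖qg z₀.1 0 X y.1‖ ≤ F₀ * (2 * A * s) := by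
    have h6 := (abs_le.1 (hF y.1)).2
    exact mul_le_mul h6 h4 (norm_nonneg _) hF0
  have h6 : 0 < 1 / s := by positivity
  nlinarith

end Pool.Agent.VSC
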