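import Pool.Agent.VSC.LJet

/-!
# One-sided jets of superlevel sets
-/

open scoped RealInnerProductSpace Topology
open Set Filter

noncomputable section

namespace Pool.Agent.VSC

/-- Symmetrization. -/
def symm2 (X : V →L[ℝ] V →L[ℝ] ℝ) : V →L[ℝ] V →L[ℝ] ℝ := (1 / 2 : ℝ) • (X + X.flip)

theorem symm2_apply (X : V →L[ℝ] V →L[ℝ] ℝ) (v w : V) : symm2 X v w = 1 / 2 * (X v w + X w v) := rfl

theorem symm2_self (X : V →L[ℝ] V →L[ℝ] ℝ) (v : V) : symm2 X v v = X v v := by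
  rw [symm2_apply]; ring

theorem symm2_symm (X : V →L[ℝ] V →L[ℝ] ℝ) (v w : V) : symm2 X v w = symm2 X w v := by
  rw [symm2_apply, symm2_apply]; ring

/-- Step one: the touching points. -/
theorem one_sided_aux {f : V → ℝ} {F₀ : ℝ} (hF : ∀ x, |f x| ≤ F₀) {u : V × ℝ → ℝ} {a : ℝ} (hU : ViscSub f (ind u a))
    (hu : UpperSemicontinuousOn u {z : V × ℝ | 0 ≤ z.2}) {z₀ : V × ℝ} (h0 : a ≤ u z₀) (ht : 0 < z₀.2)
    {α : ℝ} {p : V} {X : V →L[ℝ] V →L[ℝ] ℝ} {ε r : ℝ} (hε : 0 < ε) (hr : 0 < r)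
    (hjet : ∀ z : V × ℝ, 0 ≤ z.2 → a ≤ u z → ‖z.1 - z₀.1‖ < r → z₀.2 - r < z.2 → z.2 ≤ z₀.2 →
      α * (z.2 - z₀.2) + ⟪p, z.1 - z₀.1⟫ + 1 / 2 * X (z.1 - z₀.1) (z.1 - z₀.1) ≤
        ε * (|z.2 - z₀.2| + ‖z.1 - z₀.1‖ ^ 2)) {μ₀ : ℝ} (hμ₀ : 0 < μ₀) :
    ∃ y : V × ℝ, |y.2 - z₀.2| + ‖y.1 - z₀.1‖ ^ 2 < μ₀ ∧
      LSub (f y.1) (-α - 2 * ε) (qg z₀.1 (-p) (-(symm2 X) + (4 * ε) • gm) y.1) (-(symm2 X) + (4 * ε) • gm) := by
  set X' : V →L[ℝ] V →L[ℝ] ℝ := -(symm2 X) + (4 * ε) • gm with hX'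
  have hX'a : ∀ v w, X' v w = -(symm2 X v w) + 4 * ε * ⟪v, w⟫ := fun v w => rfl
  have hX's : ∀ v w, X' v w = X' w v := fun v w => by rw [hX'a, hX'a, symm2_symm, real_inner_comm]
  set Q : V × ℝ → ℝ := qp z₀.1 z₀.2 (-α - 2 * ε) (-p) X' with hQ
  have hQa : ∀ z : V × ℝ, Q z = -(α * (z.2 - z₀.2) + ⟪p, z.1 - z₀.1⟫ + 1 / 2 * X (z.1 - z₀.1) (z.1 - z₀.1)) -
      2 * ε * (z.2 - z₀.2) + 2 * ε * ‖z.1 - z₀.1‖ ^ 2 := by
    intro z
    rw [hQ, qp, inner_neg_left, hX'a, symm2_self, real_inner_self_eq_norm_sq]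
    ring
  have hQc : Continuous Q := (qp_contDiff _ _ _ _ _).continuous
  have hQ0 : Q z₀ = 0 := by
    rw [hQa, sub_self, sub_self, inner_zero_right, map_zero, norm_zero]
    simp
  have hQev : ∀ μ > 0, ∃ ρ > 0, ∀ z, dist z z₀ < ρ → |Q z| < μ := by
    intro μ hμ
    have h1 : ∀ᶠ z in 𝓝 z₀, |Q z| < μ := by
      have h2 := hQc.abs.tendsto z₀
      rw [hQ0, abs_zero] at h2
      exact h2.eventually (gt_mem_nhds hμ)
    exact Metric.eventually_nhds_iff.1 h1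
  obtain ⟨ρ₀, hρ₀, hQρ⟩ := hQev (1 / 8) (by norm_num)
  set s : ℝ := min (min (r / 2) (z₀.2 / 2)) (ρ₀ / 2) with hs
  have hs0 : 0 < s := lt_min (lt_min (by linarith) (by linarith)) (by linarith)
  have hs1 : s ≤ r / 2 := (min_le_left _ _).trans (min_le_left _ _)
  have hs2 : s ≤ z₀.2 / 2 := (min_le_left _ _).trans (min_le_right _ _)
  have hs3 : s ≤ ρ₀ / 2 := min_le_right _ _
  set m₀ : ℝ := min μ₀ (min s (s ^ 2)) with hm₀
  have hm₀0 : 0 < m₀ := lt_min hμ₀ (lt_min hs0 (by positivity))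
  have hm1 : m₀ ≤ μ₀ := min_le_left _ _
  have hm2 : m₀ ≤ s := (min_le_right _ _).trans (min_le_left _ _)
  have hm3 : m₀ ≤ s ^ 2 := (min_le_right _ _).trans (min_le_right _ _)
  set μ : ℝ := min (1 / 8) (ε * m₀ / 4) with hμ
  have hμ0 : 0 < μ := lt_min (by norm_num) (by positivity)
  have hμ1 : μ ≤ 1 / 8 := min_le_left _ _
  have hμ2 : μ ≤ ε * m₀ / 4 := min_le_right _ _
  obtain ⟨ρ₁, hρ₁, hQμ⟩ := hQev μ hμ0
  obtain ⟨z₁, hz₁0, hz₁a, hz₁b, hz₁c, hz₁d⟩ := left_access hF hU hu h0 ht (lt_min hρ₁ hs0)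
  have hz₁b' : ‖z₁.1 - z₀.1‖ < ρ₁ := hz₁b.trans_le (min_le_left _ _)
  have hz₁b'' : ‖z₁.1 - z₀.1‖ < s := hz₁b.trans_le (min_le_right _ _)
  have hmn1 : min ρ₁ s ≤ ρ₁ := min_le_left _ _
  have hmn2 : min ρ₁ s ≤ s := min_le_right _ _
  have hz₁d' : dist z₁ z₀ < ρ₁ := by
    rw [dist_eq_norm, Prod.norm_def, Real.norm_eq_abs]
    refine max_lt hz₁b' ?_
    rw [Prod.snd_sub, abs_lt]
    constructor <;> linarith
  have hQz₁ := hQμ z₁ hz₁d'
  set κ : ℝ := μ * (z₀.2 - z₁.2) with hκ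
  have hκ0 : 0 < κ := mul_pos hμ0 (by linarith)
  have hκ1 : κ / (z₀.2 - z₁.2) = μ := by
    rw [hκ, mul_div_assoc, div_self (by linarith), mul_one]
  set ω : ℝ := κ / 2 with hω
  have hω0 : 0 < ω := by positivity
  have hω1 : ω ≤ z₀.2 - z₁.2 := by
    have : κ ≤ 1 * (z₀.2 - z₁.2) := mul_le_mul_of_nonneg_right (by linarith) (by linarith)
    rw [hω]; linarith
  have hωs : ω < s := by linarith
  set Ψ : V × ℝ → ℝ := fun z => Q z + κ / (z₀.2 - z.2) with hΨ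
  set N : Set (V × ℝ) := Metric.closedBall z₀.1 s ×ˢ Icc (z₀.2 - s) (z₀.2 - ω) with hN
  have hNc : IsCompact N := (isCompact_closedBall _ _).prod isCompact_Icc
  have hNsub : N ⊆ {z : V × ℝ | 0 ≤ z.2} := by
    intro z hz
    have := hz.2.1
    show 0 ≤ z.2
    linarith
  have hz₁N : z₁ ∈ N := by
    refine ⟨?_, ?_, ?_⟩
    · rw [Metric.mem_closedBall, dist_eq_norm]; exact hz₁b''.le
    · linarith
    · linarith
  have hΨc : ContinuousOn Ψ N := by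
    refine hQc.continuousOn.add (ContinuousOn.div continuousOn_const (by fun_prop) ?_)
    intro z hz
    have := hz.2.2
    have h3 : 0 < z₀.2 - z.2 := by linarith
    exact h3.ne'
  have husc : UpperSemicontinuousOn (fun z => ind u a z + -Ψ z) N :=
    (ind_usc (hu.mono hNsub) a).add hΨc.neg.upperSemicontinuousOn
  obtain ⟨y, hyN, hmax⟩ := husc.exists_isMaxOn ⟨z₁, hz₁N⟩ hNc
  have hmax' : ∀ z ∈ N, ind u a z - Ψ z ≤ ind u a y - Ψ y := by
    intro z hz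
    have := hmax hz
    simp only [mem_setOf_eq] at this
    linarith
  have hval : 1 - 2 * μ ≤ ind u a y - Ψ y := by
    have h1 := hmax' z₁ hz₁N
    rw [ind_of_le hz₁a] at h1
    have h2 : Ψ z₁ = Q z₁ + μ := by simp only [hΨ]; rw [hκ1]
    rw [h2] at h1
    have := (abs_lt.1 hQz₁).2
    linarith
  have hy1 : ‖y.1 - z₀.1‖ ≤ s := by
    have := hyN.1
    rwa [Metric.mem_closedBall, dist_eq_norm] at this
  have hy2 : z₀.2 - s ≤ y.2 := hyN.2.1
  have hy3 : y.2 ≤ z₀.2 - ω := hyN.2.2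
  have hyρ : dist y z₀ < ρ₀ := by
    rw [dist_eq_norm, Prod.norm_def, Real.norm_eq_abs]
    refine max_lt (by rw [Prod.fst_sub]; linarith) ?_
    rw [Prod.snd_sub, abs_lt]
    constructor <;> linarith
  have hQy := hQρ y hyρ
  have hκy : 0 < κ / (z₀.2 - y.2) := div_pos hκ0 (by linarith)
  have hΨy : Ψ y = Q y + κ / (z₀.2 - y.2) := rfl
  have hya : a ≤ u y := by
    by_contra hlt
    push Not at hlt
    rw [ind_of_lt hlt, hΨy] at hval
    have := (abs_lt.1 hQy).1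
    linarith
  rw [ind_of_le hya] at hval
  have hjy := hjet y (hNsub hyN) hya (by linarith) (by linarith) (by linarith)
  have habs : |y.2 - z₀.2| = -(y.2 - z₀.2) := abs_of_nonpos (by linarith)
  have hQlow : ε * (|y.2 - z₀.2| + ‖y.1 - z₀.1‖ ^ 2) ≤ Q y := by
    rw [hQa, habs]
    rw [habs] at hjy
    linarith
  have hm : |y.2 - z₀.2| + ‖y.1 - z₀.1‖ ^ 2 < m₀ := by
    have h1 : ε * (|y.2 - z₀.2| + ‖y.1 - z₀.1‖ ^ 2) < ε * m₀ := by
      have : 0 < ε * m₀ := by positivity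
      rw [hΨy] at hval
      linarith
    exact lt_of_mul_lt_mul_left h1 hε.le
  have hy3' : y.2 < z₀.2 - ω := by
    refine lt_of_le_of_ne hy3 fun heq => ?_
    rw [hΨy, heq] at hval
    have h1 : z₀.2 - (z₀.2 - ω) = ω := by ring
    have h2 : κ / ω = 2 := by rw [hω]; field_simp
    rw [h1, h2] at hval
    have := (abs_lt.1 hQy).1
    linarith
  have hy2' : z₀.2 - s < y.2 := by
    have h1 : |y.2 - z₀.2| < s := by
      have := sq_nonneg ‖y.1 - z₀.1‖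
      linarith
    have := (abs_lt.1 h1).1
    linarith
  have hy1' : ‖y.1 - z₀.1‖ < s := by
    have h1 : ‖y.1 - z₀.1‖ ^ 2 < s ^ 2 := by
      have := abs_nonneg (y.2 - z₀.2)
      linarith
    exact lt_of_pow_lt_pow_left₀ 2 hs0.le h1
  have hlm : IsLocalMax (fun w => ind u a w - Ψ w) y := by
    have h1 : Metric.ball z₀.1 s ×ˢ Ioo (z₀.2 - s) (z₀.2 - ω) ∈ 𝓝 y :=
      (Metric.isOpen_ball.prod isOpen_Ioo).mem_nhds ⟨by rwa [Metric.mem_ball, dist_eq_norm], hy2', hy3'⟩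
    filter_upwards [h1] with w hw
    exact hmax' w ⟨Metric.ball_subset_closedBall hw.1, Ioo_subset_Icc_self hw.2⟩
  have hne : z₀.2 - y.2 ≠ 0 := by linarith [show 0 < z₀.2 - y.2 by linarith]
  have hg : HasDerivAt (fun t : ℝ => κ / (z₀.2 - t)) (κ / (z₀.2 - y.2) ^ 2) y.2 := by
    have h1 : HasDerivAt (fun t : ℝ => z₀.2 - t) (-1) y.2 := by
      simpa using (hasDerivAt_id y.2).const_sub z₀.2
    have h2 := (hasDerivAt_const y.2 κ).div h1 hne
    refine h2.congr_deriv ?_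
    ring
  have hΨC : ContDiffAt ℝ 2 Ψ y := by
    refine (qp_contDiff _ _ _ _ _).contDiffAt.add (ContDiffAt.div contDiffAt_const ?_ hne)
    exact contDiffAt_const.sub contDiffAt_snd
  have hPT : PT Ψ y (-α - 2 * ε + κ / (z₀.2 - y.2) ^ 2) (qg z₀.1 (-p) X' y.1 + 0) (X' + 0) :=
    (PT_qp z₀.1 z₀.2 (-α - 2 * ε) (-p) hX's y).add (PT_time hg)
  have hsub := hU Ψ y hΨC (by linarith) hlm
  rw [dt_eq hΨC hPT, dx_eq hΨC hPT, dxx_eq hΨC hPT, add_zero] at hsub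
  refine ⟨y, by linarith, hsub.mono ?_ fun v => le_of_eq (add_zero (X' v v))⟩
  have : 0 < κ / (z₀.2 - y.2) ^ 2 := by
    have : 0 < z₀.2 - y.2 := by linarith
    positivity
  linarith

/-- One-sided outer jets of superlevel sets satisfy the subsolution inequality. -/
theorem one_sided {f : V → ℝ} (hf : Continuous f) {F₀ : ℝ} (hF : ∀ x, |f x| ≤ F₀) {u : V × ℝ → ℝ} {a : ℝ}
    (hU : ViscSub f (ind u a)) (hu : UpperSemicontinuousOn u {z : V × ℝ | 0 ≤ z.2}) {z₀ : V × ℝ} (h0 : a ≤ u z₀)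
    (ht : 0 < z₀.2) {α : ℝ} {p : V} {X : V →L[ℝ] V →L[ℝ] ℝ}
    (hjet : ∀ ε > 0, ∃ r > 0, ∀ z : V × ℝ, 0 ≤ z.2 → a ≤ u z → ‖z.1 - z₀.1‖ < r → z₀.2 - r < z.2 → z.2 ≤ z₀.2 →
      α * (z.2 - z₀.2) + ⟪p, z.1 - z₀.1⟫ + 1 / 2 * X (z.1 - z₀.1) (z.1 - z₀.1) ≤
        ε * (|z.2 - z₀.2| + ‖z.1 - z₀.1‖ ^ 2)) :
    LSub (f z₀.1) (-α) (-p) (-(symm2 X)) := by
  -- first with ε
  have h1 : ∀ ε > 0, LSub (f z₀.1) (-α - 2 * ε) (-p) (-(symm2 X) + (4 * ε) • gm) := by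
    intro ε hε
    obtain ⟨r, hr, hj⟩ := hjet ε hε
    have h2 : ∀ n : ℕ, ∃ y : V × ℝ, |y.2 - z₀.2| + ‖y.1 - z₀.1‖ ^ 2 < 1 / ((n : ℝ) + 1) ∧
        LSub (f y.1) (-α - 2 * ε) (qg z₀.1 (-p) (-(symm2 X) + (4 * ε) • gm) y.1) (-(symm2 X) + (4 * ε) • gm) :=
      fun n => one_sided_aux hF hU hu h0 ht hε hr hj (by positivity)
    choose y hy1 hy2 using h2
    have h3 : Tendsto (fun n => ‖(y n).1 - z₀.1‖ ^ 2) atTop (𝓝 0) := by
      refine squeeze_zero (fun n => sq_nonneg _) (fun n => ?_) tendsto_one_div_add_atTop_nhds_zero_nat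
      have := abs_nonneg ((y n).2 - z₀.2)
      linarith [hy1 n]
    have h4 : Tendsto (fun n => ‖(y n).1 - z₀.1‖) atTop (𝓝 0) := by
      have h5 := (Real.continuous_sqrt.tendsto 0).comp h3
      rw [Real.sqrt_zero] at h5
      refine h5.congr fun n => ?_
      exact Real.sqrt_sq (norm_nonneg _)
    have h5 : Tendsto (fun n => (y n).1) atTop (𝓝 z₀.1) := tendsto_iff_norm_sub_tendsto_zero.2 h4
    have h6 : Tendsto (fun n => qg z₀.1 (-p) (-(symm2 X) + (4 * ε) • gm) (y n).1) atTop (𝓝 (-p)) := by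
      have := ((qg_continuous z₀.1 (-p) (-(symm2 X) + (4 * ε) • gm)).tendsto z₀.1).comp h5
      rwa [qg_self] at this
    exact LSub_closed ((hf.tendsto z₀.1).comp h5) tendsto_const_nhds h6 tendsto_const_nhds
      (Eventually.of_forall hy2)
  have h2 : Tendsto (fun n : ℕ => 1 / ((n : ℝ) + 1)) atTop (𝓝 0) := tendsto_one_div_add_atTop_nhds_zero_nat
  have h3 : Tendsto (fun n : ℕ => -α - 2 * (1 / ((n : ℝ) + 1))) atTop (𝓝 (-α)) := by
    have := (tendsto_const_nhds (x := -α)).sub (h2.const_mul 2)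
    rwa [mul_zero, sub_zero] at this
  have h4 : Tendsto (fun n : ℕ => -(symm2 X) + (4 * (1 / ((n : ℝ) + 1))) • gm) atTop (𝓝 (-(symm2 X))) := by
    have h5 : Continuous fun c : ℝ => -(symm2 X) + (4 * c) • gm := by
      refine continuous_clm_apply.2 fun v => continuous_clm_apply.2 fun w => ?_
      show Continuous fun c : ℝ => -(symm2 X v w) + (4 * c) * gm v w
      fun_prop
    have h6 := (h5.tendsto 0).comp h2
    have e : -(symm2 X) + (4 * (0 : ℝ)) • gm = -(symm2 X) := by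
      refine ContinuousLinearMap.ext fun v => ContinuousLinearMap.ext fun w => ?_
      show -(symm2 X v w) + (4 * (0 : ℝ)) * gm v w = -(symm2 X v w)
      ring
    rw [e] at h6
    exact h6
  exact LSub_closed (l := atTop) tendsto_const_nhds h3 tendsto_const_nhds h4
    (Eventually.of_forall fun n => h1 _ (by positivity))

/-- **Superlevel sets of viscosity subsolutions are subflows.** -/
theorem ViscSub.subflow {f : V → ℝ} (hf : Continuous f) {F₀ : ℝ} (hF : ∀ x, |f x| ≤ F₀) {u : V × ℝ → ℝ}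
    (h : ViscSub f u) (hu : UpperSemicontinuousOn u {z : V × ℝ | 0 ≤ z.2}) (a T : ℝ) :
    Subflow f T {z : V × ℝ | 0 ≤ z.2 ∧ z.2 ≤ T ∧ a ≤ u z} := by
  have hU := viscSub_ind hf h hu a
  refine ⟨?_, fun x t hz => hz.1, fun x t hz => hz.2.1, ?_, ?_⟩
  · have h1 : IsClosed ({z : V × ℝ | 0 ≤ z.2} ∩ {z | a ≤ u z}) := by
      have hc : IsClosed {z : V × ℝ | 0 ≤ z.2} := isClosed_le continuous_const continuous_snd
      rw [← isOpen_compl_iff, isOpen_iff_mem_nhds]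
      intro z hz
      by_cases hz0 : 0 ≤ z.2
      · have hlt : u z < a := by
          by_contra hge
          push Not at hge
          exact hz ⟨hz0, hge⟩
        have h2 := hu z hz0 a hlt
        rw [eventually_nhdsWithin_iff] at h2
        filter_upwards [h2] with w hw hw2
        exact absurd hw2.2 (not_le.2 (hw hw2.1))
      · filter_upwards [hc.isOpen_compl.mem_nhds (show z ∈ {z : V × ℝ | 0 ≤ z.2}ᶜ from hz0)] with w hw hw2
        exact hw hw2.1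
    have h2 : {z : V × ℝ | 0 ≤ z.2 ∧ z.2 ≤ T ∧ a ≤ u z} =
        ({z : V × ℝ | 0 ≤ z.2} ∩ {z | a ≤ u z}) ∩ {z : V × ℝ | z.2 ≤ T} := by
      ext z
      simp only [mem_setOf_eq, mem_inter_iff]
      tauto
    rw [h2]
    exact h1.inter (isClosed_le continuous_snd continuous_const)
  · intro x₀ t₀ hz ht α p X hj hp ξ hξ1 hξ2
    have h1 := one_sided (z₀ := (x₀, t₀)) (α := α) (p := p) (X := X) hf hF hU hu hz.2.2 ht (fun ε hε => by
      obtain ⟨r, hr, h2⟩ := hj ε hε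
      refine ⟨r, hr, fun z h3 h4 h5 h6 h7 => ?_⟩
      exact h2 z.1 z.2 ⟨h3, h7.trans hz.2.1, h4⟩ h5 h6 h7)
    have h2 := h1.of_ne (neg_ne_zero.2 hp)
    -- the unit vector orthogonal to `p`
    have hJn : J (-p) = -(J p) := by
      have := J_smul (-1) p
      rwa [neg_one_smul, neg_one_smul] at this
    have h3 : X ξ ξ = X (J p) (J p) / ‖p‖ ^ 2 := by
      have hJJ : ‖p‖ ^ 2 • ξ = ⟪J p, ξ⟫ • J p := by
        have e0 : ⟪ξ, p⟫ = ξ 0 * p 0 + ξ 1 * p 1 := by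
          rw [PiLp.inner_apply, Fin.sum_univ_two]
          simp only [RCLike.inner_apply, conj_trivial]
          ring
        have e1 : ⟪J p, ξ⟫ = -(p 1) * ξ 0 + p 0 * ξ 1 := by
          rw [PiLp.inner_apply, Fin.sum_univ_two, J_zero_apply, J_one_apply]
          simp only [RCLike.inner_apply, conj_trivial]
          ring
        rw [e0] at hξ2
        rw [norm_sq_V, e1]
        ext i
        fin_cases i
        · show (p 0 ^ 2 + p 1 ^ 2) * ξ 0 = (-(p 1) * ξ 0 + p 0 * ξ 1) * (J p) 0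
          rw [J_zero_apply]
          linear_combination p 0 * hξ2
        · show (p 0 ^ 2 + p 1 ^ 2) * ξ 1 = (-(p 1) * ξ 0 + p 0 * ξ 1) * (J p) 1
          rw [J_one_apply]
          linear_combination p 1 * hξ2
      have hp0 : ‖p‖ ≠ 0 := norm_ne_zero_iff.2 hp
      have e2 : ⟪J p, ξ⟫ ^ 2 = ‖p‖ ^ 2 := by
        have e3 := congrArg (fun v : V => ‖v‖ ^ 2) hJJ
        simp only [norm_smul, mul_pow, norm_pow, norm_norm, hξ1, norm_J, Real.norm_eq_abs, sq_abs, one_pow,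
          mul_one] at e3
        have e4 : ‖p‖ ^ 2 * ‖p‖ ^ 2 = ⟪J p, ξ⟫ ^ 2 * ‖p‖ ^ 2 := by
          rw [← e3]
          ring
        exact (mul_right_cancel₀ (by positivity) e4).symm
      have e3 : ‖p‖ ^ 2 * (‖p‖ ^ 2 * X ξ ξ) = ‖p‖ ^ 2 * X (J p) (J p) := by
        have e4 : X (‖p‖ ^ 2 • ξ) (‖p‖ ^ 2 • ξ) = ‖p‖ ^ 2 * (‖p‖ ^ 2 * X ξ ξ) := by
          simp only [map_smul, ContinuousLinearMap.smul_apply, smul_eq_mul]
        rw [← e4, hJJ]
        simp only [map_smul, ContinuousLinearMap.smul_apply, smul_eq_mul]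
        rw [← e2]
        ring
      rw [eq_div_iff (by positivity)]
      have := mul_left_cancel₀ (by positivity) e3
      linarith
    rw [hJn] at h2
    simp only [map_neg, ContinuousLinearMap.neg_apply, neg_neg, norm_neg, symm2_self] at h2
    rw [h3]
    have h4 : -X (J p) (J p) / ‖p‖ ^ 2 = -(X (J p) (J p) / ‖p‖ ^ 2) := neg_div _ _
    rw [h4] at h2
    show X (J p) (J p) / ‖p‖ ^ 2 - f x₀ * ‖p‖ ≤ α
    linarith
  · intro x₀ t₀ hz ht r hr
    obtain ⟨z, h1, h2, h3, h4, h5⟩ := left_access (z₀ := (x₀, t₀)) hF hU hu hz.2.2 ht hr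
    exact ⟨z.1, z.2, ⟨h1, h5.le.trans hz.2.1, h2⟩, h3, h4, h5⟩

end Pool.Agent.VSC
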