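import Pool.Agent.VSC.LEnv

/-!
# Perron's method for the level set equation
-/

open scoped RealInnerProductSpace Topology
open Set Filter

noncomputable section

namespace Pool.Agent.VSC

/-- The bump is bounded below away from its centre. -/
theorem bump_lower {z₀ z : V × ℝ} {ρ : ℝ} (hρ : 0 < ρ) (h : ρ ≤ dist z z₀) : min (ρ ^ 4) (ρ ^ 2) ≤ bump z₀ z := by
  rw [dist_eq_norm, Prod.norm_def, le_max_iff] at h
  rw [bump]
  rcases h with h | h
  · have h1 : ρ ^ 4 ≤ ‖z.1 - z₀.1‖ ^ 4 := pow_le_pow_left₀ hρ.le h 4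
    have h2 : 0 ≤ (z.2 - z₀.2) ^ 2 := sq_nonneg _
    have := min_le_left (ρ ^ 4) (ρ ^ 2)
    linarith
  · rw [Prod.snd_sub, Real.norm_eq_abs] at h
    have h1 : ρ ^ 2 ≤ |z.2 - z₀.2| ^ 2 := pow_le_pow_left₀ hρ.le h 2
    rw [sq_abs] at h1
    have h2 : 0 ≤ ‖z.1 - z₀.1‖ ^ 4 := by positivity
    have := min_le_right (ρ ^ 4) (ρ ^ 2)
    linarith

/-- Admissible functions in Perron's method. -/
structure Adm (f : V → ℝ) (wm wp w : V × ℝ → ℝ) : Prop where
  usc : UpperSemicontinuousOn w DD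
  visc : ViscSub f w
  bd : ∀ z ∈ DD, wm z ≤ w z ∧ w z ≤ wp z

/-- Perron: there is a largest admissible function. -/
theorem exists_max_adm {f : V → ℝ} (hf : Continuous f) {wm wp : V × ℝ → ℝ} (hm : Continuous wm) (hp : Continuous wp)
    (hle : ∀ z ∈ DD, wm z ≤ wp z) (hvm : ViscSub f wm) :
    ∃ u, Adm f wm wp u ∧ ∀ w, Adm f wm wp w → ∀ z ∈ DD, w z ≤ u z := by
  have hadm : Adm f wm wp wm := ⟨hm.continuousOn.upperSemicontinuousOn, hvm, fun z hz => ⟨le_rfl, hle z hz⟩⟩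
  set S : V × ℝ → Set ℝ := fun z => {c | ∃ w, Adm f wm wp w ∧ w z = c} with hS
  have hSne : ∀ z, (S z).Nonempty := fun z => ⟨wm z, wm, hadm, rfl⟩
  have hSbd : ∀ z ∈ DD, wp z ∈ upperBounds (S z) := by
    rintro z hz c ⟨w, hw, rfl⟩
    exact (hw.bd z hz).2
  set u₀ : V × ℝ → ℝ := fun z => sSup (S z) with hu₀
  have hle₀ : ∀ w, Adm f wm wp w → ∀ z ∈ DD, w z ≤ u₀ z := fun w hw z hz => le_csSup ⟨_, hSbd z hz⟩ ⟨w, hw, rfl⟩
  have hu₀b : ∀ z ∈ DD, wm z ≤ u₀ z ∧ u₀ z ≤ wp z := fun z hz =>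
    ⟨hle₀ wm hadm z hz, csSup_le (hSne z) (hSbd z hz)⟩
  refine ⟨ue u₀, ⟨ue_usc hm hp hu₀b, ?_, fun z hz => ⟨ue_ge hm hp hu₀b hz, ue_le hm hp hu₀b hz⟩⟩,
    fun w hw z hz => (hle₀ w hw z hz).trans (le_ue hm hp hu₀b hz)⟩
  intro φ z₀ hφ ht hmax
  refine stab hf ht hφ hmax (r := z₀.2 / 2) (by linarith) fun ε hε => ?_
  have hz₀ : z₀ ∈ DD := ht.le
  have hsub : Metric.closedBall z₀ (z₀.2 / 2) ⊆ DD := by
    intro z hz
    rw [Metric.mem_closedBall, dist_eq_norm] at hz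
    have h1 : |z.2 - z₀.2| ≤ z₀.2 / 2 := by
      rw [← Real.norm_eq_abs]
      exact (norm_snd_le (z - z₀)).trans hz
    have := (abs_le.1 h1).1
    show 0 ≤ z.2
    linarith
  have h1 : ∃ᶠ z in 𝓝[DD] z₀, ue u₀ z₀ - ε / 2 < u₀ z := ue_freq hm hp hu₀b hz₀ (by linarith)
  have h2 : ∀ᶠ z in 𝓝[DD] z₀, dist z z₀ < ε ∧ z ∈ DD := by
    filter_upwards [mem_nhdsWithin_of_mem_nhds (Metric.ball_mem_nhds z₀ hε), self_mem_nhdsWithin] with z h3 h4
    exact ⟨h3, h4⟩
  obtain ⟨z, h3, h4, h5⟩ := (h1.and_eventually h2).exists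
  obtain ⟨c, ⟨w, hw, rfl⟩, h6⟩ := exists_lt_of_lt_csSup (hSne z) (show u₀ z - ε / 2 < sSup (S z) by
    show u₀ z - ε / 2 < u₀ z
    linarith)
  refine ⟨w, hw.visc, hw.usc.mono hsub, ⟨z, h4, by linarith⟩, fun z' hz' => ⟨z', by rw [dist_self]; exact hε, ?_⟩⟩
  have h7 := (hle₀ w hw z' (hsub hz')).trans (le_ue hm hp hu₀b (hsub hz'))
  linarith

/-- Perron: the lower envelope of the largest admissible function is a supersolution. -/
theorem super_of_max {f : V → ℝ} (hf : Continuous f) {wm wp : V × ℝ → ℝ} (hm : Continuous wm) (hp : Continuous wp)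
    (hvp : ViscSuper f wp) {u : V × ℝ → ℝ} (hu : Adm f wm wp u) (hmax : ∀ w, Adm f wm wp w → ∀ z ∈ DD, w z ≤ u z) :
    ViscSub (fun x => -f x) (ue fun z => -u z) := by
  have hmn : Continuous fun z => -wp z := hp.neg
  have hpn : Continuous fun z => -wm z := hm.neg
  have hbn : ∀ z ∈ DD, -wp z ≤ -u z ∧ -u z ≤ -wm z := fun z hz => by
    have := hu.bd z hz
    constructor <;> linarith
  intro φ z₀ hφ ht hlm
  by_contra hcon
  have hz₀ : z₀ ∈ DD := ht.le
  set v : V × ℝ → ℝ := ue fun z => -u z with hv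
  set c₀ : ℝ := v z₀ - φ z₀ with hc₀
  set φ' : V × ℝ → ℝ := fun z => φ z + 1 * bump z₀ z with hφ'
  set G : V × ℝ → ℝ := fun z => -φ' z - c₀ with hG
  have hφ'C : ∀ z, ContDiffAt ℝ 2 φ z → ContDiffAt ℝ 2 φ' z := fun z hz =>
    hz.add (contDiffAt_const.mul (bump_contDiff z₀).contDiffAt)
  have hGz : G z₀ = -v z₀ := by
    simp only [hG, hφ', bump_self, hc₀]
    ring
  have hPT := PT_add_bump (PT_of_contDiffAt hφ) 1
  have e1 : dt φ' z₀ = dt φ z₀ := dt_eq (hφ'C _ hφ) hPT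
  have e2 : dx φ' z₀ = dx φ z₀ := dx_eq (hφ'C _ hφ) hPT
  have e3 : dxx φ' z₀ = dxx φ z₀ := dxx_eq (hφ'C _ hφ) hPT
  -- failure of the inequality is open
  have hopen : ∀ᶠ z in 𝓝 z₀, ¬ LSub (-f z.1) (dt φ' z) (dx φ' z) (dxx φ' z) := by
    by_contra hno
    have hfr : ∃ᶠ z in 𝓝 z₀, LSub (-f z.1) (dt φ' z) (dx φ' z) (dxx φ' z) := by
      intro h1
      exact hno h1
    haveI hne : (𝓝 z₀ ⊓ 𝓟 {z | LSub (-f z.1) (dt φ' z) (dx φ' z) (dxx φ' z)}).NeBot :=
      Filter.frequently_mem_iff_neBot.1 hfr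
    have hl : 𝓝 z₀ ⊓ 𝓟 {z | LSub (-f z.1) (dt φ' z) (dx φ' z) (dxx φ' z)} ≤ 𝓝 z₀ := inf_le_left
    have h1 : LSub (-f z₀.1) (dt φ' z₀) (dx φ' z₀) (dxx φ' z₀) := by
      refine LSub_closed (l := 𝓝 z₀ ⊓ 𝓟 {z | LSub (-f z.1) (dt φ' z) (dx φ' z) (dxx φ' z)})
        (g := fun z => -f z.1) (a := dt φ') (p := dx φ') (X := dxx φ') ?_ ?_ ?_ ?_ ?_
      · exact ((hf.comp continuous_fst).neg.tendsto z₀).mono_left hl
      · exact (dt_cont (hφ'C _ hφ)).tendsto.mono_left hl
      · exact (dx_cont (hφ'C _ hφ)).tendsto.mono_left hl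
      · exact (dxx_cont (hφ'C _ hφ)).tendsto.mono_left hl
      · exact Filter.eventually_inf_principal.2 (Eventually.of_forall fun z hz => hz)
    rw [e1, e2, e3] at h1
    exact hcon h1
  -- `u` lies above `G + bump`
  have habove : ∀ᶠ z in 𝓝 z₀, z ∈ DD ∧ G z + bump z₀ z ≤ u z := by
    filter_upwards [hlm, DD_nhds ht] with z h1 h2
    refine ⟨h2, ?_⟩
    have h3 := le_ue hmn hpn hbn h2
    simp only [hG, hφ']
    linarith
  -- strictly below the upper barrier
  have hstrict : G z₀ < wp z₀ := by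
    rw [hGz]
    have h1 : -wp z₀ ≤ v z₀ := ue_ge hmn hpn hbn hz₀
    refine lt_of_le_of_ne (by linarith) fun heq => ?_
    have h2 : IsLocalMax (fun w => -wp w - φ w) z₀ := by
      filter_upwards [hlm, DD_nhds ht] with z h3 h4
      have h5 : -wp z ≤ v z := ue_ge hmn hpn hbn h4
      linarith
    exact hcon (hvp φ z₀ hφ ht h2)
  have hGc : ContinuousAt G z₀ := ((hφ'C _ hφ).continuousAt.neg).sub continuousAt_const
  set γ : ℝ := (wp z₀ - G z₀) / 2 with hγ
  have hγ0 : 0 < γ := by rw [hγ]; linarith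
  have hbelow : ∀ᶠ z in 𝓝 z₀, G z + γ < wp z := by
    have h1 : Tendsto (fun z => wp z - G z) (𝓝 z₀) (𝓝 (wp z₀ - G z₀)) := (hp.tendsto z₀).sub hGc.tendsto
    filter_upwards [h1.eventually (lt_mem_nhds (show γ < wp z₀ - G z₀ by rw [hγ]; linarith))] with z hz
    linarith
  have hCev : ∀ᶠ z in 𝓝 z₀, ContDiffAt ℝ 2 φ z := hφ.eventually (by simp)
  obtain ⟨ρ₀, hρ₀, hgood⟩ := Metric.eventually_nhds_iff.1
    ((hopen.and habove).and (hbelow.and hCev))
  set ρ : ℝ := ρ₀ / 2 with hρ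
  have hρ0 : 0 < ρ := by positivity
  set b : ℝ := min (ρ ^ 4) (ρ ^ 2) with hb
  have hb0 : 0 < b := lt_min (by positivity) (by positivity)
  set κ : ℝ := min γ (b / 2) with hκ
  have hκ0 : 0 < κ := lt_min hγ0 (by positivity)
  have hκ1 : κ ≤ γ := min_le_left _ _
  have hκ2 : κ ≤ b / 2 := min_le_right _ _
  classical
  set w : V × ℝ → ℝ := fun z => if dist z z₀ < ρ then max (u z) (G z + κ) else u z with hw
  have hw_in : ∀ z, dist z z₀ < ρ → w z = max (u z) (G z + κ) := fun z hz => if_pos hz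
  have hw_out : ∀ z, ρ ≤ dist z z₀ → w z = u z := fun z hz => if_neg (not_lt.2 hz)
  have huw : ∀ z, u z ≤ w z := by
    intro z
    by_cases hz : dist z z₀ < ρ
    · rw [hw_in z hz]; exact le_max_left _ _
    · rw [hw_out z (not_lt.1 hz)]
  have hwle : ∀ z, w z ≤ max (u z) (G z + κ) := by
    intro z
    by_cases hz : dist z z₀ < ρ
    · rw [hw_in z hz]
    · rw [hw_out z (not_lt.1 hz)]; exact le_max_left _ _
  have hwadm : Adm f wm wp w := by
    refine ⟨?_, ?_, ?_⟩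
    · -- usc
      intro z hz y hy
      have huz : ∀ᶠ z' in 𝓝[DD] z, u z' < y := hu.usc z hz y ((huw z).trans_lt hy)
      by_cases hzd : dist z z₀ < ρ₀
      · have hGz' : ContinuousAt G z :=
          ((hφ'C _ (hgood hzd).2.2).continuousAt.neg).sub continuousAt_const
        have hlt : G z + κ < y := by
          by_cases hz2 : dist z z₀ < ρ
          · rw [hw_in z hz2] at hy
            exact (le_max_right _ _).trans_lt hy
          · have h1 := bump_lower hρ0 (not_lt.1 hz2)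
            have h2 := (hgood hzd).1.2.2
            rw [hw_out z (not_lt.1 hz2)] at hy
            linarith
        have hGev : ∀ᶠ z' in 𝓝[DD] z, G z' + κ < y :=
          ((hGz'.add continuousAt_const).tendsto.mono_left nhdsWithin_le_nhds).eventually (gt_mem_nhds hlt)
        filter_upwards [huz, hGev] with z' h1 h2
        exact (hwle z').trans_lt (max_lt h1 h2)
      · have hev : ∀ᶠ z' in 𝓝[DD] z, ρ < dist z' z₀ := by
          have h1 : Tendsto (fun z' => dist z' z₀) (𝓝[DD] z) (𝓝 (dist z z₀)) :=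
            ((continuous_id.dist continuous_const).tendsto z).mono_left nhdsWithin_le_nhds
          exact h1.eventually (lt_mem_nhds (by linarith [not_lt.1 hzd]))
        filter_upwards [huz, hev] with z' h1 h2
        rw [hw_out z' h2.le]
        exact h1
    · -- viscosity subsolution
      intro ψ z₁ hψ ht₁ hmax₁
      by_cases hcase : w z₁ = u z₁
      · refine hu.visc ψ z₁ hψ ht₁ ?_
        filter_upwards [hmax₁] with z hz
        rw [hcase] at hz
        have := huw z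
        linarith
      · have hin : dist z₁ z₀ < ρ := by
          by_contra hout
          exact hcase (hw_out z₁ (not_lt.1 hout))
        have hwG : w z₁ = G z₁ + κ := by
          rw [hw_in z₁ hin] at hcase ⊢
          rcases max_choice (u z₁) (G z₁ + κ) with h1 | h1
          · exact absurd h1 hcase
          · exact h1
        have hz₁good := hgood (show dist z₁ z₀ < ρ₀ by linarith)
        have hCz₁ := hφ'C _ hz₁good.2.2
        have hlm₁ : IsLocalMax (fun z => (G z + κ) - ψ z) z₁ := by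
          filter_upwards [hmax₁, Metric.isOpen_ball.mem_nhds (show z₁ ∈ Metric.ball z₀ ρ from hin)] with z h1 h2
          have h3 : G z + κ ≤ w z := by
            rw [hw_in z h2]; exact le_max_right _ _
          rw [hwG] at h1
          linarith
        have hPTG : PT (fun z => G z + κ) z₁ (-(dt φ' z₁)) (-(dx φ' z₁)) (-(dxx φ' z₁)) := by
          have h1 := PT_of_contDiffAt hCz₁
          refine ⟨fun x y => ?_, fun ε hε => ?_⟩
          · show -(dxx φ' z₁ x y) = -(dxx φ' z₁ y x)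
            rw [h1.1]
          · filter_upwards [h1.2 ε hε] with k hk
            have e : G (z₁ + k) + κ - (G z₁ + κ) -
                (-(dt φ' z₁) * k.2 + ⟪-(dx φ' z₁), k.1⟫ + 1 / 2 * (-(dxx φ' z₁)) k.1 k.1) =
                -(φ' (z₁ + k) - φ' z₁ - (dt φ' z₁ * k.2 + ⟪dx φ' z₁, k.1⟫ + 1 / 2 * dxx φ' z₁ k.1 k.1)) := by
              have e1 : (-(dxx φ' z₁)) k.1 k.1 = -(dxx φ' z₁ k.1 k.1) := rfl
              rw [e1, inner_neg_left]
              simp only [hG]
              ring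
            rw [e, abs_neg]
            exact hk
        obtain ⟨h1, h2, h3⟩ := PT_le hPTG (PT_of_contDiffAt hψ) hlm₁
        have h4 := not_LSub hz₁good.1.1
        rw [← h1, ← h2]
        exact h4.mono le_rfl h3
    · -- bounds
      intro z hz
      refine ⟨(hu.bd z hz).1.trans (huw z), ?_⟩
      by_cases hin : dist z z₀ < ρ
      · rw [hw_in z hin]
        refine max_le (hu.bd z hz).2 ?_
        have := (hgood (show dist z z₀ < ρ₀ by linarith)).2.1
        linarith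
      · rw [hw_out z (not_lt.1 hin)]
        exact (hu.bd z hz).2
  -- contradiction with maximality
  have h1 : ∃ᶠ z in 𝓝[DD] z₀, v z₀ - κ / 2 < -u z := ue_freq hmn hpn hbn hz₀ (by linarith)
  have h2 : ∀ᶠ z in 𝓝[DD] z₀, dist z z₀ < ρ ∧ G z₀ - κ / 2 < G z ∧ z ∈ DD := by
    have h3 : ∀ᶠ z in 𝓝 z₀, G z₀ - κ / 2 < G z := hGc.tendsto.eventually (lt_mem_nhds (by linarith))
    filter_upwards [mem_nhdsWithin_of_mem_nhds (Metric.ball_mem_nhds z₀ hρ0), mem_nhdsWithin_of_mem_nhds h3,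
      self_mem_nhdsWithin] with z h4 h5 h6
    exact ⟨h4, h5, h6⟩
  obtain ⟨z, h3, h4, h5, h6⟩ := (h1.and_eventually h2).exists
  have h7 := hmax w hwadm z h6
  have h8 : G z + κ ≤ w z := by rw [hw_in z h4]; exact le_max_right _ _
  linarith

end Pool.Agent.VSC
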