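import Pool.Agent.VSC.LPT

/-!
# Viscosity subsolutions of the level set equation and their stability
-/

open scoped RealInnerProductSpace Topology
open Set Filter

noncomputable section

namespace Pool.Agent.VSC

/-- The trace of a bilinear form on the plane. -/
def tr2 (X : V →L[ℝ] V →L[ℝ] ℝ) : ℝ :=
  X (EuclideanSpace.single 0 1) (EuclideanSpace.single 0 1) + X (EuclideanSpace.single 1 1) (EuclideanSpace.single 1 1)

theorem V_eq (v : V) : v = v 0 • EuclideanSpace.single 0 1 + v 1 • EuclideanSpace.single 1 1 := by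
  ext i
  fin_cases i <;> simp

theorem J_eq (v : V) : J v = (-(v 1)) • EuclideanSpace.single 0 1 + v 0 • EuclideanSpace.single 1 1 := by
  ext i
  fin_cases i
  · simp [J_zero_apply]
  · simp [J_one_apply]

theorem norm_sq_V (v : V) : ‖v‖ ^ 2 = v 0 ^ 2 + v 1 ^ 2 := by
  rw [EuclideanSpace.norm_sq_eq, Fin.sum_univ_two, Real.norm_eq_abs, Real.norm_eq_abs, sq_abs, sq_abs]

theorem tr_split (X : V →L[ℝ] V →L[ℝ] ℝ) (v : V) : X v v + X (J v) (J v) = ‖v‖ ^ 2 * tr2 X := by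
  rw [J_eq, norm_sq_V, tr2]
  conv_lhs => rw [V_eq v]
  simp only [map_add, map_smul, ContinuousLinearMap.add_apply, ContinuousLinearMap.smul_apply, smul_eq_mul]
  simp
  ring

theorem tr2_sub_div {X : V →L[ℝ] V →L[ℝ] ℝ} {p : V} (hp : p ≠ 0) :
    tr2 X - X p p / ‖p‖ ^ 2 = X (J p) (J p) / ‖p‖ ^ 2 := by
  have h1 := tr_split X p
  have h2 : ‖p‖ ^ 2 ≠ 0 := by positivity
  rw [eq_div_iff h2, sub_mul, div_mul_cancel₀ _ h2]
  linarith

theorem tr2_sub_le {Z : V →L[ℝ] V →L[ℝ] ℝ} (hZ : ∀ v, 0 ≤ Z v v) {η : V} (hη : ‖η‖ ≤ 1) : Z η η ≤ tr2 Z := by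
  have h1 := tr_split Z η
  have h2 := hZ (J η)
  have h3 : 0 ≤ tr2 Z := add_nonneg (hZ _) (hZ _)
  have h4 : ‖η‖ ^ 2 ≤ 1 := by
    have := norm_nonneg η
    nlinarith
  nlinarith

/-- The subsolution inequality `a ≤ tr((I - p ⊗ p / |p|²) X) + g |p|` of the level set operator, with the
Evans-Spruck convention (`a ≤ tr((I - η ⊗ η) X)` for some `|η| ≤ 1`) if `p = 0`. -/
def LSub (g a : ℝ) (p : V) (X : V →L[ℝ] V →L[ℝ] ℝ) : Prop :=
  (p ≠ 0 ∧ a ≤ tr2 X - X p p / ‖p‖ ^ 2 + g * ‖p‖) ∨ (p = 0 ∧ ∃ η : V, ‖η‖ ≤ 1 ∧ a ≤ tr2 X - X η η)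

theorem LSub.mono {g a a' : ℝ} {p : V} {X X' : V →L[ℝ] V →L[ℝ] ℝ} (h : LSub g a p X) (ha : a' ≤ a)
    (hX : ∀ v, X v v ≤ X' v v) : LSub g a' p X' := by
  rcases h with ⟨hp, h1⟩ | ⟨hp, η, hη, h1⟩
  · refine Or.inl ⟨hp, ?_⟩
    rw [tr2_sub_div hp] at h1 ⊢
    have h2 : X (J p) (J p) / ‖p‖ ^ 2 ≤ X' (J p) (J p) / ‖p‖ ^ 2 := div_le_div_of_nonneg_right (hX _) (by positivity)
    linarith
  · refine Or.inr ⟨hp, η, hη, ?_⟩
    have h2 := tr2_sub_le (Z := X' - X) (fun v => by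
      have := hX v
      simp only [ContinuousLinearMap.sub_apply]
      linarith) hη
    have h3 : tr2 (X' - X) = tr2 X' - tr2 X := by
      simp only [tr2, ContinuousLinearMap.sub_apply]
      ring
    rw [h3] at h2
    simp only [ContinuousLinearMap.sub_apply] at h2
    linarith

/-- At nonzero gradient. -/
theorem LSub.of_ne {g a : ℝ} {p : V} {X : V →L[ℝ] V →L[ℝ] ℝ} (h : LSub g a p X) (hp : p ≠ 0) :
    a ≤ X (J p) (J p) / ‖p‖ ^ 2 + g * ‖p‖ := by
  rcases h with ⟨-, h1⟩ | ⟨h0, -⟩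
  · rwa [tr2_sub_div hp] at h1
  · exact absurd h0 hp

/-- A weak form valid for all gradients. -/
theorem LSub.weak {g a : ℝ} {p : V} {X : V →L[ℝ] V →L[ℝ] ℝ} (h : LSub g a p X) :
    ∃ η : V, ‖η‖ ≤ 1 ∧ a ≤ tr2 X - X η η + g * ‖p‖ := by
  rcases h with ⟨hp, h1⟩ | ⟨hp, η, hη, h1⟩
  · refine ⟨‖p‖⁻¹ • p, ?_, ?_⟩
    · rw [norm_smul, norm_inv, norm_norm, inv_mul_cancel₀ (norm_ne_zero_iff.2 hp)]
    · have : X (‖p‖⁻¹ • p) (‖p‖⁻¹ • p) = X p p / ‖p‖ ^ 2 := by
        simp only [map_smul, ContinuousLinearMap.smul_apply, smul_eq_mul]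
        field_simp
      rwa [this]
  · exact ⟨η, hη, by rw [hp, norm_zero, mul_zero, add_zero]; exact h1⟩

theorem tr2_continuous : Continuous tr2 := by
  unfold tr2
  fun_prop

theorem J_continuous : Continuous J := by
  unfold J
  fun_prop

/-- Closedness of the subsolution inequality. -/
theorem LSub_closed {ι : Type*} {l : Filter ι} [l.NeBot] {g a : ι → ℝ} {p : ι → V} {X : ι → V →L[ℝ] V →L[ℝ] ℝ}
    {g₀ a₀ : ℝ} {p₀ : V} {X₀ : V →L[ℝ] V →L[ℝ] ℝ} (hg : Tendsto g l (𝓝 g₀)) (ha : Tendsto a l (𝓝 a₀))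
    (hp : Tendsto p l (𝓝 p₀)) (hX : Tendsto X l (𝓝 X₀)) (h : ∀ᶠ i in l, LSub (g i) (a i) (p i) (X i)) :
    LSub g₀ a₀ p₀ X₀ := by
  by_cases hp0 : p₀ = 0
  · refine Or.inr ⟨hp0, ?_⟩
    have hch : ∀ i, ∃ η ∈ Metric.closedBall (0 : V) 1, LSub (g i) (a i) (p i) (X i) →
        a i ≤ tr2 (X i) - X i η η + g i * ‖p i‖ := by
      intro i
      by_cases hi : LSub (g i) (a i) (p i) (X i)
      · obtain ⟨η, hη, h3⟩ := hi.weak
        exact ⟨η, by simpa using hη, fun _ => h3⟩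
      · exact ⟨0, by simp, fun h => absurd h hi⟩
    choose η hη1 hη2 using hch
    set U : Ultrafilter ι := Ultrafilter.of l with hU
    have hUl : (U : Filter ι) ≤ l := Ultrafilter.of_le l
    obtain ⟨η₀, hη₀, hlim⟩ := (isCompact_closedBall (0 : V) 1).ultrafilter_le_nhds (U.map η)
      (by
        rw [le_principal_iff]
        exact Filter.mem_map.2 (Filter.univ_mem' hη1))
    have hηt : Tendsto η U (𝓝 η₀) := hlim
    refine ⟨η₀, by simpa using hη₀, ?_⟩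
    have hc : Continuous fun q : (V →L[ℝ] V →L[ℝ] ℝ) × V => tr2 q.1 - q.1 q.2 q.2 :=
      (tr2_continuous.comp continuous_fst).sub ((continuous_fst.clm_apply continuous_snd).clm_apply continuous_snd)
    have h1 : Tendsto (fun i => tr2 (X i) - X i (η i) (η i)) U (𝓝 (tr2 X₀ - X₀ η₀ η₀)) :=
      (hc.tendsto (X₀, η₀)).comp ((hX.mono_left hUl).prodMk_nhds hηt)
    have h2 : Tendsto (fun i => tr2 (X i) - X i (η i) (η i) + g i * ‖p i‖) U
        (𝓝 (tr2 X₀ - X₀ η₀ η₀ + g₀ * ‖p₀‖)) :=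
      h1.add ((hg.mono_left hUl).mul (hp.mono_left hUl).norm)
    rw [hp0, norm_zero, mul_zero, add_zero] at h2
    refine le_of_tendsto_of_tendsto (ha.mono_left hUl) h2 ?_
    filter_upwards [hUl h] with i hi using hη2 i hi
  · refine Or.inl ⟨hp0, ?_⟩
    rw [tr2_sub_div hp0]
    have h1 : ∀ᶠ i in l, p i ≠ 0 := hp.eventually (isOpen_ne.mem_nhds hp0)
    have h2 : Tendsto (fun i => X i (J (p i)) (J (p i))) l (𝓝 (X₀ (J p₀) (J p₀))) := by
      have hJ : Tendsto (fun i => J (p i)) l (𝓝 (J p₀)) := (J_continuous.tendsto p₀).comp hp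
      have hc : Continuous fun q : (V →L[ℝ] V →L[ℝ] ℝ) × V => q.1 q.2 q.2 :=
        (continuous_fst.clm_apply continuous_snd).clm_apply continuous_snd
      exact (hc.tendsto (X₀, J p₀)).comp (hX.prodMk_nhds hJ)
    have h3 : Tendsto (fun i => X i (J (p i)) (J (p i)) / ‖p i‖ ^ 2 + g i * ‖p i‖) l
        (𝓝 (X₀ (J p₀) (J p₀) / ‖p₀‖ ^ 2 + g₀ * ‖p₀‖)) :=
      (h2.div (hp.norm.pow 2) (by positivity)).add (hg.mul hp.norm)
    refine le_of_tendsto_of_tendsto ha h3 ?_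
    filter_upwards [h, h1] with i hi hpi using hi.of_ne hpi

/-- Viscosity subsolutions of `u_t = tr((I - Du ⊗ Du / |Du|²) D²u) + f |Du|` on `V × (0, ∞)`: for every function `φ`
which is `C²` near a point `z` with positive time such that `u - φ` has a local maximum at `z`, the subsolution
inequality holds for the derivatives of `φ` at `z`. -/
def ViscSub (f : V → ℝ) (u : V × ℝ → ℝ) : Prop :=
  ∀ (φ : V × ℝ → ℝ) (z : V × ℝ), ContDiffAt ℝ 2 φ z → 0 < z.2 → IsLocalMax (fun w => u w - φ w) z →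
    LSub (f z.1) (dt φ z) (dx φ z) (dxx φ z)

/-- Viscosity supersolutions. -/
def ViscSuper (f : V → ℝ) (u : V × ℝ → ℝ) : Prop :=
  ViscSub (fun x => -f x) (fun z => -u z)

/-- The standard bump. -/
def bump (z₀ z : V × ℝ) : ℝ := ‖z.1 - z₀.1‖ ^ 4 + (z.2 - z₀.2) ^ 2

theorem bump_self (z₀ : V × ℝ) : bump z₀ z₀ = 0 := by simp [bump]

theorem bump_nonneg (z₀ z : V × ℝ) : 0 ≤ bump z₀ z := by unfold bump; positivity

theorem bump_contDiff (z₀ : V × ℝ) : ContDiff ℝ 2 (bump z₀) := by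
  have h1 : bump z₀ = fun z => (‖z.1 - z₀.1‖ ^ 2) ^ 2 + (z.2 - z₀.2) ^ 2 := by
    funext z
    unfold bump
    ring
  rw [h1]
  have h2 : ContDiff ℝ 2 fun z : V × ℝ => ‖z.1 - z₀.1‖ ^ 2 := (contDiff_fst.sub contDiff_const).norm_sq ℝ
  exact (h2.pow 2).add ((contDiff_snd.sub contDiff_const).pow 2)

theorem bump_small (z₀ : V × ℝ) {ε : ℝ} (hε : 0 < ε) :
    ∀ᶠ h in 𝓝 (0 : V × ℝ), bump z₀ (z₀ + h) ≤ ε * (|h.2| + ‖h.1‖ ^ 2) := by
  have := Metric.ball_mem_nhds (0 : V × ℝ) (show 0 < min 1 ε by positivity)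
  filter_upwards [this] with h hh
  have h1 : ‖h‖ < min 1 ε := by simpa using hh
  have h2 : ‖h.1‖ ≤ ‖h‖ := norm_fst_le h
  have h3 : |h.2| ≤ ‖h‖ := by rw [← Real.norm_eq_abs]; exact norm_snd_le h
  have h4 : ‖h‖ < 1 := h1.trans_le (min_le_left _ _)
  have h5 : ‖h‖ < ε := h1.trans_le (min_le_right _ _)
  have h6 : bump z₀ (z₀ + h) = ‖h.1‖ ^ 2 * ‖h.1‖ ^ 2 + |h.2| * |h.2| := by
    unfold bump
    rw [Prod.fst_add, Prod.snd_add, add_sub_cancel_left, add_sub_cancel_left, abs_mul_abs_self]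
    ring
  rw [h6]
  have h7 : ‖h.1‖ ^ 2 ≤ ε := by
    have := norm_nonneg h.1
    nlinarith
  have h8 : |h.2| ≤ ε := by linarith
  have h9 := mul_le_mul_of_nonneg_right h7 (sq_nonneg ‖h.1‖)
  have h10 := mul_le_mul_of_nonneg_right h8 (abs_nonneg h.2)
  linarith

theorem PT_add_bump {φ : V × ℝ → ℝ} {z : V × ℝ} {a : ℝ} {p : V} {X : V →L[ℝ] V →L[ℝ] ℝ} (h : PT φ z a p X) (s : ℝ) :
    PT (fun w => φ w + s * bump z w) z a p X := by
  refine ⟨h.1, fun ε hε => ?_⟩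
  filter_upwards [h.2 (ε / 2) (by positivity), bump_small z (show 0 < ε / (2 * (|s| + 1)) by positivity)] with k h1 h2
  have h3 := bump_nonneg z (z + k)
  have h4 : |s * bump z (z + k)| ≤ ε / 2 * (|k.2| + ‖k.1‖ ^ 2) := by
    rw [abs_mul, abs_of_nonneg h3]
    have h5 := mul_le_mul_of_nonneg_left h2 (abs_nonneg s)
    have h6 : |s| * (ε / (2 * (|s| + 1)) * (|k.2| + ‖k.1‖ ^ 2)) =
        |s| / (|s| + 1) * (ε / 2 * (|k.2| + ‖k.1‖ ^ 2)) := by field_simp
    have h7 : |s| / (|s| + 1) ≤ 1 := by rw [div_le_one (by positivity)]; linarith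
    have h8 : |s| / (|s| + 1) * (ε / 2 * (|k.2| + ‖k.1‖ ^ 2)) ≤ 1 * (ε / 2 * (|k.2| + ‖k.1‖ ^ 2)) :=
      mul_le_mul_of_nonneg_right h7 (by positivity)
    linarith
  have e1 : φ (z + k) + s * bump z (z + k) - (φ z + s * bump z z) - (a * k.2 + ⟪p, k.1⟫ + 1 / 2 * X k.1 k.1) =
      (φ (z + k) - φ z - (a * k.2 + ⟪p, k.1⟫ + 1 / 2 * X k.1 k.1)) + s * bump z (z + k) := by
    rw [bump_self]; ring
  rw [e1]
  refine (abs_add_le _ _).trans ?_
  linarith

theorem bump_tendsto {z₀ : V × ℝ} {y : ℕ → V × ℝ} (h : Tendsto (fun n => bump z₀ (y n)) atTop (𝓝 0)) :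
    Tendsto y atTop (𝓝 z₀) := by
  have h1 : Tendsto (fun n => ‖(y n).1 - z₀.1‖) atTop (𝓝 0) := by
    have h2 : Tendsto (fun n => Real.sqrt (Real.sqrt (bump z₀ (y n)))) atTop (𝓝 (Real.sqrt (Real.sqrt 0))) :=
      (Real.continuous_sqrt.tendsto _).comp ((Real.continuous_sqrt.tendsto _).comp h)
    rw [Real.sqrt_zero, Real.sqrt_zero] at h2
    refine squeeze_zero (fun n => norm_nonneg _) (fun n => ?_) h2
    refine Real.le_sqrt_of_sq_le (Real.le_sqrt_of_sq_le ?_)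
    unfold bump
    nlinarith [sq_nonneg ((y n).2 - z₀.2)]
  have h3 : Tendsto (fun n => |(y n).2 - z₀.2|) atTop (𝓝 0) := by
    have h2 : Tendsto (fun n => Real.sqrt (bump z₀ (y n))) atTop (𝓝 (Real.sqrt 0)) :=
      (Real.continuous_sqrt.tendsto _).comp h
    rw [Real.sqrt_zero] at h2
    refine squeeze_zero (fun n => abs_nonneg _) (fun n => ?_) h2
    refine Real.le_sqrt_of_sq_le ?_
    rw [sq_abs]
    unfold bump
    have : 0 ≤ ‖(y n).1 - z₀.1‖ ^ 4 := by positivity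
    linarith
  have h4 : Tendsto (fun n => (y n).1) atTop (𝓝 z₀.1) := tendsto_iff_norm_sub_tendsto_zero.2 h1
  have h5 : Tendsto (fun n => (y n).2) atTop (𝓝 z₀.2) := tendsto_iff_norm_sub_tendsto_zero.2 h3
  have h6 := h4.prodMk_nhds h5
  exact h6

/-- **Stability**: relaxed upper limits of viscosity subsolutions are viscosity subsolutions. -/
theorem stab {f : V → ℝ} (hf : Continuous f) {U : V × ℝ → ℝ} {z₀ : V × ℝ} (ht : 0 < z₀.2) {φ : V × ℝ → ℝ}
    (hφ : ContDiffAt ℝ 2 φ z₀) (hmax : IsLocalMax (fun w => U w - φ w) z₀) {r : ℝ} (hr : 0 < r)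
    (happ : ∀ ε > 0, ∃ w : V × ℝ → ℝ, ViscSub f w ∧ UpperSemicontinuousOn w (Metric.closedBall z₀ r) ∧
      (∃ z, dist z z₀ < ε ∧ U z₀ - ε ≤ w z) ∧ ∀ z ∈ Metric.closedBall z₀ r, ∃ z', dist z' z < ε ∧ w z ≤ U z' + ε) :
    LSub (f z₀.1) (dt φ z₀) (dx φ z₀) (dxx φ z₀) := by
  set ψ : V × ℝ → ℝ := fun w => φ w + 1 * bump z₀ w with hψ
  have hψC : ContDiffAt ℝ 2 ψ z₀ := hφ.add (contDiffAt_const.mul (bump_contDiff z₀).contDiffAt)
  have hPT := PT_add_bump (PT_of_contDiffAt hφ) 1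
  have e1 : dt ψ z₀ = dt φ z₀ := dt_eq hψC hPT
  have e2 : dx ψ z₀ = dx φ z₀ := dx_eq hψC hPT
  have e3 : dxx ψ z₀ = dxx φ z₀ := dxx_eq hψC hPT
  -- a good radius
  have hev : ∀ᶠ z in 𝓝 z₀, ContDiffAt ℝ 2 φ z ∧ 0 < z.2 ∧ U z - φ z ≤ U z₀ - φ z₀ := by
    have h1 : ∀ᶠ z in 𝓝 z₀, ContDiffAt ℝ 2 φ z := hφ.eventually (by simp)
    have h2 : ∀ᶠ z : V × ℝ in 𝓝 z₀, 0 < z.2 := (continuous_snd.tendsto z₀).eventually (lt_mem_nhds ht)
    filter_upwards [h1, h2, hmax] with z a b c using ⟨a, b, c⟩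
  obtain ⟨s₀, hs₀, hball⟩ := Metric.eventually_nhds_iff.1 hev
  set s : ℝ := min (s₀ / 4) (r / 2) with hs
  have hs0 : 0 < s := lt_min (by positivity) (by positivity)
  have hs1 : s ≤ s₀ / 4 := min_le_left _ _
  have hs2 : s ≤ r / 2 := min_le_right _ _
  set N := Metric.closedBall z₀ s with hN
  have hNr : N ⊆ Metric.closedBall z₀ r := Metric.closedBall_subset_closedBall (by linarith)
  have hφc : ContinuousOn φ (Metric.closedBall z₀ (2 * s)) := by
    intro z hz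
    rw [Metric.mem_closedBall] at hz
    exact (hball (by linarith)).1.continuousAt.continuousWithinAt
  have hφu : UniformContinuousOn φ (Metric.closedBall z₀ (2 * s)) :=
    (isCompact_closedBall z₀ (2 * s)).uniformContinuousOn_of_continuous hφc
  rw [Metric.uniformContinuousOn_iff] at hφu
  -- choose approximations
  have hstep : ∀ n : ℕ, ∃ y ∈ N, ∃ w : V × ℝ → ℝ, ViscSub f w ∧ (∀ z ∈ N, w z - ψ z ≤ w y - ψ y) ∧
      bump z₀ y ≤ 1 / ((n : ℝ) + 1) := by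
    intro n
    have hn : 0 < 1 / ((n : ℝ) + 1) := by positivity
    set κ : ℝ := 1 / ((n : ℝ) + 1) with hκ
    obtain ⟨d, hd, hφd⟩ := hφu (κ / 8) (by positivity)
    have hbc : ∀ᶠ z in 𝓝 z₀, bump z₀ z < κ / 4 := by
      have := (bump_contDiff z₀).continuous.tendsto z₀
      rw [bump_self] at this
      exact this.eventually (gt_mem_nhds (by positivity))
    obtain ⟨d', hd', hbd⟩ := Metric.eventually_nhds_iff.1 hbc
    set ε : ℝ := min (min d d') (min s (κ / 8)) with hε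
    have hε0 : 0 < ε := lt_min (lt_min hd hd') (lt_min hs0 (by positivity))
    have hε1 : ε ≤ d := (min_le_left _ _).trans (min_le_left _ _)
    have hε2 : ε ≤ d' := (min_le_left _ _).trans (min_le_right _ _)
    have hε3 : ε ≤ s := (min_le_right _ _).trans (min_le_left _ _)
    have hε4 : ε ≤ κ / 8 := (min_le_right _ _).trans (min_le_right _ _)
    obtain ⟨w, hw1, hw2, ⟨z, hz1, hz2⟩, hw3⟩ := happ ε hε0
    have hcN : UpperSemicontinuousOn (fun z => w z + -ψ z) N := by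
      refine (hw2.mono hNr).add ?_
      refine ContinuousOn.upperSemicontinuousOn ?_
      refine ContinuousOn.neg ?_
      refine (hφc.mono (Metric.closedBall_subset_closedBall (by linarith))).add ?_
      exact (continuous_const.mul (bump_contDiff z₀).continuous).continuousOn
    obtain ⟨y, hyN, hymax⟩ := hcN.exists_isMaxOn ⟨z₀, Metric.mem_closedBall_self hs0.le⟩ (isCompact_closedBall z₀ s)
    have hymax' : ∀ z ∈ N, w z - ψ z ≤ w y - ψ y := by
      intro z hz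
      have := hymax hz
      simp only [mem_setOf_eq] at this
      linarith
    refine ⟨y, hyN, w, hw1, hymax', ?_⟩
    have hzN : z ∈ N := by rw [hN, Metric.mem_closedBall]; linarith
    obtain ⟨z', hz'1, hz'2⟩ := hw3 y (hNr hyN)
    have hyN' : dist y z₀ ≤ s := hyN
    have hz'3 : dist z' z₀ ≤ 2 * s := (dist_triangle z' y z₀).trans (by linarith)
    have hU := (hball (show dist z' z₀ < s₀ by linarith)).2.2
    have h1 := hymax' z hzN
    have h2 : |φ z' - φ y| < κ / 8 := by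
      have := hφd z' (by rwa [Metric.mem_closedBall]) y (by rw [Metric.mem_closedBall]; linarith) (by linarith)
      rwa [Real.dist_eq] at this
    have h3 : |φ z - φ z₀| < κ / 8 := by
      have := hφd z (by rw [Metric.mem_closedBall]; linarith) z₀ (Metric.mem_closedBall_self (by linarith))
        (by linarith)
      rwa [Real.dist_eq] at this
    have h4 := hbd (show dist z z₀ < d' by linarith)
    have h5 := (abs_lt.1 h2).2
    have h6 := (abs_lt.1 h3).2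
    simp only [hψ] at h1
    linarith
  choose y hyN w hw1 hw2 hw3 using hstep
  have hbt : Tendsto (fun n => bump z₀ (y n)) atTop (𝓝 0) :=
    squeeze_zero (fun n => bump_nonneg _ _) hw3 tendsto_one_div_add_atTop_nhds_zero_nat
  have hyt : Tendsto y atTop (𝓝 z₀) := bump_tendsto hbt
  rw [← e1, ← e2, ← e3]
  refine LSub_closed (l := atTop) (g := fun n => f (y n).1) (a := fun n => dt ψ (y n)) (p := fun n => dx ψ (y n))
    (X := fun n => dxx ψ (y n)) ?_ ?_ ?_ ?_ ?_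
  · exact ((hf.comp continuous_fst).tendsto z₀).comp hyt
  · exact (dt_cont hψC).tendsto.comp hyt
  · exact (dx_cont hψC).tendsto.comp hyt
  · exact (dxx_cont hψC).tendsto.comp hyt
  · have h1 : ∀ᶠ n in atTop, y n ∈ Metric.ball z₀ s := hyt.eventually (Metric.ball_mem_nhds z₀ hs0)
    filter_upwards [h1] with n hn
    have h2 := hball (show dist (y n) z₀ < s₀ by rw [Metric.mem_ball] at hn; linarith)
    refine hw1 n ψ (y n) (h2.1.add (contDiffAt_const.mul (bump_contDiff z₀).contDiffAt)) h2.2.1 ?_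
    filter_upwards [Metric.isOpen_ball.mem_nhds hn] with z hz
    exact hw2 n z (Metric.ball_subset_closedBall hz)

end Pool.Agent.VSC
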