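import Pool.Agent.VSC.Conv

/-!
# The quartic majorant and the jets at a minimum point of the penalised function
-/

namespace Pool.Agent.VSC

theorem quartic_le (z w : V) : ‖z + w‖ ^ 4 ≤ ‖z‖ ^ 4 + (4 * ‖z‖ ^ 2 * inner ℝ z w
    + 6 * ‖z‖ ^ 2 * ‖w‖ ^ 2 + 4 * ‖z‖ * ‖w‖ ^ 3 + ‖w‖ ^ 4) := by
  have h1 : ‖z + w‖ ^ 4 = (‖z + w‖ ^ 2) ^ 2 := by ring
  have h2 := abs_real_inner_le_norm z w
  set i : ℝ := inner ℝ z w with hi
  set n := ‖z‖ with hn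
  set m := ‖w‖ with hm
  have hn0 : 0 ≤ n := norm_nonneg _
  have hm0 : 0 ≤ m := norm_nonneg _
  have h3 : i ^ 2 ≤ (n * m) ^ 2 := sq_le_sq' (by linarith [neg_abs_le i]) (le_trans (le_abs_self _) h2)
  have h4 : i * m ^ 2 ≤ n * m * m ^ 2 :=
    mul_le_mul_of_nonneg_right (le_trans (le_abs_self _) h2) (by positivity)
  rw [h1, sq_norm_add]
  nlinarith

theorem quartic_major (z w : V) {s θ : ℝ} (hs : |s| ≤ 1) (hz : ‖z‖ ≤ 1) (hw : ‖w‖ ≤ 1)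
    (hθ : 0 < θ) : Real.exp s * ‖z + w‖ ^ 4 ≤ ‖z‖ ^ 4 + s * ‖z‖ ^ 4
      + 4 * ‖z‖ ^ 2 * inner ℝ z w + (6 * ‖z‖ ^ 2 + 4 * ‖w‖ + ‖w‖ ^ 2 + θ) * ‖w‖ ^ 2
      + (1 + 225 / θ) * s ^ 2 := by
  have h1 := quartic_le z w
  have h2 := abs_real_inner_le_norm z w
  have h3 : Real.exp s ≤ 1 + s + s ^ 2 := by
    have := Real.abs_exp_sub_one_sub_id_le hs
    have := (abs_le.1 this).2
    linarith
  have hQ : 0 ≤ ‖z + w‖ ^ 4 := by positivity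
  set Q := ‖z + w‖ ^ 4 with hQdef
  set i : ℝ := inner ℝ z w with hi
  set n := ‖z‖ with hn
  set m := ‖w‖ with hm
  have hn0 : 0 ≤ n := norm_nonneg _
  have hm0 : 0 ≤ m := norm_nonneg _
  set A := 4 * n ^ 2 * i + 6 * n ^ 2 * m ^ 2 + 4 * n * m ^ 3 + m ^ 4 with hA
  have hi1 : |i| ≤ m := by
    refine h2.trans ?_
    nlinarith
  have hn2 : n ^ 2 ≤ 1 := by nlinarith
  have hm2 : m ^ 2 ≤ m := by nlinarith
  have hm3 : m ^ 3 ≤ m ^ 2 := by nlinarith [mul_nonneg (sq_nonneg m) (sub_nonneg.2 hw)]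
  have hm4 : m ^ 4 ≤ m ^ 3 := by nlinarith [mul_nonneg (pow_nonneg hm0 3) (sub_nonneg.2 hw)]
  have hAbs : |A| ≤ 15 * m := by
    have e1 : |4 * n ^ 2 * i| ≤ 4 * m := by
      rw [abs_mul, abs_of_nonneg (by positivity)]
      have : n ^ 2 * |i| ≤ 1 * m := mul_le_mul hn2 hi1 (abs_nonneg _) zero_le_one
      linarith
    have e2 : 0 ≤ 6 * n ^ 2 * m ^ 2 := by positivity
    have e3 : 6 * n ^ 2 * m ^ 2 ≤ 6 * m := by
      have : n ^ 2 * m ^ 2 ≤ 1 * m := mul_le_mul hn2 hm2 (sq_nonneg _) zero_le_one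
      linarith
    have e4 : 0 ≤ 4 * n * m ^ 3 := by positivity
    have e5 : 4 * n * m ^ 3 ≤ 4 * m := by
      have : n * m ^ 3 ≤ 1 * m := mul_le_mul hz (by linarith) (by positivity) zero_le_one
      linarith
    have e6 : 0 ≤ m ^ 4 := by positivity
    have e7 : m ^ 4 ≤ m := by linarith
    rw [abs_le] at e1 ⊢
    constructor <;> linarith [e1.1, e1.2]
  have h5 : 0 < 1 + s + s ^ 2 := by nlinarith [sq_nonneg (s + 1 / 2)]
  have h6 : Real.exp s * Q ≤ (1 + s + s ^ 2) * (n ^ 4 + A) := by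
    calc Real.exp s * Q ≤ (1 + s + s ^ 2) * Q := mul_le_mul_of_nonneg_right h3 hQ
      _ ≤ (1 + s + s ^ 2) * (n ^ 4 + A) := mul_le_mul_of_nonneg_left h1 h5.le
  have h7 : (s + s ^ 2) * A ≤ 30 * (|s| * m) := by
    have e1 : |s + s ^ 2| ≤ 2 * |s| := by
      have : s + s ^ 2 = s * (1 + s) := by ring
      rw [this, abs_mul]
      have h8 : |1 + s| ≤ 2 := by
        rw [abs_le] at hs ⊢
        constructor <;> linarith [hs.1, hs.2]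
      nlinarith [abs_nonneg s]
    calc (s + s ^ 2) * A ≤ |(s + s ^ 2) * A| := le_abs_self _
      _ = |s + s ^ 2| * |A| := abs_mul _ _
      _ ≤ (2 * |s|) * (15 * m) := mul_le_mul e1 hAbs (abs_nonneg _) (by positivity)
      _ = 30 * (|s| * m) := by ring
  have h8 : 30 * (|s| * m) ≤ θ * m ^ 2 + 225 / θ * s ^ 2 := by
    have e1 : 0 ≤ (θ * m - 15 * |s|) ^ 2 / θ := by positivity
    have e2 : (θ * m - 15 * |s|) ^ 2 / θ = θ * m ^ 2 - 30 * (|s| * m) + 225 / θ * |s| ^ 2 := by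
      field_simp
      ring
    rw [e2, sq_abs] at e1
    linarith
  have h9 : s ^ 2 * n ^ 4 ≤ s ^ 2 := by
    have : n ^ 4 ≤ 1 := pow_le_one₀ hn0 hz
    nlinarith [sq_nonneg s]
  have h10 : n * m ^ 3 ≤ m ^ 3 := by nlinarith [mul_nonneg (pow_nonneg hm0 3) (sub_nonneg.2 hz)]
  nlinarith

/-- The penalised function. -/
noncomputable def Phi (L γ κ : ℝ) (x : V) (t : ℝ) (y : V) (s : ℝ) : ℝ :=
  Real.exp (4 * L * t) * ‖x - y‖ ^ 4 + (t - s) ^ 2 + γ * t + κ * (‖x‖ ^ 2 + ‖y‖ ^ 2)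

/-- Quadratic majorant of the penalised function. -/
theorem phi_major {L γ κ : ℝ} (hL : 0 ≤ L) (hκ : 0 < κ) {xh yh : V} {th sh : ℝ}
    (hz : ‖xh - yh‖ ≤ 1) {r : ℝ} (hr1 : 4 * L * r ≤ 1) (hr2 : 2 * r ≤ 1)
    (hr3 : 20 * Real.exp (4 * L * th) * r ≤ κ) {x y : V} {t s : ℝ}
    (hx : ‖x - xh‖ ≤ r) (hy : ‖y - yh‖ ≤ r) (ht : |t - th| ≤ r) :
    Phi L γ κ x t y s ≤ Phi L γ κ xh th yh sh
      + ((4 * L * Real.exp (4 * L * th) * ‖xh - yh‖ ^ 4 + 2 * (th - sh) + γ) * (t - th)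
          + inner ℝ ((4 * Real.exp (4 * L * th) * ‖xh - yh‖ ^ 2) • (xh - yh)
              + (2 * κ) • xh) (x - xh))
      + ((-(2 * (th - sh))) * (s - sh)
          + inner ℝ (-((4 * Real.exp (4 * L * th) * ‖xh - yh‖ ^ 2) • (xh - yh))
              + (2 * κ) • yh) (y - yh))
      + (1 / 2) * ((12 * Real.exp (4 * L * th) * ‖xh - yh‖ ^ 2 + 2 * κ)
            * ‖(x - xh) - (y - yh)‖ ^ 2
          + (2 * κ) * (‖x - xh‖ ^ 2 + ‖y - yh‖ ^ 2)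
          + 2 * (16 * L ^ 2 * (Real.exp (4 * L * th)
            + 450 * Real.exp (4 * L * th) ^ 2 / κ) + 2) * (t - th) ^ 2
          + 2 * 2 * (s - sh) ^ 2) := by
  set g := Real.exp (4 * L * th) with hg
  have hgpos : 0 < g := Real.exp_pos _
  set z := xh - yh with hzdef
  set w := (x - xh) - (y - yh) with hwdef
  have hxy : x - y = z + w := by rw [hzdef, hwdef]; abel
  have hw : ‖w‖ ≤ 2 * r := by
    calc ‖w‖ ≤ ‖x - xh‖ + ‖y - yh‖ := norm_sub_le _ _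
      _ ≤ 2 * r := by linarith
  have hw1 : ‖w‖ ≤ 1 := hw.trans hr2
  have hexp : Real.exp (4 * L * t) = g * Real.exp (4 * L * (t - th)) := by
    rw [hg, ← Real.exp_add]; congr 1; ring
  have hs1 : |4 * L * (t - th)| ≤ 1 := by
    rw [abs_mul, abs_of_nonneg (by positivity)]
    have : 4 * L * |t - th| ≤ 4 * L * r := mul_le_mul_of_nonneg_left ht (by positivity)
    linarith
  have hθ : 0 < κ / (2 * g) := by positivity
  have h1 := quartic_major z w hs1 hz hw1 hθ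
  have h2 := mul_le_mul_of_nonneg_left h1 hgpos.le
  -- the coefficient of the quadratic term
  have h3 : g * (4 * ‖w‖ + ‖w‖ ^ 2 + κ / (2 * g)) ≤ κ := by
    have e1 : g * (κ / (2 * g)) = κ / 2 := by field_simp
    have e2 : ‖w‖ ^ 2 ≤ ‖w‖ := by nlinarith [norm_nonneg w]
    have e3 : g * (5 * ‖w‖) ≤ κ / 2 := by
      have : g * (5 * ‖w‖) ≤ g * (5 * (2 * r)) :=
        mul_le_mul_of_nonneg_left (by linarith) hgpos.le
      linarith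
    have e4 : g * (4 * ‖w‖ + ‖w‖ ^ 2) ≤ g * (5 * ‖w‖) :=
      mul_le_mul_of_nonneg_left (by linarith) hgpos.le
    nlinarith
  have h4 : g * (4 * ‖w‖ + ‖w‖ ^ 2 + κ / (2 * g)) * ‖w‖ ^ 2 ≤ κ * ‖w‖ ^ 2 :=
    mul_le_mul_of_nonneg_right h3 (sq_nonneg _)
  have h5 : g * ((1 + 225 / (κ / (2 * g))) * (4 * L * (t - th)) ^ 2)
      = 16 * L ^ 2 * (g + 450 * g ^ 2 / κ) * (t - th) ^ 2 := by
    field_simp
    ring
  have h6 : (t - s) ^ 2 ≤ (th - sh) ^ 2 + 2 * (th - sh) * ((t - th) - (s - sh))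
      + 2 * (t - th) ^ 2 + 2 * (s - sh) ^ 2 := by
    nlinarith [sq_nonneg ((t - th) + (s - sh))]
  have h7 : ‖x‖ ^ 2 = ‖xh‖ ^ 2 + 2 * inner ℝ xh (x - xh) + ‖x - xh‖ ^ 2 := by
    rw [← sq_norm_add]; congr 2; abel
  have h8 : ‖y‖ ^ 2 = ‖yh‖ ^ 2 + 2 * inner ℝ yh (y - yh) + ‖y - yh‖ ^ 2 := by
    rw [← sq_norm_add]; congr 2; abel
  have h9 : inner ℝ z w = (inner ℝ z (x - xh) : ℝ) - inner ℝ z (y - yh) := by
    rw [hwdef, inner_sub_right]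
  unfold Phi
  rw [hxy, hexp, inner_add_left, inner_add_left, inner_neg_left, real_inner_smul_left,
    real_inner_smul_left, real_inner_smul_left, real_inner_smul_left, h7, h8]
  have h10 : g * Real.exp (4 * L * (t - th)) * ‖z + w‖ ^ 4
      = g * (Real.exp (4 * L * (t - th)) * ‖z + w‖ ^ 4) := by ring
  rw [h10]
  have h11 : g * (‖z‖ ^ 4 + 4 * L * (t - th) * ‖z‖ ^ 4 + 4 * ‖z‖ ^ 2 * inner ℝ z w
      + (6 * ‖z‖ ^ 2 + 4 * ‖w‖ + ‖w‖ ^ 2 + κ / (2 * g)) * ‖w‖ ^ 2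
      + (1 + 225 / (κ / (2 * g))) * (4 * L * (t - th)) ^ 2)
      = g * ‖z‖ ^ 4 + 4 * L * g * ‖z‖ ^ 4 * (t - th) + 4 * g * ‖z‖ ^ 2 * inner ℝ z w
        + 6 * g * ‖z‖ ^ 2 * ‖w‖ ^ 2 + g * (4 * ‖w‖ + ‖w‖ ^ 2 + κ / (2 * g)) * ‖w‖ ^ 2
        + g * ((1 + 225 / (κ / (2 * g))) * (4 * L * (t - th)) ^ 2) := by ring
  rw [h11, h5, h9] at h2
  linarith

end Pool.Agent.VSC
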