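import Pool.Agent.VSC.Major
import Pool.Agent.VSC.Sum

/-!
# Jets near a minimum point of the penalised function
-/

namespace Pool.Agent.VSC

open Metric

/-- The pull back of the inner product. -/
noncomputable def bil {E H : Type*} [NormedAddCommGroup E] [NormedSpace ℝ E]
    [NormedAddCommGroup H] [InnerProductSpace ℝ H] (A : E →L[ℝ] H) : E →L[ℝ] E →L[ℝ] ℝ :=
  (innerSL ℝ : H →L[ℝ] H →L[ℝ] ℝ).bilinearComp A A

theorem bil_apply {E H : Type*} [NormedAddCommGroup E] [NormedSpace ℝ E]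
    [NormedAddCommGroup H] [InnerProductSpace ℝ H] (A : E →L[ℝ] H) (u v : E) :
    bil A u v = inner ℝ (A u) (A v) := rfl

/-- The Hessian of the majorant. -/
noncomputable def hessB (c κ C1 C2 : ℝ) :
    ((V × ℝ) × (V × ℝ)) →L[ℝ] ((V × ℝ) × (V × ℝ)) →L[ℝ] ℝ :=
  c • bil ((ContinuousLinearMap.fst ℝ V ℝ).comp (ContinuousLinearMap.fst ℝ (V × ℝ) (V × ℝ))
      - (ContinuousLinearMap.fst ℝ V ℝ).comp (ContinuousLinearMap.snd ℝ (V × ℝ) (V × ℝ)))
    + (2 * κ) • bil ((ContinuousLinearMap.fst ℝ V ℝ).comp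
        (ContinuousLinearMap.fst ℝ (V × ℝ) (V × ℝ)))
    + (2 * κ) • bil ((ContinuousLinearMap.fst ℝ V ℝ).comp
        (ContinuousLinearMap.snd ℝ (V × ℝ) (V × ℝ)))
    + (2 * C1) • bil ((ContinuousLinearMap.snd ℝ V ℝ).comp
        (ContinuousLinearMap.fst ℝ (V × ℝ) (V × ℝ)))
    + (2 * C2) • bil ((ContinuousLinearMap.snd ℝ V ℝ).comp
        (ContinuousLinearMap.snd ℝ (V × ℝ) (V × ℝ)))

theorem hessB_apply (c κ C1 C2 : ℝ) (u v : (V × ℝ) × (V × ℝ)) :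
    hessB c κ C1 C2 u v = c * inner ℝ (u.1.1 - u.2.1) (v.1.1 - v.2.1)
      + 2 * κ * inner ℝ u.1.1 v.1.1 + 2 * κ * inner ℝ u.2.1 v.2.1
      + 2 * C1 * inner ℝ u.1.2 v.1.2 + 2 * C2 * inner ℝ u.2.2 v.2.2 := rfl

theorem hessB_symm (c κ C1 C2 : ℝ) (u v : (V × ℝ) × (V × ℝ)) :
    hessB c κ C1 C2 u v = hessB c κ C1 C2 v u := by
  rw [hessB_apply, hessB_apply, real_inner_comm (v.1.1 - v.2.1), real_inner_comm v.1.1,
    real_inner_comm v.2.1, real_inner_comm v.1.2, real_inner_comm v.2.2]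

theorem hessB_self (c κ C1 C2 : ℝ) (u : (V × ℝ) × (V × ℝ)) :
    hessB c κ C1 C2 u u = c * ‖u.1.1 - u.2.1‖ ^ 2
      + 2 * κ * (‖u.1.1‖ ^ 2 + ‖u.2.1‖ ^ 2) + 2 * C1 * u.1.2 ^ 2 + 2 * C2 * u.2.2 ^ 2 := by
  rw [hessB_apply]
  simp only [real_inner_self_eq_norm_sq, Real.norm_eq_abs, sq_abs]
  ring

/-- The linear functional with given time and space components. -/
noncomputable def lin (a : ℝ) (p : V) : (V × ℝ) →L[ℝ] ℝ :=
  a • ContinuousLinearMap.snd ℝ V ℝ + (innerSL ℝ p).comp (ContinuousLinearMap.fst ℝ V ℝ)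

theorem lin_apply (a : ℝ) (p x : V) (t : ℝ) : lin a p (x, t) = a * t + inner ℝ p x := rfl

theorem grad_lin (a : ℝ) (p : V) : grad (lin a p) = p := by
  refine ext_inner_right ℝ fun v => ?_
  rw [inner_grad, lin_apply]
  ring

/-- Jets near a minimum point. -/
theorem jets_at_min {L γ κ : ℝ} (hL : 0 ≤ L) (hκ : 0 < κ) {S K : Set (V × ℝ)}
    (hS : IsClosed S) (hK : IsClosed K) {xh yh : V} {th sh : ℝ} (hx : (xh, th) ∈ S)
    (hy : (yh, sh) ∈ K) (hz : ‖xh - yh‖ ≤ 1)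
    (hmin : ∀ x t y s, (x, t) ∈ S → (y, s) ∈ K → Phi L γ κ xh th yh sh ≤ Phi L γ κ x t y s)
    {δ : ℝ} (hδ : 0 < δ) :
    ∃ (x : V) (t : ℝ) (y : V) (s a b : ℝ) (p q : V) (X Y : V →L[ℝ] V →L[ℝ] ℝ),
      (x, t) ∈ S ∧ (y, s) ∈ K ∧ ‖x - xh‖ < δ ∧ |t - th| < δ ∧ ‖y - yh‖ < δ ∧ |s - sh| < δ ∧
      |a - (4 * L * Real.exp (4 * L * th) * ‖xh - yh‖ ^ 4 + 2 * (th - sh) + γ)| < δ ∧
      |b - (-(2 * (th - sh)))| < δ ∧
      ‖p - ((4 * Real.exp (4 * L * th) * ‖xh - yh‖ ^ 2) • (xh - yh) + (2 * κ) • xh)‖ < δ ∧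
      ‖q - (-((4 * Real.exp (4 * L * th) * ‖xh - yh‖ ^ 2) • (xh - yh)) + (2 * κ) • yh)‖ < δ ∧
      LowJet S x t a p X ∧ LowJet K y s b q Y ∧
      ∀ h h' : V, X h h + Y h' h' ≤
        (12 * Real.exp (4 * L * th) * ‖xh - yh‖ ^ 2 + 2 * κ) * ‖h - h'‖ ^ 2
          + (2 * κ + δ) * (‖h‖ ^ 2 + ‖h'‖ ^ 2) := by
  set g := Real.exp (4 * L * th) with hg
  have hgpos : 0 < g := Real.exp_pos _
  obtain ⟨r, hr, hr1, hr2, hr3⟩ : ∃ r : ℝ, 0 < r ∧ 4 * L * r ≤ 1 ∧ 2 * r ≤ 1 ∧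
      20 * g * r ≤ κ := by
    refine ⟨min (min (1 / (4 * L + 1)) (1 / 2)) (κ / (20 * g)),
      lt_min (lt_min (by positivity) (by norm_num)) (by positivity), ?_, ?_, ?_⟩
    · have h1 : min (min (1 / (4 * L + 1)) (1 / 2)) (κ / (20 * g)) ≤ 1 / (4 * L + 1) :=
        le_trans (min_le_left _ _) (min_le_left _ _)
      rw [le_div_iff₀ (by positivity)] at h1
      have h0 : 0 < min (min (1 / (4 * L + 1)) (1 / 2)) (κ / (20 * g)) :=
        lt_min (lt_min (by positivity) (by norm_num)) (by positivity)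
      nlinarith
    · have h1 : min (min (1 / (4 * L + 1)) (1 / 2)) (κ / (20 * g)) ≤ 1 / 2 :=
        le_trans (min_le_left _ _) (min_le_right _ _)
      linarith
    · have h1 := min_le_right (min (1 / (4 * L + 1)) (1 / 2)) (κ / (20 * g))
      rw [le_div_iff₀ (by positivity)] at h1
      linarith
  set a0 := 4 * L * g * ‖xh - yh‖ ^ 4 + 2 * (th - sh) + γ with ha0
  set b0 := -(2 * (th - sh)) with hb0
  set p0 : V := (4 * g * ‖xh - yh‖ ^ 2) • (xh - yh) + (2 * κ) • xh with hp0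
  set q0 : V := -((4 * g * ‖xh - yh‖ ^ 2) • (xh - yh)) + (2 * κ) • yh with hq0
  set c := 12 * g * ‖xh - yh‖ ^ 2 + 2 * κ with hc
  set C1 := 16 * L ^ 2 * (g + 450 * g ^ 2 / κ) + 2 with hC1
  have hcomp1 : IsCompact (S ∩ closedBall (xh, th) r) := (isCompact_closedBall _ _).inter_left hS
  have hcomp2 : IsCompact (K ∩ closedBall (yh, sh) r) := (isCompact_closedBall _ _).inter_left hK
  have hball : ∀ (x y : V) (t s : ℝ), (x, t) ∈ closedBall (y, s) r → ‖x - y‖ ≤ r ∧ |t - s| ≤ r := by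
    intro x y t s h
    rw [mem_closedBall_iff_norm] at h
    have e1 : ((x, t) : V × ℝ) - (y, s) = (x - y, t - s) := rfl
    rw [e1, Prod.norm_def] at h
    exact ⟨le_trans (le_max_left _ _) h, le_trans (le_max_right _ _) h⟩
  have hnd : ∀ (x y : V) (t s d : ℝ), ‖((x, t) : V × ℝ) - (y, s)‖ < d → ‖x - y‖ < d ∧ |t - s| < d := by
    intro x y t s d h
    have e1 : ((x, t) : V × ℝ) - (y, s) = (x - y, t - s) := rfl
    rw [e1, Prod.norm_def] at h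
    exact ⟨lt_of_le_of_lt (le_max_left _ _) h, lt_of_le_of_lt (le_max_right _ _) h⟩
  obtain ⟨⟨x, t⟩, hxK, ⟨y, s⟩, hyK, p, q, X, Y, hxn, hyn, hpn, hqn, hjx, hjy, hXY⟩ :=
    sum_quad hcomp1 hcomp2 (xh := (xh, th)) (yh := (yh, sh))
      ⟨hx, mem_closedBall_self hr.le⟩ ⟨hy, mem_closedBall_self hr.le⟩ (lin a0 p0) (lin b0 q0)
      (hessB c κ C1 2) (by
        rintro ⟨x, t⟩ ⟨hxS, hxb⟩ ⟨y, s⟩ ⟨hyS, hyb⟩
        obtain ⟨h1, h2⟩ := hball _ _ _ _ hxb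
        obtain ⟨h3, h4⟩ := hball _ _ _ _ hyb
        have h5 := phi_major (γ := γ) (sh := sh) (s := s) hL hκ hz hr1 hr2 hr3 h1 h3 h2
        have h6 := hmin x t y s hxS hyS
        have e1 : ((x, t) : V × ℝ) - (xh, th) = (x - xh, t - th) := rfl
        have e2 : ((y, s) : V × ℝ) - (yh, sh) = (y - yh, s - sh) := rfl
        rw [e1, e2, lin_apply, lin_apply, hessB_self]
        simp only
        linarith) (de := min δ r) (lt_min hδ hr)
  have hd1 : ‖((x, t) : V × ℝ) - (xh, th)‖ < δ := lt_of_lt_of_le hxn (min_le_left _ _)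
  have hd2 : ‖((x, t) : V × ℝ) - (xh, th)‖ < r := lt_of_lt_of_le hxn (min_le_right _ _)
  have hd3 : ‖((y, s) : V × ℝ) - (yh, sh)‖ < δ := lt_of_lt_of_le hyn (min_le_left _ _)
  have hd4 : ‖((y, s) : V × ℝ) - (yh, sh)‖ < r := lt_of_lt_of_le hyn (min_le_right _ _)
  have hp1 : ‖p - lin a0 p0‖ < δ := lt_of_lt_of_le hpn (min_le_left _ _)
  have hq1 : ‖q - lin b0 q0‖ < δ := lt_of_lt_of_le hqn (min_le_left _ _)
  have htime : ∀ (p : (V × ℝ) →L[ℝ] ℝ) (a : ℝ) (v : V), ‖p - lin a v‖ < δ →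
      |p (0, 1) - a| < δ ∧ ‖grad p - v‖ < δ := by
    intro p a v h
    constructor
    · have h1 := (p - lin a v).le_opNorm (0, 1)
      rw [norm_zero_one, mul_one] at h1
      have h2 : (p - lin a v) (0, 1) = p (0, 1) - a := by
        show p (0, 1) - lin a v (0, 1) = _
        rw [lin_apply, inner_zero_right]; ring
      rw [h2] at h1
      exact lt_of_le_of_lt h1 h
    · have h1 := grad_sub_norm p (lin a v)
      rw [grad_lin] at h1
      exact lt_of_le_of_lt h1 h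
  refine ⟨x, t, y, s, p (0, 1), q (0, 1), grad p, grad q, spat X, spat Y, hxK.1, hyK.1,
    (hnd _ _ _ _ _ hd1).1, (hnd _ _ _ _ _ hd1).2, (hnd _ _ _ _ _ hd3).1, (hnd _ _ _ _ _ hd3).2,
    (htime _ _ _ hp1).1, (htime _ _ _ hq1).1, (htime _ _ _ hp1).2, (htime _ _ _ hq1).2,
    ?_, ?_, ?_⟩
  · refine lowJet_of_jet (r0 := r - ‖((x, t) : V × ℝ) - (xh, th)‖) (by linarith) ?_ hjx
    intro z hzS hzn
    refine ⟨hzS, ?_⟩
    rw [mem_closedBall_iff_norm]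
    have : z - (xh, th) = (z - (x, t)) + ((x, t) - (xh, th)) := by abel
    rw [this]
    refine (norm_add_le _ _).trans ?_
    linarith
  · refine lowJet_of_jet (r0 := r - ‖((y, s) : V × ℝ) - (yh, sh)‖) (by linarith) ?_ hjy
    intro z hzS hzn
    refine ⟨hzS, ?_⟩
    rw [mem_closedBall_iff_norm]
    have : z - (yh, sh) = (z - (y, s)) + ((y, s) - (yh, sh)) := by abel
    rw [this]
    refine (norm_add_le _ _).trans ?_
    linarith
  · intro h h'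
    have h1 := hXY (h, 0) (h', 0)
    rw [hessB_self, norm_pair_zero, norm_pair_zero] at h1
    simp only at h1
    rw [spat_apply, spat_apply]
    have h2 : min δ r * (‖h‖ ^ 2 + ‖h'‖ ^ 2) ≤ δ * (‖h‖ ^ 2 + ‖h'‖ ^ 2) :=
      mul_le_mul_of_nonneg_right (min_le_left _ _) (by positivity)
    linarith

end Pool.Agent.VSC
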