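import Mathlib

/-!
# Second order differentiability of convex functions (towards the theorem on sums)

`f : G → ℝ` convex with a bounded selection `S` of subgradients, `P` its proximal map, `env` its Moreau envelope.
Main result `exists_second_order`: if `f z ≤ f 0 + ½⟪C z, z⟫` then arbitrarily close to `0` there are points with a
second order Taylor expansion of `f` with Hessian `0 ≤ H ≤ C + η`.
-/

open scoped RealInnerProductSpace Topology ENNReal NNReal
open Set MeasureTheory Filter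

noncomputable section

namespace Pool.Agent.VSC

variable {G : Type*} [NormedAddCommGroup G] [InnerProductSpace ℝ G]

/-- `S` is a bounded selection of subgradients of `f`. -/
structure SubG (f : G → ℝ) (S : G → G) : Prop where
  ineq : ∀ x z, f x + ⟪S x, z - x⟫ ≤ f z
  bdd : ∃ Λ, ∀ x, ‖S x‖ ≤ Λ

namespace SubG

variable {f : G → ℝ} {S : G → G}

theorem lip (h : SubG f S) : ∃ Λ : ℝ, 0 ≤ Λ ∧ ∀ x z, f x - Λ * ‖z - x‖ ≤ f z := by
  obtain ⟨Λ, hΛ⟩ := h.bdd
  refine ⟨Λ, (norm_nonneg _).trans (hΛ 0), fun x z => ?_⟩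
  have h1 := h.ineq x z
  have h2 : -(Λ * ‖z - x‖) ≤ ⟪S x, z - x⟫ := by
    have h3 := abs_real_inner_le_norm (S x) (z - x)
    have h4 := neg_abs_le ⟪S x, z - x⟫
    have h5 := mul_le_mul_of_nonneg_right (hΛ x) (norm_nonneg (z - x))
    linarith
  linarith

theorem continuous (h : SubG f S) : Continuous f := by
  obtain ⟨Λ, h0, hΛ⟩ := h.lip
  have hl : LipschitzWith ⟨Λ, h0⟩ f := LipschitzWith.of_dist_le_mul fun x z => by
    rw [Real.dist_eq, dist_eq_norm, abs_le]
    show -(Λ * ‖x - z‖) ≤ f x - f z ∧ f x - f z ≤ Λ * ‖x - z‖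
    have h1 := hΛ x z
    have h2 := hΛ z x
    rw [norm_sub_rev] at h1
    constructor <;> linarith
  exact hl.continuous

theorem conv (h : SubG f S) (x z : G) {τ : ℝ} (h0 : 0 ≤ τ) (h1 : τ ≤ 1) :
    f (x + τ • (z - x)) ≤ (1 - τ) * f x + τ * f z := by
  set w := x + τ • (z - x) with hw
  have a := h.ineq w x
  have b := h.ineq w z
  have e1 : x - w = -(τ • (z - x)) := by rw [hw]; abel
  have e2 : z - w = (1 - τ) • (z - x) := by rw [hw, sub_smul, one_smul]; abel
  rw [e1, inner_neg_right, inner_smul_right] at a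
  rw [e2, inner_smul_right] at b
  nlinarith [mul_le_mul_of_nonneg_left a (sub_nonneg.2 h1), mul_le_mul_of_nonneg_left b h0]

variable [FiniteDimensional ℝ G]

theorem exists_prox (h : SubG f S) (y : G) : ∃ x, ∀ z, f x + ⟪y - x, z - x⟫ ≤ f z := by
  obtain ⟨Λ, h0, hΛ⟩ := h.lip
  set g : G → ℝ := fun z => f z + 1 / 2 * ‖z - y‖ ^ 2 with hg
  have hgc : Continuous g := h.continuous.add (by fun_prop)
  obtain ⟨x, hx, hmin⟩ := (isCompact_closedBall y (2 * Λ + 1)).exists_isMinOn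
    ⟨y, Metric.mem_closedBall_self (by positivity)⟩ hgc.continuousOn
  have hmin' : ∀ z, g x ≤ g z := by
    intro z
    by_cases hz : z ∈ Metric.closedBall y (2 * Λ + 1)
    · exact hmin hz
    · have h1 : g x ≤ g y := hmin (Metric.mem_closedBall_self (by positivity))
      refine h1.trans ?_
      rw [Metric.mem_closedBall, dist_eq_norm, not_le] at hz
      have h2 := hΛ y z
      simp only [hg, sub_self, norm_zero]
      nlinarith [norm_nonneg (z - y)]
  refine ⟨x, fun z => ?_⟩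
  -- use the minimality along the segment
  have key : ∀ τ ∈ Ioo (0 : ℝ) 1, f x + ⟪y - x, z - x⟫ ≤ f z + τ / 2 * ‖z - x‖ ^ 2 := by
    intro τ hτ
    have a := hmin' (x + τ • (z - x))
    have b := h.conv x z hτ.1.le hτ.2.le
    simp only [hg] at a
    have e1 : ‖x + τ • (z - x) - y‖ ^ 2 = ‖x - y‖ ^ 2 + 2 * (τ * ⟪x - y, z - x⟫) + τ ^ 2 * ‖z - x‖ ^ 2 := by
      have : x + τ • (z - x) - y = (x - y) + τ • (z - x) := by abel
      rw [this, norm_add_sq_real, inner_smul_right, norm_smul, mul_pow, Real.norm_eq_abs, sq_abs]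
    rw [e1] at a
    have e2 : ⟪y - x, z - x⟫ = -⟪x - y, z - x⟫ := by rw [← inner_neg_left]; congr 1; abel
    rw [e2]
    have h3 : 0 ≤ τ * (f z - f x + ⟪x - y, z - x⟫ + τ / 2 * ‖z - x‖ ^ 2) := by nlinarith
    have h4 := nonneg_of_mul_nonneg_right h3 hτ.1
    linarith
  have hlim : Tendsto (fun τ : ℝ => f z + τ / 2 * ‖z - x‖ ^ 2) (𝓝[>] 0) (𝓝 (f z)) := by
    have : Tendsto (fun τ : ℝ => f z + τ / 2 * ‖z - x‖ ^ 2) (𝓝 0) (𝓝 (f z + 0 / 2 * ‖z - x‖ ^ 2)) :=
      (by fun_prop : Continuous fun τ : ℝ => f z + τ / 2 * ‖z - x‖ ^ 2).tendsto 0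
    simp only [zero_div, zero_mul, add_zero] at this
    exact this.mono_left nhdsWithin_le_nhds
  refine ge_of_tendsto hlim ?_
  filter_upwards [Ioo_mem_nhdsGT (zero_lt_one (α := ℝ))] with τ hτ
  exact key τ hτ

end SubG

/-- The proximal map. -/
def prox [FiniteDimensional ℝ G] {f : G → ℝ} {S : G → G} (h : SubG f S) (y : G) : G := (h.exists_prox y).choose

/-- The Moreau envelope. -/
def env [FiniteDimensional ℝ G] {f : G → ℝ} {S : G → G} (h : SubG f S) (y : G) : ℝ :=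
  f (prox h y) + 1 / 2 * ‖prox h y - y‖ ^ 2

section

variable [FiniteDimensional ℝ G] {f : G → ℝ} {S : G → G} (h : SubG f S)
include h

theorem prox_spec (y z : G) : f (prox h y) + ⟪y - prox h y, z - prox h y⟫ ≤ f z :=
  (h.exists_prox y).choose_spec z

theorem prox_mono {x x' y y' : G} (h1 : ∀ z, f x + ⟪y - x, z - x⟫ ≤ f z) (h2 : ∀ z, f x' + ⟪y' - x', z - x'⟫ ≤ f z) :
    ‖x - x'‖ ^ 2 ≤ ⟪y - y', x - x'⟫ := by
  have a := h1 x'
  have b := h2 x
  have e1 : ⟪y - x, x' - x⟫ = -⟪y - x, x - x'⟫ := by rw [← inner_neg_right]; congr 1; abel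
  have e2 : ⟪y - y', x - x'⟫ = ⟪y - x, x - x'⟫ - ⟪y' - x', x - x'⟫ + ⟪x - x', x - x'⟫ := by
    rw [← inner_sub_left, ← inner_add_left]
    congr 1
    abel
  rw [e2, real_inner_self_eq_norm_sq]
  rw [e1] at a
  linarith

theorem prox_unique {x y : G} (h1 : ∀ z, f x + ⟪y - x, z - x⟫ ≤ f z) : prox h y = x := by
  have := prox_mono h (prox_spec h y) h1
  rw [sub_self, inner_zero_left] at this
  have h2 : ‖prox h y - x‖ = 0 := by
    have := norm_nonneg (prox h y - x)
    nlinarith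
  rwa [norm_eq_zero, sub_eq_zero] at h2

theorem prox_lip (y y' : G) : ‖prox h y - prox h y'‖ ≤ ‖y - y'‖ := by
  have h1 := prox_mono h (prox_spec h y) (prox_spec h y')
  have h2 := real_inner_le_norm (y - y') (prox h y - prox h y')
  rcases (norm_nonneg (prox h y - prox h y')).eq_or_lt with h3 | h3
  · rw [← h3]; exact norm_nonneg _
  · have : ‖prox h y - prox h y'‖ * ‖prox h y - prox h y'‖ ≤ ‖y - y'‖ * ‖prox h y - prox h y'‖ := by
      nlinarith
    exact le_of_mul_le_mul_right this h3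

theorem env_le (y z : G) : env h y ≤ f z + 1 / 2 * ‖z - y‖ ^ 2 := by
  have h1 := prox_spec h y z
  have e1 : ‖z - y‖ ^ 2 = ‖z - prox h y‖ ^ 2 + 2 * ⟪z - prox h y, prox h y - y⟫ + ‖prox h y - y‖ ^ 2 := by
    have : z - y = (z - prox h y) + (prox h y - y) := by abel
    rw [this, norm_add_sq_real]
  have e2 : ⟪y - prox h y, z - prox h y⟫ = -⟪z - prox h y, prox h y - y⟫ := by
    rw [real_inner_comm, ← inner_neg_right]; congr 1; abel
  rw [env, e1]
  rw [e2] at h1
  nlinarith [sq_nonneg ‖z - prox h y‖]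

/-- Upper and lower quadratic bounds of the envelope. -/
theorem env_bound (y k : G) : |env h (y + k) - env h y - ⟪y - prox h y, k⟫| ≤ 1 / 2 * ‖k‖ ^ 2 := by
  have h1 := env_le h (y + k) (prox h y)
  have h2 := env_le h y (prox h (y + k))
  have e1 : ‖prox h y - (y + k)‖ ^ 2 = ‖prox h y - y‖ ^ 2 + 2 * ⟪y - prox h y, k⟫ + ‖k‖ ^ 2 := by
    have : prox h y - (y + k) = (prox h y - y) - k := by abel
    rw [this, norm_sub_sq_real]
    have : ⟪y - prox h y, k⟫ = -⟪prox h y - y, k⟫ := by rw [← inner_neg_left]; congr 1; abel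
    rw [this]; ring
  have e2 : ‖prox h (y + k) - y‖ ^ 2 =
      ‖prox h (y + k) - (y + k)‖ ^ 2 + 2 * ⟪prox h (y + k) - (y + k), k⟫ + ‖k‖ ^ 2 := by
    have : prox h (y + k) - y = (prox h (y + k) - (y + k)) + k := by abel
    rw [this, norm_add_sq_real]
  have e3 : ⟪prox h (y + k) - (y + k), k⟫ = ⟪prox h (y + k) - prox h y, k⟫ - ⟪y - prox h y, k⟫ - ‖k‖ ^ 2 := by
    rw [← real_inner_self_eq_norm_sq, ← inner_sub_left, ← inner_sub_left]
    congr 1
    abel
  have h3 : ⟪prox h (y + k) - prox h y, k⟫ ≤ ‖k‖ ^ 2 := by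
    have a := real_inner_le_norm (prox h (y + k) - prox h y) k
    have b := prox_lip h (y + k) y
    rw [add_sub_cancel_left] at b
    nlinarith [norm_nonneg k]
  have d1 : env h y = f (prox h y) + 1 / 2 * ‖prox h y - y‖ ^ 2 := rfl
  have d2 : env h (y + k) = f (prox h (y + k)) + 1 / 2 * ‖prox h (y + k) - (y + k)‖ ^ 2 := rfl
  rw [abs_le]
  constructor
  · rw [e2, e3] at h2
    linarith
  · rw [e1] at h1
    linarith

theorem env_deriv (y : G) : HasFDerivAt (env h) (innerSL ℝ (y - prox h y)) y := by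
  rw [hasFDerivAt_iff_isLittleO_nhds_zero]
  refine Asymptotics.IsBigO.trans_isLittleO (g := fun k : G => ‖k‖ ^ 2) ?_ ?_
  · refine Asymptotics.IsBigO.of_bound (1 / 2) (Eventually.of_forall fun k => ?_)
    have h1 := env_bound h y k
    have e : (innerSL ℝ (y - prox h y)) k = ⟪y - prox h y, k⟫ := rfl
    rw [Real.norm_eq_abs, norm_pow, norm_norm, e]
    exact h1
  · have : (fun k : G => ‖k‖ ^ 2) =o[𝓝 0] fun k : G => k := by
      have h1 := Asymptotics.isLittleO_norm_pow_id (E' := G) one_lt_two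
      exact h1
    exact this

/-- Second order expansion of the envelope where the proximal map is differentiable. -/
theorem env_taylor {y : G} {A : G →L[ℝ] G} (hA : HasFDerivAt (prox h) A y) {ε : ℝ} (hε : 0 < ε) :
    ∀ᶠ k in 𝓝 (0 : G), |env h (y + k) - env h y - ⟪y - prox h y, k⟫ - 1 / 2 * ⟪k - A k, k⟫| ≤ ε * ‖k‖ ^ 2 := by
  have h1 := (hasFDerivAt_iff_isLittleO_nhds_zero.1 hA).def hε
  obtain ⟨ρ, hρ, h2⟩ := Metric.eventually_nhds_iff.1 h1
  rw [Metric.eventually_nhds_iff]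
  refine ⟨ρ, hρ, fun k hk => ?_⟩
  rw [dist_zero_right] at hk
  set R : ℝ → ℝ := fun t => env h (y + t • k) - t * ⟪y - prox h y, k⟫ - t ^ 2 * (1 / 2 * ⟪k - A k, k⟫) with hR
  have hd : ∀ t : ℝ, HasDerivAt R (⟪(y + t • k) - prox h (y + t • k), k⟫ - ⟪y - prox h y, k⟫ - t * ⟪k - A k, k⟫) t := by
    intro t
    have a1 : HasDerivAt (fun t : ℝ => y + t • k) k t := by
      simpa using ((hasDerivAt_id t).smul_const k).const_add y
    have a2 := (env_deriv h (y + t • k)).comp_hasDerivAt t a1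
    have a3 : HasDerivAt (fun t : ℝ => t * ⟪y - prox h y, k⟫) ⟪y - prox h y, k⟫ t := by
      simpa using (hasDerivAt_id t).mul_const ⟪y - prox h y, k⟫
    have a4 : HasDerivAt (fun t : ℝ => t ^ 2 * (1 / 2 * ⟪k - A k, k⟫)) (t * ⟪k - A k, k⟫) t := by
      refine HasDerivAt.congr_deriv ((hasDerivAt_pow 2 t).mul_const (1 / 2 * ⟪k - A k, k⟫)) ?_
      norm_num
      ring
    exact (a2.sub a3).sub a4
  have hb : ∀ t ∈ Ico (0 : ℝ) 1,
      ‖⟪(y + t • k) - prox h (y + t • k), k⟫ - ⟪y - prox h y, k⟫ - t * ⟪k - A k, k⟫‖ ≤ ε * ‖k‖ ^ 2 := by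
    intro t ht
    have hn : ‖t • k‖ = t * ‖k‖ := by rw [norm_smul, Real.norm_eq_abs, abs_of_nonneg ht.1]
    have hlt : dist (t • k) 0 < ρ := by
      rw [dist_zero_right, hn]
      refine lt_of_le_of_lt ?_ hk
      nlinarith [norm_nonneg k, ht.2]
    have h3 := h2 hlt
    have e1 : ⟪(y + t • k) - prox h (y + t • k), k⟫ - ⟪y - prox h y, k⟫ - t * ⟪k - A k, k⟫ =
        -⟪prox h (y + t • k) - prox h y - A (t • k), k⟫ := by
      simp only [inner_sub_left, inner_add_left, map_smul, real_inner_smul_left]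
      ring
    rw [e1, norm_neg]
    calc ‖⟪prox h (y + t • k) - prox h y - A (t • k), k⟫‖ ≤ ‖prox h (y + t • k) - prox h y - A (t • k)‖ * ‖k‖ :=
          norm_inner_le_norm _ _
      _ ≤ (ε * ‖t • k‖) * ‖k‖ := mul_le_mul_of_nonneg_right h3 (norm_nonneg _)
      _ = t * (ε * ‖k‖ ^ 2) := by rw [hn]; ring
      _ ≤ 1 * (ε * ‖k‖ ^ 2) := mul_le_mul_of_nonneg_right ht.2.le (by positivity)
      _ = ε * ‖k‖ ^ 2 := one_mul _
  have h4 := norm_image_sub_le_of_norm_deriv_le_segment_01' (fun t _ => (hd t).hasDerivWithinAt) hb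
  have e2 : R 1 - R 0 = env h (y + k) - env h y - ⟪y - prox h y, k⟫ - 1 / 2 * ⟪k - A k, k⟫ := by
    simp only [hR, one_smul, zero_smul, add_zero]
    ring
  rw [e2, Real.norm_eq_abs] at h4
  exact h4

end

end Pool.Agent.VSC
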