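import Pool.Agent.VSC.Prox

/-!
# Second order expansions of convex functions near a touching point

Main result `exists_second_order`.
-/

open scoped RealInnerProductSpace Topology ENNReal NNReal
open Set MeasureTheory Filter

noncomputable section

namespace Pool.Agent.VSC

variable {G : Type*} [NormedAddCommGroup G] [InnerProductSpace ℝ G]

theorem scale_nonpos {M : G →L[ℝ] G} (h : ∀ ε > 0, ∀ᶠ k in 𝓝 (0 : G), ⟪M k, k⟫ ≤ ε * ‖k‖ ^ 2) (k : G) :
    ⟪M k, k⟫ ≤ 0 := by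
  have key : ∀ ε > 0, ⟪M k, k⟫ ≤ ε * ‖k‖ ^ 2 := by
    intro ε hε
    have hc : Tendsto (fun t : ℝ => t • k) (𝓝[>] 0) (𝓝 0) := by
      have : Tendsto (fun t : ℝ => t • k) (𝓝 0) (𝓝 ((0 : ℝ) • k)) :=
        (by fun_prop : Continuous fun t : ℝ => t • k).tendsto 0
      rw [zero_smul] at this
      exact this.mono_left nhdsWithin_le_nhds
    obtain ⟨t, ht, ht0⟩ := ((hc.eventually (h ε hε)).and eventually_mem_nhdsWithin).exists
    have ht0' : 0 < t := ht0
    rw [map_smul, real_inner_smul_left, real_inner_smul_right, norm_smul, mul_pow, Real.norm_eq_abs, sq_abs] at ht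
    have h2 : 0 < t ^ 2 := by positivity
    have h3 : t ^ 2 * ⟪M k, k⟫ ≤ t ^ 2 * (ε * ‖k‖ ^ 2) := by nlinarith
    exact le_of_mul_le_mul_left h3 h2
  refine le_of_forall_pos_le_add fun ε hε => ?_
  have h1 := key (ε / (‖k‖ ^ 2 + 1)) (by positivity)
  have h2 : ε / (‖k‖ ^ 2 + 1) * ‖k‖ ^ 2 ≤ ε := by
    rw [div_mul_eq_mul_div, div_le_iff₀ (by positivity)]
    nlinarith [sq_nonneg ‖k‖]
  linarith

theorem inner_le_opNorm (C : G →L[ℝ] G) (k : G) : ⟪C k, k⟫ ≤ ‖C‖ * ‖k‖ ^ 2 := by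
  have h1 := real_inner_le_norm (C k) k
  have h2 := mul_le_mul_of_nonneg_right (C.le_opNorm k) (norm_nonneg k)
  nlinarith

/-- If a function with subgradient `s` at a point is touched from above by a paraboloid with slope `q` then `s = q`. -/
theorem slope_unique {s q : G} {c : ℝ} (h : ∀ k, ⟪s - q, k⟫ ≤ c * ‖k‖ ^ 2) : s = q := by
  have h1 : ∀ t : ℝ, 0 < t → ‖s - q‖ ^ 2 ≤ t * (c * ‖s - q‖ ^ 2) := by
    intro t ht
    have h2 := h (t • (s - q))
    rw [real_inner_smul_right, real_inner_self_eq_norm_sq, norm_smul, mul_pow, Real.norm_eq_abs, sq_abs] at h2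
    have h3 : t * ‖s - q‖ ^ 2 ≤ t * (t * (c * ‖s - q‖ ^ 2)) := by nlinarith
    exact le_of_mul_le_mul_left h3 ht
  have h4 : ‖s - q‖ ^ 2 ≤ 0 := by
    have hlim : Tendsto (fun t : ℝ => t * (c * ‖s - q‖ ^ 2)) (𝓝[>] 0) (𝓝 0) := by
      have : Tendsto (fun t : ℝ => t * (c * ‖s - q‖ ^ 2)) (𝓝 0) (𝓝 (0 * (c * ‖s - q‖ ^ 2))) :=
        (by fun_prop : Continuous fun t : ℝ => t * (c * ‖s - q‖ ^ 2)).tendsto 0
      rw [zero_mul] at this
      exact this.mono_left nhdsWithin_le_nhds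
    refine ge_of_tendsto hlim ?_
    filter_upwards [eventually_mem_nhdsWithin] with t ht
    exact h1 t ht
  have h5 : ‖s - q‖ = 0 := by
    have := norm_nonneg (s - q)
    nlinarith
  rwa [norm_eq_zero, sub_eq_zero] at h5

variable [FiniteDimensional ℝ G]

/-- Inverse of `1 - B` for `B ≤ θ < 1`. -/
theorem exists_inverse {B : G →L[ℝ] G} (hB : ∀ a b, ⟪B a, b⟫ = ⟪a, B b⟫) {θ : ℝ} (hθ : θ < 1)
    (hle : ∀ k, ⟪B k, k⟫ ≤ θ * ‖k‖ ^ 2) :
    ∃ T : G →L[ℝ] G, (∀ k, T k - B (T k) = k) ∧ ∀ a b, ⟪T a, b⟫ = ⟪a, T b⟫ := by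
  set D : G →L[ℝ] G := ContinuousLinearMap.id ℝ G - B with hD
  have hinj : Function.Injective (D : G →ₗ[ℝ] G) := by
    refine (injective_iff_map_eq_zero _).2 fun k hk => ?_
    have h1 : D k = 0 := hk
    have h2 : ⟪D k, k⟫ = 0 := by rw [h1, inner_zero_left]
    have h3 : ⟪D k, k⟫ = ‖k‖ ^ 2 - ⟪B k, k⟫ := by
      rw [hD, ContinuousLinearMap.sub_apply, ContinuousLinearMap.id_apply, inner_sub_left,
        real_inner_self_eq_norm_sq]
    have h4 := hle k
    have h5 : (1 - θ) * ‖k‖ ^ 2 ≤ 0 := by nlinarith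
    have h6 : ‖k‖ ^ 2 ≤ 0 := by
      by_contra h7
      push Not at h7
      have : 0 < (1 - θ) * ‖k‖ ^ 2 := mul_pos (by linarith) h7
      linarith
    have h7 : ‖k‖ = 0 := by
      have := norm_nonneg k
      nlinarith
    rwa [norm_eq_zero] at h7
  set e := LinearEquiv.ofInjectiveEndo (D : G →ₗ[ℝ] G) hinj with he
  set T : G →L[ℝ] G := LinearMap.toContinuousLinearMap (e.symm : G →ₗ[ℝ] G) with hT
  have hDT : ∀ k, D (T k) = k := fun k => e.apply_symm_apply k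
  have hDT' : ∀ k, T k - B (T k) = k := fun k => hDT k
  refine ⟨T, hDT', fun a b => ?_⟩
  have h1 : ⟪T a, b⟫ = ⟪T a, T b - B (T b)⟫ := by rw [hDT']
  have h2 : ⟪a, T b⟫ = ⟪T a - B (T a), T b⟫ := by rw [hDT']
  rw [h1, h2, inner_sub_right, inner_sub_left, hB]

theorem exists_second_order {f : G → ℝ} {S : G → G} (h : SubG f S) {C : G →L[ℝ] G}
    (hC : ∀ a b, ⟪C a, b⟫ = ⟪a, C b⟫) (hf : ∀ z, f z ≤ f 0 + 1 / 2 * ⟪C z, z⟫) {η δ : ℝ} (hη : 0 < η)
    (hδ : 0 < δ) :
    ∃ (x q : G) (H : G →L[ℝ] G), ‖x‖ < δ ∧ ‖q‖ < δ ∧ S x = q ∧ (∀ a b, ⟪H a, b⟫ = ⟪a, H b⟫) ∧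
      (∀ k, 0 ≤ ⟪H k, k⟫) ∧ (∀ k, ⟪H k, k⟫ ≤ ⟪C k, k⟫ + η * ‖k‖ ^ 2) ∧
      ∀ ε > 0, ∀ᶠ k in 𝓝 (0 : G), |f (x + k) - f x - ⟪q, k⟫ - 1 / 2 * ⟪H k, k⟫| ≤ ε * ‖k‖ ^ 2 := by
  have hcomp : CompleteSpace G := FiniteDimensional.complete ℝ G
  set C' : G →L[ℝ] G := C + η • ContinuousLinearMap.id ℝ G with hC'
  have hC'a : ∀ k, C' k = C k + η • k := fun k => rfl
  have hC's : ∀ a b, ⟪C' a, b⟫ = ⟪a, C' b⟫ := by
    intro a b
    rw [hC'a, hC'a, inner_add_left, inner_add_right, hC, real_inner_smul_left, real_inner_smul_right]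
  have hC'q : ∀ k, ⟪C' k, k⟫ = ⟪C k, k⟫ + η * ‖k‖ ^ 2 := by
    intro k
    rw [hC'a, inner_add_left, real_inner_smul_left, real_inner_self_eq_norm_sq]
  set c : ℝ := ‖C'‖ with hc
  have hc0 : 0 ≤ c := norm_nonneg _
  -- Step 1 and 2: touching points
  have step1 : ∀ p : G, ∃ ζ : G, η * ‖ζ‖ ≤ 2 * ‖p‖ ∧
      ∀ z, f z ≤ f ζ + ⟪C' ζ + p, z - ζ⟫ + 1 / 2 * ⟪C' (z - ζ), z - ζ⟫ := by
    intro p
    set g : G → ℝ := fun z => f z - 1 / 2 * ⟪C' z, z⟫ - ⟪p, z⟫ with hg
    have hgc : Continuous g := (h.continuous.sub (by fun_prop)).sub (by fun_prop)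
    set R := 2 * ‖p‖ / η with hR
    have hR0 : 0 ≤ R := by positivity
    have h0 : (0 : G) ∈ Metric.closedBall (0 : G) R := Metric.mem_closedBall_self hR0
    obtain ⟨ζ, hζ, hmax⟩ := (isCompact_closedBall (0 : G) R).exists_isMaxOn ⟨0, h0⟩ hgc.continuousOn
    have hmax' : ∀ z, g z ≤ g ζ := by
      intro z
      by_cases hz : z ∈ Metric.closedBall (0 : G) R
      · exact hmax hz
      · refine le_trans ?_ (hmax h0)
        rw [mem_closedBall_zero_iff, not_le] at hz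
        have h1 := hf z
        have h2 := hC'q z
        have h3 : -(‖p‖ * ‖z‖) ≤ ⟪p, z⟫ := by
          have := abs_real_inner_le_norm p z
          linarith [neg_abs_le ⟪p, z⟫]
        have h4 : 2 * ‖p‖ < η * ‖z‖ := by
          rw [hR, div_lt_iff₀ hη] at hz
          linarith
        have h5 : ‖p‖ * ‖z‖ ≤ η / 2 * ‖z‖ ^ 2 := by nlinarith [norm_nonneg z]
        simp only [hg, map_zero, inner_zero_left, inner_zero_right]
        rw [h2]
        linarith
    refine ⟨ζ, ?_, fun z => ?_⟩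
    · rw [mem_closedBall_zero_iff, hR, le_div_iff₀ hη] at hζ
      linarith
    · have h1 := hmax' z
      simp only [hg] at h1
      have h2 : ⟪C' (z - ζ), z - ζ⟫ = ⟪C' z, z⟫ - 2 * ⟪C' ζ, z⟫ + ⟪C' ζ, ζ⟫ := by
        rw [map_sub, inner_sub_left, inner_sub_right, inner_sub_right]
        have : ⟪C' z, ζ⟫ = ⟪C' ζ, z⟫ := by rw [hC's, real_inner_comm]
        rw [this]; ring
      rw [h2, inner_add_left, inner_sub_right, inner_sub_right]
      linarith
  choose Z hZ1 hZ2 using step1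
  have hSq : ∀ p, S (Z p) = C' (Z p) + p := by
    intro p
    refine slope_unique (c := c / 2) fun k => ?_
    have h1 := h.ineq (Z p) (Z p + k)
    have h2 := hZ2 p (Z p + k)
    rw [add_sub_cancel_left] at h1 h2
    have h3 := inner_le_opNorm C' k
    rw [inner_sub_left]
    linarith
  have hprox : ∀ p, prox h (Z p + (C' (Z p) + p)) = Z p := by
    intro p
    refine prox_unique h fun z => ?_
    rw [add_sub_cancel_left, ← hSq]
    exact h.ineq _ z
  -- Step 3: a good slope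
  obtain ⟨r, hr, hr1, hr2⟩ : ∃ r > 0, 2 * r / η < δ ∧ c * (2 * r / η) + r < δ := by
    have h1 : Tendsto (fun r : ℝ => 2 * r / η) (𝓝[>] 0) (𝓝 0) := by
      have : Tendsto (fun r : ℝ => 2 * r / η) (𝓝 0) (𝓝 (2 * 0 / η)) :=
        (by fun_prop : Continuous fun r : ℝ => 2 * r / η).tendsto 0
      simp only [mul_zero, zero_div] at this
      exact this.mono_left nhdsWithin_le_nhds
    have h2 : Tendsto (fun r : ℝ => c * (2 * r / η) + r) (𝓝[>] 0) (𝓝 0) := by
      have : Tendsto (fun r : ℝ => c * (2 * r / η) + r) (𝓝 0) (𝓝 (c * (2 * 0 / η) + 0)) :=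
        (by fun_prop : Continuous fun r : ℝ => c * (2 * r / η) + r).tendsto 0
      simp only [mul_zero, zero_div, add_zero] at this
      exact this.mono_left nhdsWithin_le_nhds
    obtain ⟨r, ⟨h3, h4⟩, h5⟩ := (((h1.eventually (gt_mem_nhds hδ)).and (h2.eventually (gt_mem_nhds hδ))).and
      eventually_mem_nhdsWithin).exists
    exact ⟨r, h5, h3, h4⟩
  obtain ⟨p, hp, hdiff⟩ : ∃ p : G, ‖p‖ < r ∧ DifferentiableAt ℝ (prox h) (Z p + (C' (Z p) + p)) := by
    by_contra hcon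
    push Not at hcon
    letI : MeasurableSpace G := borel G
    haveI : BorelSpace G := ⟨rfl⟩
    set μ : Measure G := μH[Module.finrank ℝ G] with hμ
    have hPl : LipschitzWith 1 (prox h) := LipschitzWith.of_dist_le_mul fun y y' => by
      rw [dist_eq_norm, dist_eq_norm, NNReal.coe_one, one_mul]
      exact prox_lip h y y'
    have hN : μ {y | ¬ DifferentiableAt ℝ (prox h) y} = 0 := hPl.ae_differentiableAt
    set Lm : G → G := fun y => y - prox h y - C' (prox h y) with hLm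
    have hLl : LipschitzWith (1 + 1 + ‖C'‖₊ * 1) Lm := (LipschitzWith.id.sub hPl).sub (C'.lipschitz.comp hPl)
    have him : μ (Lm '' {y | ¬ DifferentiableAt ℝ (prox h) y}) = 0 := by
      refine le_antisymm ?_ bot_le
      refine (hLl.hausdorffMeasure_image_le (by positivity) _).trans ?_
      rw [← hμ, hN, mul_zero]
    have hsub : Metric.ball (0 : G) r ⊆ Lm '' {y | ¬ DifferentiableAt ℝ (prox h) y} := by
      intro p hp
      refine ⟨Z p + (C' (Z p) + p), hcon p (by simpa using hp), ?_⟩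
      simp only [hLm, hprox]
      abel
    have h0 := measure_mono_null hsub him
    have h1 : 0 < μ (Metric.ball (0 : G) r) := Metric.measure_ball_pos μ 0 hr
    rw [h0] at h1
    exact lt_irrefl _ h1
  -- notation
  set ζ := Z p with hζ
  set q := C' ζ + p with hq
  set y := ζ + q with hy
  obtain ⟨A, hA⟩ := hdiff
  have hPy : prox h y = ζ := hprox p
  have hyP : y - prox h y = q := by rw [hPy, hy, add_sub_cancel_left]
  have henvy : env h y = f ζ + 1 / 2 * ‖q‖ ^ 2 := by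
    have e1 : ζ - y = -q := by rw [hy]; abel
    rw [env, hPy, e1, norm_neg]
  have hup : ∀ k, f (ζ + k) ≤ f ζ + ⟪q, k⟫ + 1 / 2 * ⟪C' k, k⟫ := by
    intro k
    have := hZ2 p (ζ + k)
    rwa [add_sub_cancel_left] at this
  have hlow : ∀ k, f ζ + ⟪q, k⟫ ≤ f (ζ + k) := by
    intro k
    have := h.ineq ζ (ζ + k)
    rwa [add_sub_cancel_left, hSq] at this
  -- Step 4: the symmetric second derivative of the envelope
  set D : G →L[ℝ] G := ContinuousLinearMap.id ℝ G - A with hD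
  set B : G →L[ℝ] G := (1 / 2 : ℝ) • (D + ContinuousLinearMap.adjoint D) with hB
  have hBs : ∀ a b, ⟪B a, b⟫ = ⟪a, B b⟫ := by
    intro a b
    simp only [hB, ContinuousLinearMap.smul_apply, ContinuousLinearMap.add_apply, real_inner_smul_left,
      real_inner_smul_right, inner_add_left, inner_add_right, ContinuousLinearMap.adjoint_inner_left,
      ContinuousLinearMap.adjoint_inner_right]
    ring
  have hBq : ∀ k, ⟪B k, k⟫ = ⟪k - A k, k⟫ := by
    intro k
    simp only [hB, ContinuousLinearMap.smul_apply, ContinuousLinearMap.add_apply, real_inner_smul_left,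
      inner_add_left, ContinuousLinearMap.adjoint_inner_left]
    have e1 : ⟪D k, k⟫ = ⟪k - A k, k⟫ := rfl
    have e2 : ⟪k, D k⟫ = ⟪k - A k, k⟫ := by rw [real_inner_comm, e1]
    rw [e1, e2]
    ring
  have htay : ∀ ε > 0, ∀ᶠ k in 𝓝 (0 : G), |env h (y + k) - env h y - ⟪q, k⟫ - 1 / 2 * ⟪B k, k⟫| ≤ ε * ‖k‖ ^ 2 := by
    intro ε hε
    filter_upwards [env_taylor h hA hε] with k hk
    rwa [hyP, ← hBq] at hk
  -- the value of the parabola
  have hsq : ∀ a b : G, 1 / 2 * ‖q + b - a‖ ^ 2 = 1 / 2 * ‖q‖ ^ 2 + ⟪q, b⟫ - ⟪q, a⟫ + 1 / 2 * ‖b - a‖ ^ 2 := by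
    intro a b
    have : q + b - a = q + (b - a) := by abel
    rw [this, norm_add_sq_real, inner_sub_right]
    ring
  -- env ≤ f + parabola, in shifted form
  have henvle : ∀ a b : G, env h (y + b) ≤ f (ζ + a) + 1 / 2 * ‖q + b - a‖ ^ 2 := by
    intro a b
    have h1 := env_le h (y + b) (ζ + a)
    have e1 : ζ + a - (y + b) = -(q + b - a) := by rw [hy]; abel
    rwa [e1, norm_neg] at h1
  -- Step 5: upper bound of B
  have hstar : ∀ a b : G, ⟪B b, b⟫ ≤ ⟪C' a, a⟫ + ‖b - a‖ ^ 2 := by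
    intro a b
    have key : ∀ ε > 0, ⟪B b, b⟫ ≤ ⟪C' a, a⟫ + ‖b - a‖ ^ 2 + 2 * ε * ‖b‖ ^ 2 := by
      intro ε hε
      have hcv : Tendsto (fun t : ℝ => t • b) (𝓝[>] 0) (𝓝 0) := by
        have : Tendsto (fun t : ℝ => t • b) (𝓝 0) (𝓝 ((0 : ℝ) • b)) :=
          (by fun_prop : Continuous fun t : ℝ => t • b).tendsto 0
        rw [zero_smul] at this
        exact this.mono_left nhdsWithin_le_nhds
      obtain ⟨t, ht, ht0⟩ := ((hcv.eventually (htay ε hε)).and eventually_mem_nhdsWithin).exists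
      have ht0' : 0 < t := ht0
      have h1 := henvle (t • a) (t • b)
      have h2 := hup (t • a)
      have h3 := hsq (t • a) (t • b)
      have h4 := (abs_le.1 ht).1
      have e1 : ‖t • b - t • a‖ ^ 2 = t ^ 2 * ‖b - a‖ ^ 2 := by
        rw [← smul_sub, norm_smul, mul_pow, Real.norm_eq_abs, sq_abs]
      have e2 : ⟪C' (t • a), t • a⟫ = t ^ 2 * ⟪C' a, a⟫ := by
        rw [map_smul, real_inner_smul_left, real_inner_smul_right]; ring
      have e3 : ⟪B (t • b), t • b⟫ = t ^ 2 * ⟪B b, b⟫ := by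
        rw [map_smul, real_inner_smul_left, real_inner_smul_right]; ring
      have e4 : ‖t • b‖ ^ 2 = t ^ 2 * ‖b‖ ^ 2 := by
        rw [norm_smul, mul_pow, Real.norm_eq_abs, sq_abs]
      rw [e1] at h3
      rw [e2] at h2
      rw [e3, e4] at h4
      have h5 : 0 < t ^ 2 := by positivity
      have h6 : t ^ 2 * ⟪B b, b⟫ ≤ t ^ 2 * (⟪C' a, a⟫ + ‖b - a‖ ^ 2 + 2 * ε * ‖b‖ ^ 2) := by
        nlinarith
      exact le_of_mul_le_mul_left h6 h5
    refine le_of_forall_pos_le_add fun ε hε => ?_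
    have h1 := key (ε / (2 * (‖b‖ ^ 2 + 1))) (by positivity)
    have h2 : 2 * (ε / (2 * (‖b‖ ^ 2 + 1))) * ‖b‖ ^ 2 ≤ ε := by
      have h3 : 2 * (ε / (2 * (‖b‖ ^ 2 + 1))) = ε / (‖b‖ ^ 2 + 1) := by field_simp
      rw [h3, div_mul_eq_mul_div, div_le_iff₀ (by positivity)]
      nlinarith [sq_nonneg ‖b‖]
    linarith
  have hBθ : ∀ k, ⟪B k, k⟫ ≤ (c / (1 + c)) * ‖k‖ ^ 2 := by
    intro k
    have h1 := hstar ((1 / (1 + c)) • k) k
    have h2 := inner_le_opNorm C' ((1 / (1 + c)) • k)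
    have e1 : ‖(1 / (1 + c)) • k‖ ^ 2 = (1 / (1 + c)) ^ 2 * ‖k‖ ^ 2 := by
      rw [norm_smul, mul_pow, Real.norm_eq_abs, sq_abs]
    have e2 : ‖k - (1 / (1 + c)) • k‖ ^ 2 = (c / (1 + c)) ^ 2 * ‖k‖ ^ 2 := by
      have : k - (1 / (1 + c)) • k = (c / (1 + c)) • k := by
        have h3 : c / (1 + c) = 1 - 1 / (1 + c) := by
          have : (1 + c) ≠ 0 := by positivity
          rw [eq_sub_iff_add_eq, ← add_div, add_comm c 1, div_self this]
        rw [h3, sub_smul, one_smul]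
      rw [this, norm_smul, mul_pow, Real.norm_eq_abs, sq_abs]
    rw [e1] at h2
    rw [e2] at h1
    have h3 : c * ((1 / (1 + c)) ^ 2 * ‖k‖ ^ 2) + (c / (1 + c)) ^ 2 * ‖k‖ ^ 2 = (c / (1 + c)) * ‖k‖ ^ 2 := by
      field_simp
    linarith
  have hθ1 : c / (1 + c) < 1 := by rw [div_lt_one (by positivity)]; linarith
  obtain ⟨T, hT1, hT2⟩ := exists_inverse hBs hθ1 hBθ
  set H : G →L[ℝ] G := T - ContinuousLinearMap.id ℝ G with hH
  have hHa : ∀ k, H k = T k - k := fun k => rfl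
  have hHs : ∀ a b, ⟪H a, b⟫ = ⟪a, H b⟫ := by
    intro a b
    rw [hHa, hHa, inner_sub_left, inner_sub_right, hT2]
  -- algebra: the maximum of the concave quadratic
  have halg : ∀ k e : G, ⟪B (T k + e), T k + e⟫ - ‖T k + e - k‖ ^ 2 = ⟪H k, k⟫ - (‖e‖ ^ 2 - ⟪B e, e⟫) := by
    intro k e
    have e0 : B (T k) = T k - k := by
      have := hT1 k
      rw [← sub_eq_zero] at this ⊢
      rw [← neg_eq_zero, ← this]
      abel
    have e1 : T k + e - k = (T k - k) + e := by abel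
    have e2 : ⟪B e, T k⟫ = ⟪e, T k - k⟫ := by rw [hBs, e0]
    rw [e1, map_add, norm_add_sq_real, inner_add_left, inner_add_right, inner_add_right, e0, e2, hHa]
    have e3 : ‖T k - k‖ ^ 2 = ⟪T k - k, T k⟫ - ⟪T k - k, k⟫ := by
      rw [← real_inner_self_eq_norm_sq, inner_sub_right]
    have e4 : ⟪e, T k - k⟫ = ⟪T k - k, e⟫ := real_inner_comm _ _
    rw [e3, e4]
    ring
  have hBpos : ∀ e : G, 0 ≤ ‖e‖ ^ 2 - ⟪B e, e⟫ := by
    intro e
    have h1 := hBθ e
    have h2 : (c / (1 + c)) * ‖e‖ ^ 2 ≤ 1 * ‖e‖ ^ 2 := mul_le_mul_of_nonneg_right hθ1.le (sq_nonneg _)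
    linarith
  have halg1 : ∀ k b : G, ⟪B b, b⟫ - ‖b - k‖ ^ 2 ≤ ⟪H k, k⟫ := by
    intro k b
    have h1 := halg k (b - T k)
    have e1 : T k + (b - T k) = b := by abel
    rw [e1] at h1
    rw [h1]
    linarith [hBpos (b - T k)]
  have halg2 : ∀ k : G, ⟪B (T k), T k⟫ - ‖T k - k‖ ^ 2 = ⟪H k, k⟫ := by
    intro k
    have h1 := halg k 0
    simpa using h1
  -- bound of the subgradients
  have hSb : ∀ k, ‖S (ζ + k) - q‖ ≤ 2 * c * ‖k‖ := by
    intro k
    set v := S (ζ + k) - q with hv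
    have h1 : ∀ k₂, ⟪v, k₂⟫ ≤ c / 2 * ‖k + k₂‖ ^ 2 := by
      intro k₂
      have a1 := h.ineq (ζ + k) (ζ + k + k₂)
      rw [add_sub_cancel_left] at a1
      have a2 := hlow k
      have a3 := hup (k + k₂)
      rw [← add_assoc] at a3
      have a4 := inner_le_opNorm C' (k + k₂)
      rw [hv, inner_sub_left]
      rw [inner_add_right] at a3
      linarith
    rcases eq_or_ne v 0 with h0 | h0
    · rw [h0, norm_zero]; positivity
    · rcases eq_or_ne k 0 with hk | hk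
      · exfalso
        apply h0
        have h2 : v = 0 := by
          refine slope_unique (c := c / 2) fun k₂ => ?_
          have := h1 k₂
          rwa [hk, zero_add, ← sub_zero v] at this
        exact h2
      · have hvn : 0 < ‖v‖ := norm_pos_iff.2 h0
        have hkn : 0 < ‖k‖ := norm_pos_iff.2 hk
        have h2 := h1 ((‖k‖ / ‖v‖) • v)
        have e1 : ⟪v, (‖k‖ / ‖v‖) • v⟫ = ‖k‖ * ‖v‖ := by
          rw [real_inner_smul_right, real_inner_self_eq_norm_sq]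
          field_simp
        have e2 : ‖(‖k‖ / ‖v‖) • v‖ = ‖k‖ := by
          rw [norm_smul, Real.norm_eq_abs, abs_of_nonneg (by positivity)]
          field_simp
        have h3 : ‖k + (‖k‖ / ‖v‖) • v‖ ≤ 2 * ‖k‖ := by
          have := norm_add_le k ((‖k‖ / ‖v‖) • v)
          rw [e2] at this
          linarith
        have h4 : ‖k + (‖k‖ / ‖v‖) • v‖ ^ 2 ≤ (2 * ‖k‖) ^ 2 := pow_le_pow_left₀ (norm_nonneg _) h3 2
        rw [e1] at h2
        have h5 : ‖k‖ * ‖v‖ ≤ ‖k‖ * (2 * c * ‖k‖) := by nlinarith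
        exact le_of_mul_le_mul_left h5 hkn
  -- Step 8: the expansion
  set M : ℝ := 1 + 2 * c + ‖T‖ with hM
  have hM0 : 0 < M := by positivity
  have hexp : ∀ ε > 0, ∀ᶠ k in 𝓝 (0 : G), |f (ζ + k) - f ζ - ⟪q, k⟫ - 1 / 2 * ⟪H k, k⟫| ≤ ε * ‖k‖ ^ 2 := by
    intro ε hε
    obtain ⟨ρ, hρ, h1⟩ := Metric.eventually_nhds_iff.1 (htay (ε / M ^ 2) (by positivity))
    rw [Metric.eventually_nhds_iff]
    refine ⟨ρ / M, by positivity, fun k hk => ?_⟩
    rw [dist_zero_right, lt_div_iff₀ hM0] at hk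
    have hsmall : ∀ b : G, ‖b‖ ≤ M * ‖k‖ →
        |env h (y + b) - env h y - ⟪q, b⟫ - 1 / 2 * ⟪B b, b⟫| ≤ ε * ‖k‖ ^ 2 := by
      intro b hb
      have h2 := h1 (show dist b 0 < ρ by rw [dist_zero_right]; linarith)
      refine h2.trans ?_
      have h3 : ‖b‖ ^ 2 ≤ (M * ‖k‖) ^ 2 := pow_le_pow_left₀ (norm_nonneg _) hb 2
      calc ε / M ^ 2 * ‖b‖ ^ 2 ≤ ε / M ^ 2 * (M * ‖k‖) ^ 2 := mul_le_mul_of_nonneg_left h3 (by positivity)
        _ = ε * ‖k‖ ^ 2 := by field_simp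
    rw [abs_le]
    constructor
    · -- lower bound
      have hb : ‖T k‖ ≤ M * ‖k‖ := (T.le_opNorm k).trans
        (mul_le_mul_of_nonneg_right (by rw [hM]; linarith) (norm_nonneg _))
      have h2 := (abs_le.1 (hsmall (T k) hb)).1
      have h3 := henvle k (T k)
      have h4 := hsq k (T k)
      have h5 := halg2 k
      linarith
    · -- upper bound
      set b := k + (S (ζ + k) - q) with hb
      have hbn : ‖b‖ ≤ M * ‖k‖ := by
        have h2 := norm_add_le k (S (ζ + k) - q)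
        have h3 := hSb k
        have h4 : 0 ≤ ‖T‖ * ‖k‖ := by positivity
        rw [hb, hM]
        nlinarith
      have h2 := (abs_le.1 (hsmall b hbn)).2
      have hpr : prox h (y + b) = ζ + k := by
        refine prox_unique h fun z => ?_
        have e1 : y + b - (ζ + k) = S (ζ + k) := by rw [hy, hb]; abel
        rw [e1]
        exact h.ineq _ z
      have henvb : env h (y + b) = f (ζ + k) + 1 / 2 * ‖q + b - k‖ ^ 2 := by
        have e1 : ζ + k - (y + b) = -(q + b - k) := by rw [hy]; abel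
        rw [env, hpr, e1, norm_neg]
      have h4 := hsq k b
      have h5 := halg1 k b
      linarith
  have hζn : ‖ζ‖ < δ := by
    have h1 := hZ1 p
    have h2 : ‖ζ‖ ≤ 2 * r / η := by
      rw [le_div_iff₀ hη]
      nlinarith
    linarith
  have hqn : ‖q‖ < δ := by
    have h1 := hZ1 p
    have h2 : ‖ζ‖ ≤ 2 * r / η := by
      rw [le_div_iff₀ hη]
      nlinarith
    have h3 : ‖q‖ ≤ c * ‖ζ‖ + ‖p‖ := (norm_add_le _ _).trans (add_le_add_left (C'.le_opNorm ζ) _)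
    have h4 : c * ‖ζ‖ ≤ c * (2 * r / η) := mul_le_mul_of_nonneg_left h2 hc0
    linarith
  refine ⟨ζ, q, H, hζn, hqn, hSq p, hHs, fun k => ?_, fun k => ?_, hexp⟩
  · have h1 : ⟪(-H) k, k⟫ ≤ 0 := by
      refine scale_nonpos (fun ε hε => ?_) k
      filter_upwards [hexp (ε / 2) (by positivity)] with k hk
      have h2 := (abs_le.1 hk).2
      have h3 := hlow k
      rw [ContinuousLinearMap.neg_apply, inner_neg_left]
      linarith
    rw [ContinuousLinearMap.neg_apply, inner_neg_left] at h1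
    linarith
  · have h1 : ⟪(H - C') k, k⟫ ≤ 0 := by
      refine scale_nonpos (fun ε hε => ?_) k
      filter_upwards [hexp (ε / 2) (by positivity)] with k hk
      have h2 := (abs_le.1 hk).1
      have h3 := hup k
      rw [ContinuousLinearMap.sub_apply, inner_sub_left]
      linarith
    rw [ContinuousLinearMap.sub_apply, inner_sub_left] at h1
    rw [← hC'q]
    linarith

end Pool.Agent.VSC
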