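import Pool.Agent.VSC.Sup

/-!
# The theorem on sums, inner product spaces, quadratic majorant
-/

open scoped RealInnerProductSpace Topology
open Set Filter WithLp

noncomputable section

namespace Pool.Agent.VSC

variable {E F : Type*} [NormedAddCommGroup E] [InnerProductSpace ℝ E] [NormedAddCommGroup F] [InnerProductSpace ℝ F]

/-- The first inclusion. -/
def i1 (E F : Type*) [NormedAddCommGroup E] [InnerProductSpace ℝ E] [NormedAddCommGroup F] [InnerProductSpace ℝ F] :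
    E →L[ℝ] WithLp 2 (E × F) :=
  ((prodContinuousLinearEquiv 2 ℝ E F).symm : E × F →L[ℝ] WithLp 2 (E × F)).comp (ContinuousLinearMap.inl ℝ E F)

/-- The second inclusion. -/
def i2 (E F : Type*) [NormedAddCommGroup E] [InnerProductSpace ℝ E] [NormedAddCommGroup F] [InnerProductSpace ℝ F] :
    F →L[ℝ] WithLp 2 (E × F) :=
  ((prodContinuousLinearEquiv 2 ℝ E F).symm : E × F →L[ℝ] WithLp 2 (E × F)).comp (ContinuousLinearMap.inr ℝ E F)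

theorem i1_apply (x : E) : i1 E F x = toLp 2 (x, 0) := rfl
theorem i2_apply (y : F) : i2 E F y = toLp 2 (0, y) := rfl
theorem i1_fst (x : E) : (i1 E F x).fst = x := rfl
theorem i1_snd (x : E) : (i1 E F x).snd = 0 := rfl
theorem i2_fst (y : F) : (i2 E F y).fst = 0 := rfl
theorem i2_snd (y : F) : (i2 E F y).snd = y := rfl

theorem inner_i1 (z : WithLp 2 (E × F)) (x : E) : ⟪z, i1 E F x⟫ = ⟪z.fst, x⟫ := by
  have : ⟪z, i1 E F x⟫ = ⟪z.fst, x⟫ + ⟪z.snd, (0 : F)⟫ := rfl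
  rw [this, inner_zero_right, add_zero]

theorem inner_i2 (z : WithLp 2 (E × F)) (y : F) : ⟪z, i2 E F y⟫ = ⟪z.snd, y⟫ := by
  have : ⟪z, i2 E F y⟫ = ⟪z.fst, (0 : E)⟫ + ⟪z.snd, y⟫ := rfl
  rw [this, inner_zero_right, zero_add]

theorem norm_i1 (x : E) : ‖i1 E F x‖ = ‖x‖ := norm_toLp_fst 2 E F x
theorem norm_i2 (y : F) : ‖i2 E F y‖ = ‖y‖ := norm_toLp_snd 2 E F y

theorem toLp_eq (x : E) (y : F) : (toLp 2 (x, y) : WithLp 2 (E × F)) = i1 E F x + i2 E F y := by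
  rw [i1_apply, i2_apply, ← toLp_add, Prod.mk_add_mk, add_zero, zero_add]

/-- A second order expansion of a function splitting as a sum has a block diagonal Hessian. -/
theorem block_diag {f₁ : E → ℝ} {f₂ : F → ℝ} {ζ q : WithLp 2 (E × F)} {H : WithLp 2 (E × F) →L[ℝ] WithLp 2 (E × F)}
    (hH : ∀ a b, ⟪H a, b⟫ = ⟪a, H b⟫)
    (h : ∀ ε > 0, ∀ᶠ k in 𝓝 (0 : WithLp 2 (E × F)),
      |(f₁ (ζ + k).fst + f₂ (ζ + k).snd) - (f₁ ζ.fst + f₂ ζ.snd) - ⟪q, k⟫ - 1 / 2 * ⟪H k, k⟫| ≤ ε * ‖k‖ ^ 2)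
    (x : E) (y : F) : ⟪H (i1 E F x), i2 E F y⟫ = 0 := by
  set a := i1 E F x with ha
  set b := i2 E F y with hb
  have key : ∀ ε > 0, |⟪H a, b⟫| ≤ ε * (‖a + b‖ ^ 2 + ‖a‖ ^ 2 + ‖b‖ ^ 2) := by
    intro ε hε
    have hcv : ∀ c : WithLp 2 (E × F), Tendsto (fun t : ℝ => t • c) (𝓝[>] 0) (𝓝 0) := by
      intro c
      have : Tendsto (fun t : ℝ => t • c) (𝓝 0) (𝓝 ((0 : ℝ) • c)) :=
        (by fun_prop : Continuous fun t : ℝ => t • c).tendsto 0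
      rw [zero_smul] at this
      exact this.mono_left nhdsWithin_le_nhds
    obtain ⟨t, ⟨⟨h1, h2⟩, h3⟩, ht0⟩ := (((((hcv (a + b)).eventually (h ε hε)).and
      ((hcv a).eventually (h ε hε))).and ((hcv b).eventually (h ε hε))).and eventually_mem_nhdsWithin).exists
    have ht : 0 < t := ht0
    have f1 : (ζ + t • (a + b)).fst = (ζ + t • a).fst := by
      show ζ.fst + t • (x + 0) = ζ.fst + t • x
      rw [add_zero]
    have f2 : (ζ + t • (a + b)).snd = (ζ + t • b).snd := by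
      show ζ.snd + t • (0 + y) = ζ.snd + t • y
      rw [zero_add]
    have f3 : (ζ + t • a).snd = ζ.snd := by
      show ζ.snd + t • (0 : F) = ζ.snd
      rw [smul_zero, add_zero]
    have f4 : (ζ + t • b).fst = ζ.fst := by
      show ζ.fst + t • (0 : E) = ζ.fst
      rw [smul_zero, add_zero]
    rw [f1, f2] at h1
    rw [f3] at h2
    rw [f4] at h3
    have hq : ⟪q, t • (a + b)⟫ = ⟪q, t • a⟫ + ⟪q, t • b⟫ := by rw [smul_add, inner_add_right]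
    have hs : ∀ c : WithLp 2 (E × F), ⟪H (t • c), t • c⟫ = t ^ 2 * ⟪H c, c⟫ := by
      intro c
      rw [map_smul, real_inner_smul_left, real_inner_smul_right]; ring
    have hn : ∀ c : WithLp 2 (E × F), ‖t • c‖ ^ 2 = t ^ 2 * ‖c‖ ^ 2 := by
      intro c
      rw [norm_smul, mul_pow, Real.norm_eq_abs, sq_abs]
    rw [hs, hn] at h1 h2 h3
    rw [hq] at h1
    have hab : ⟪H (a + b), a + b⟫ = ⟪H a, a⟫ + 2 * ⟪H a, b⟫ + ⟪H b, b⟫ := by
      have : ⟪H b, a⟫ = ⟪H a, b⟫ := by rw [hH, real_inner_comm]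
      rw [map_add, inner_add_left, inner_add_right, inner_add_right, this]
      ring
    rw [hab] at h1
    rw [abs_le] at h1 h2 h3
    have ht2 : 0 < t ^ 2 := by positivity
    rw [abs_le]
    constructor
    · have : t ^ 2 * (-(ε * (‖a + b‖ ^ 2 + ‖a‖ ^ 2 + ‖b‖ ^ 2))) ≤ t ^ 2 * ⟪H a, b⟫ := by
        linarith [h1.1, h1.2, h2.1, h2.2, h3.1, h3.2]
      exact le_of_mul_le_mul_left this ht2
    · have : t ^ 2 * ⟪H a, b⟫ ≤ t ^ 2 * (ε * (‖a + b‖ ^ 2 + ‖a‖ ^ 2 + ‖b‖ ^ 2)) := by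
        linarith [h1.1, h1.2, h2.1, h2.2, h3.1, h3.2]
      exact le_of_mul_le_mul_left this ht2
  have : |⟪H a, b⟫| ≤ 0 := by
    refine le_of_forall_pos_le_add fun ε hε => ?_
    have h1 := key (ε / (‖a + b‖ ^ 2 + ‖a‖ ^ 2 + ‖b‖ ^ 2 + 1)) (by positivity)
    refine h1.trans ?_
    rw [zero_add, div_mul_eq_mul_div, div_le_iff₀ (by positivity)]
    nlinarith
  exact abs_nonpos_iff.1 this

variable [FiniteDimensional ℝ E] [FiniteDimensional ℝ F]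

/-- Theorem on sums for usc functions on compact subsets of inner product spaces, quadratic majorant. -/
theorem sums_inner {K₁ : Set E} {K₂ : Set F} (hK₁ : IsCompact K₁) (hK₂ : IsCompact K₂) (h0₁ : (0 : E) ∈ K₁)
    (h0₂ : (0 : F) ∈ K₂) {u : E → ℝ} {v : F → ℝ} (hu : UpperSemicontinuousOn u K₁) (hv : UpperSemicontinuousOn v K₂)
    (hu0 : u 0 = 0) (hv0 : v 0 = 0) {A : WithLp 2 (E × F) →L[ℝ] WithLp 2 (E × F)} (hA : ∀ a b, ⟪A a, b⟫ = ⟪a, A b⟫)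
    (h : ∀ x ∈ K₁, ∀ y ∈ K₂, u x + v y ≤ 1 / 2 * ⟪A (toLp 2 (x, y)), (toLp 2 (x, y) : WithLp 2 (E × F))⟫)
    {δ : ℝ} (hδ : 0 < δ) :
    ∃ x ∈ K₁, ∃ y ∈ K₂, ∃ (p : E) (q : F) (X : E →L[ℝ] E) (Y : F →L[ℝ] F),
      ‖x‖ < δ ∧ ‖y‖ < δ ∧ |u x| < δ ∧ |v y| < δ ∧ ‖p‖ < δ ∧ ‖q‖ < δ ∧
      (∀ a b, ⟪X a, b⟫ = ⟪a, X b⟫) ∧ (∀ a b, ⟪Y a, b⟫ = ⟪a, Y b⟫) ∧
      (∀ ε > 0, ∀ᶠ k in 𝓝 (0 : E), x + k ∈ K₁ → u (x + k) ≤ u x + ⟪p, k⟫ + 1 / 2 * ⟪X k, k⟫ + ε * ‖k‖ ^ 2) ∧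
      (∀ ε > 0, ∀ᶠ k in 𝓝 (0 : F), y + k ∈ K₂ → v (y + k) ≤ v y + ⟪q, k⟫ + 1 / 2 * ⟪Y k, k⟫ + ε * ‖k‖ ^ 2) ∧
      ∀ a b, ⟪X a, a⟫ + ⟪Y b, b⟫ ≤
        ⟪A (toLp 2 (a, b)), (toLp 2 (a, b) : WithLp 2 (E × F))⟫ + δ * (‖a‖ ^ 2 + ‖b‖ ^ 2) := by
  set α : ℝ := ‖A‖ with hα
  have hα0 : 0 ≤ α := norm_nonneg A
  set e : ℝ := δ / (2 * (α ^ 2 + 1)) with he
  have he0 : 0 < e := by positivity
  have heα : e * α ^ 2 ≤ δ / 2 := by
    rw [he, div_mul_eq_mul_div, div_le_iff₀ (by positivity)]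
    nlinarith
  set lam : ℝ := 1 / e + α with hlam
  have hlam0 : 0 < lam := by positivity
  obtain ⟨m₁, hm₁⟩ := exists_isSel hK₁ ⟨0, h0₁⟩ hu lam
  obtain ⟨m₂, hm₂⟩ := exists_isSel hK₂ ⟨0, h0₂⟩ hv lam
  have hs₁ := hm₁.subG hK₁
  have hs₂ := hm₂.subG hK₂
  set f : WithLp 2 (E × F) → ℝ := fun z => cf u lam m₁ z.fst + cf v lam m₂ z.snd with hf
  have hfG := subG_sum hs₁ hs₂
  set C : WithLp 2 (E × F) →L[ℝ] WithLp 2 (E × F) :=
    A + e • (A.comp A) + lam • ContinuousLinearMap.id ℝ _ with hC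
  have hCa : ∀ k, C k = A k + e • A (A k) + lam • k := fun k => rfl
  have hCs : ∀ a b, ⟪C a, b⟫ = ⟪a, C b⟫ := by
    intro a b
    rw [hCa, hCa, inner_add_left, inner_add_left, inner_add_right, inner_add_right, real_inner_smul_left,
      real_inner_smul_left, real_inner_smul_right, real_inner_smul_right, hA, hA, hA]
  have hCq : ∀ k, ⟪C k, k⟫ = ⟪A k, k⟫ + e * ‖A k‖ ^ 2 + lam * ‖k‖ ^ 2 := by
    intro k
    rw [hCa, inner_add_left, inner_add_left, real_inner_smul_left, real_inner_smul_left, hA (A k) k,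
      real_inner_self_eq_norm_sq, real_inner_self_eq_norm_sq]
  have hc0 : 0 ≤ cf u lam m₁ 0 := by
    have := hm₁.2 0 0 h0₁
    simp only [cf, sub_self, norm_zero] at this ⊢
    rw [hu0] at this
    linarith
  have hd0 : 0 ≤ cf v lam m₂ 0 := by
    have := hm₂.2 0 0 h0₂
    simp only [cf, sub_self, norm_zero] at this ⊢
    rw [hv0] at this
    linarith
  have htouch : ∀ z, f z ≤ f 0 + 1 / 2 * ⟪C z, z⟫ := by
    intro z
    have h1 := h _ (hm₁.1 z.fst) _ (hm₂.1 z.snd)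
    have h2 := quad_bound hA he0 (toLp 2 (m₁ z.fst, m₂ z.snd)) z
    have h3 : ‖(toLp 2 (m₁ z.fst, m₂ z.snd) : WithLp 2 (E × F)) - z‖ ^ 2 =
        ‖m₁ z.fst - z.fst‖ ^ 2 + ‖m₂ z.snd - z.snd‖ ^ 2 := prod_norm_sq_eq_of_L2 _
    have h4 : ‖z‖ ^ 2 = ‖z.fst‖ ^ 2 + ‖z.snd‖ ^ 2 := prod_norm_sq_eq_of_L2 _
    have h5 : f 0 = cf u lam m₁ 0 + cf v lam m₂ 0 := rfl
    have h6 : f z = u (m₁ z.fst) - lam / 2 * ‖m₁ z.fst - z.fst‖ ^ 2 + lam / 2 * ‖z.fst‖ ^ 2 +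
      (v (m₂ z.snd) - lam / 2 * ‖m₂ z.snd - z.snd‖ ^ 2 + lam / 2 * ‖z.snd‖ ^ 2) := rfl
    rw [← hα, ← hlam, h3] at h2
    rw [hCq, h4, h5, h6]
    nlinarith
  -- the bound for the values
  obtain ⟨Λ₁, hΛ₁⟩ := hs₁.bdd
  obtain ⟨Λ₂, hΛ₂⟩ := hs₂.bdd
  set Λ : ℝ := |Λ₁| + |Λ₂| with hΛ
  have hΛ0 : 0 ≤ Λ := by positivity
  set M : ℝ := 1 + lam + 1 / lam + Λ + α / lam ^ 2 with hM
  have hM0 : 0 < M := by positivity
  set d : ℝ := min 1 (δ / M) with hd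
  have hd0' : 0 < d := lt_min one_pos (by positivity)
  have hd1 : d ≤ 1 := min_le_left _ _
  have hdM : d * M ≤ δ := by
    have : d ≤ δ / M := min_le_right _ _
    rwa [le_div_iff₀ hM0] at this
  have hdM' : d + d * lam + d * (1 / lam) + d * Λ + d * (α / lam ^ 2) ≤ δ := by
    have : d * M = d + d * lam + d * (1 / lam) + d * Λ + d * (α / lam ^ 2) := by rw [hM]; ring
    linarith
  obtain ⟨ζ, qq, H, hζ, hqq, hSq, hHs, -, hHle, hexp⟩ := exists_second_order hfG hCs htouch (half_pos hδ) hd0'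
  set x := m₁ ζ.fst with hx
  set y := m₂ ζ.snd with hy
  have hSq' : lam • (toLp 2 (x, y) : WithLp 2 (E × F)) = qq := by
    rw [← hSq]; rfl
  have hz : ‖(toLp 2 (x, y) : WithLp 2 (E × F))‖ < d * (1 / lam) := by
    have h1 : lam * ‖(toLp 2 (x, y) : WithLp 2 (E × F))‖ < d := by
      rw [← hSq', norm_smul, Real.norm_eq_abs, abs_of_pos hlam0] at hqq
      exact hqq
    rw [mul_one_div, lt_div_iff₀ hlam0]
    linarith
  have hp0 : 0 ≤ d * lam := by positivity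
  have hp1 : 0 ≤ d * (1 / lam) := by positivity
  have hp2 : 0 ≤ d * Λ := by positivity
  have hp3 : 0 ≤ d * (α / lam ^ 2) := by positivity
  have hxn : ‖x‖ ≤ ‖(toLp 2 (x, y) : WithLp 2 (E × F))‖ := WithLp.norm_fst_le _ (toLp 2 (x, y) : WithLp 2 (E × F))
  have hyn : ‖y‖ ≤ ‖(toLp 2 (x, y) : WithLp 2 (E × F))‖ := WithLp.norm_snd_le _ (toLp 2 (x, y) : WithLp 2 (E × F))
  have hζ1 : ‖ζ.fst‖ ≤ ‖ζ‖ := WithLp.norm_fst_le _ ζ
  have hζ2 : ‖ζ.snd‖ ≤ ‖ζ‖ := WithLp.norm_snd_le _ ζ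
  have hq1 : ‖qq.fst‖ ≤ ‖qq‖ := WithLp.norm_fst_le _ qq
  have hq2 : ‖qq.snd‖ ≤ ‖qq‖ := WithLp.norm_snd_le _ qq
  have hxK : x ∈ K₁ := hm₁.1 _
  have hyK : y ∈ K₂ := hm₂.1 _
  -- lower bounds of the values
  have hux : -(d * Λ + d * lam / 2) ≤ u x := by
    have h1 := hs₁.ineq 0 ζ.fst
    have h2 : cf u lam m₁ ζ.fst = u x - lam / 2 * ‖x - ζ.fst‖ ^ 2 + lam / 2 * ‖ζ.fst‖ ^ 2 := rfl
    have h3 := abs_real_inner_le_norm (lam • m₁ 0) ζ.fst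
    have h4 := (hΛ₁ 0).trans (le_abs_self Λ₁)
    have h5 : ‖lam • m₁ 0‖ * ‖ζ.fst‖ ≤ Λ * d :=
      mul_le_mul (by linarith [abs_nonneg Λ₂]) (by linarith) (norm_nonneg _) hΛ0
    have h6 := (abs_le.1 h3).1
    rw [sub_zero] at h1
    have h7 : lam / 2 * ‖ζ.fst‖ ^ 2 ≤ lam / 2 * d := by
      refine mul_le_mul_of_nonneg_left ?_ (by positivity)
      have := norm_nonneg ζ.fst
      nlinarith
    have h8 : 0 ≤ lam / 2 * ‖x - ζ.fst‖ ^ 2 := by positivity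
    linarith
  have hvy : -(d * Λ + d * lam / 2) ≤ v y := by
    have h1 := hs₂.ineq 0 ζ.snd
    have h2 : cf v lam m₂ ζ.snd = v y - lam / 2 * ‖y - ζ.snd‖ ^ 2 + lam / 2 * ‖ζ.snd‖ ^ 2 := rfl
    have h3 := abs_real_inner_le_norm (lam • m₂ 0) ζ.snd
    have h4 := (hΛ₂ 0).trans (le_abs_self Λ₂)
    have h5 : ‖lam • m₂ 0‖ * ‖ζ.snd‖ ≤ Λ * d :=
      mul_le_mul (by linarith [abs_nonneg Λ₁]) (by linarith) (norm_nonneg _) hΛ0
    have h6 := (abs_le.1 h3).1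
    rw [sub_zero] at h1
    have h7 : lam / 2 * ‖ζ.snd‖ ^ 2 ≤ lam / 2 * d := by
      refine mul_le_mul_of_nonneg_left ?_ (by positivity)
      have := norm_nonneg ζ.snd
      nlinarith
    have h8 : 0 ≤ lam / 2 * ‖y - ζ.snd‖ ^ 2 := by positivity
    linarith
  have huv : u x + v y ≤ d * (α / lam ^ 2) / 2 := by
    have h1 := h x hxK y hyK
    have h2 := inner_le_opNorm A (toLp 2 (x, y) : WithLp 2 (E × F))
    rw [← hα] at h2
    have h3 : ‖(toLp 2 (x, y) : WithLp 2 (E × F))‖ ^ 2 ≤ (d * (1 / lam)) ^ 2 :=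
      pow_le_pow_left₀ (norm_nonneg _) hz.le 2
    have h4 : (d * (1 / lam)) ^ 2 ≤ d * (1 / lam ^ 2) := by
      rw [mul_pow, one_div_pow]
      refine mul_le_mul_of_nonneg_right ?_ (by positivity)
      nlinarith
    have h5 : α * ‖(toLp 2 (x, y) : WithLp 2 (E × F))‖ ^ 2 ≤ α * (d * (1 / lam ^ 2)) :=
      mul_le_mul_of_nonneg_left (h3.trans h4) hα0
    have h6 : α * (d * (1 / lam ^ 2)) = d * (α / lam ^ 2) := by ring
    linarith
  -- the forms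
  set X : E →L[ℝ] E := (fstL 2 ℝ E F).comp (H.comp (i1 E F)) - lam • ContinuousLinearMap.id ℝ E with hX
  set Y : F →L[ℝ] F := (sndL 2 ℝ E F).comp (H.comp (i2 E F)) - lam • ContinuousLinearMap.id ℝ F with hY
  have hXi : ∀ a b, ⟪X a, b⟫ = ⟪H (i1 E F a), i1 E F b⟫ - lam * ⟪a, b⟫ := by
    intro a b
    have : X a = (H (i1 E F a)).fst - lam • a := rfl
    rw [this, inner_sub_left, real_inner_smul_left, inner_i1]
  have hYi : ∀ a b, ⟪Y a, b⟫ = ⟪H (i2 E F a), i2 E F b⟫ - lam * ⟪a, b⟫ := by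
    intro a b
    have : Y a = (H (i2 E F a)).snd - lam • a := rfl
    rw [this, inner_sub_left, real_inner_smul_left, inner_i2]
  refine ⟨x, hxK, y, hyK, qq.fst - lam • ζ.fst, qq.snd - lam • ζ.snd, X, Y, by linarith, by linarith, ?_, ?_, ?_, ?_,
    ?_, ?_, ?_, ?_, ?_⟩
  · rw [abs_lt]
    constructor <;> linarith
  · rw [abs_lt]
    constructor <;> linarith
  · have h1 := norm_sub_le qq.fst (lam • ζ.fst)
    have h2 : ‖lam • ζ.fst‖ = lam * ‖ζ.fst‖ := by rw [norm_smul, Real.norm_eq_abs, abs_of_pos hlam0]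
    have h3 : lam * ‖ζ.fst‖ ≤ lam * d := mul_le_mul_of_nonneg_left (by linarith) hlam0.le
    linarith
  · have h1 := norm_sub_le qq.snd (lam • ζ.snd)
    have h2 : ‖lam • ζ.snd‖ = lam * ‖ζ.snd‖ := by rw [norm_smul, Real.norm_eq_abs, abs_of_pos hlam0]
    have h3 : lam * ‖ζ.snd‖ ≤ lam * d := mul_le_mul_of_nonneg_left (by linarith) hlam0.le
    linarith
  · intro a b
    rw [hXi, real_inner_comm (X b) a, hXi, hHs, real_inner_comm, real_inner_comm b a]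
  · intro a b
    rw [hYi, real_inner_comm (Y b) a, hYi, hHs, real_inner_comm, real_inner_comm b a]
  · intro ε hε
    have hcv : Tendsto (i1 E F) (𝓝 0) (𝓝 0) := by
      have := (i1 E F).continuous.tendsto 0
      rwa [map_zero] at this
    filter_upwards [hcv.eventually (hexp ε hε)] with k hk hkK
    have h1 := hm₁.magic ζ.fst k hkK
    have h2 := (abs_le.1 hk).2
    have h3 : f (ζ + i1 E F k) = cf u lam m₁ (ζ.fst + k) + cf v lam m₂ (ζ.snd + 0) := rfl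
    have h4 : f ζ = cf u lam m₁ ζ.fst + cf v lam m₂ ζ.snd := rfl
    have h2' : f (ζ + i1 E F k) - f ζ - ⟪qq, i1 E F k⟫ - 1 / 2 * ⟪H (i1 E F k), i1 E F k⟫ ≤ ε * ‖i1 E F k‖ ^ 2 := h2
    rw [h3, h4, add_zero, inner_i1, norm_i1] at h2'
    rw [hXi, inner_sub_left, real_inner_smul_left, real_inner_self_eq_norm_sq]
    linarith
  · intro ε hε
    have hcv : Tendsto (i2 E F) (𝓝 0) (𝓝 0) := by
      have := (i2 E F).continuous.tendsto 0
      rwa [map_zero] at this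
    filter_upwards [hcv.eventually (hexp ε hε)] with k hk hkK
    have h1 := hm₂.magic ζ.snd k hkK
    have h2 := (abs_le.1 hk).2
    have h3 : f (ζ + i2 E F k) = cf u lam m₁ (ζ.fst + 0) + cf v lam m₂ (ζ.snd + k) := rfl
    have h4 : f ζ = cf u lam m₁ ζ.fst + cf v lam m₂ ζ.snd := rfl
    have h2' : f (ζ + i2 E F k) - f ζ - ⟪qq, i2 E F k⟫ - 1 / 2 * ⟪H (i2 E F k), i2 E F k⟫ ≤ ε * ‖i2 E F k‖ ^ 2 := h2
    rw [h3, h4, add_zero, inner_i2, norm_i2] at h2'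
    rw [hYi, inner_sub_left, real_inner_smul_left, real_inner_self_eq_norm_sq]
    linarith
  · intro a b
    rw [hXi, hYi, real_inner_self_eq_norm_sq, real_inner_self_eq_norm_sq]
    have h1 := hHle (toLp 2 (a, b))
    rw [hCq] at h1
    have h2 : ‖(toLp 2 (a, b) : WithLp 2 (E × F))‖ ^ 2 = ‖a‖ ^ 2 + ‖b‖ ^ 2 := prod_norm_sq_eq_of_L2 _
    have h3 : ⟪H (toLp 2 (a, b)), (toLp 2 (a, b) : WithLp 2 (E × F))⟫ =
        ⟪H (i1 E F a), i1 E F a⟫ + ⟪H (i2 E F b), i2 E F b⟫ := by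
      have h4 := block_diag hHs hexp a b
      have h5 : ⟪H (i2 E F b), i1 E F a⟫ = 0 := by rw [hHs, real_inner_comm, h4]
      rw [toLp_eq, map_add, inner_add_left, inner_add_right, inner_add_right, h4, h5]
      ring
    have h6 : ‖A (toLp 2 (a, b))‖ ^ 2 ≤ α ^ 2 * ‖(toLp 2 (a, b) : WithLp 2 (E × F))‖ ^ 2 := by
      rw [← mul_pow]
      exact pow_le_pow_left₀ (norm_nonneg _) (A.le_opNorm _) 2
    have h7 : e * ‖A (toLp 2 (a, b))‖ ^ 2 ≤ δ / 2 * ‖(toLp 2 (a, b) : WithLp 2 (E × F))‖ ^ 2 := by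
      have h8 := mul_le_mul_of_nonneg_left h6 he0.le
      have h9 := mul_le_mul_of_nonneg_right heα (sq_nonneg ‖(toLp 2 (a, b) : WithLp 2 (E × F))‖)
      linarith
    rw [h3] at h1
    rw [h2] at h1 h7
    linarith

end Pool.Agent.VSC
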