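import Pool.Agent.VSC.Second

/-!
# Sup-convolutions and the theorem on sums (inner product version)
-/

open scoped RealInnerProductSpace Topology
open Set Filter WithLp

noncomputable section

namespace Pool.Agent.VSC

section One

variable {E : Type*} [NormedAddCommGroup E] [InnerProductSpace ℝ E]

/-- `m` selects the maximizers of the sup-convolution of `u` on `K`. -/
def IsSel (K : Set E) (u : E → ℝ) (lam : ℝ) (m : E → E) : Prop :=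
  (∀ ξ, m ξ ∈ K) ∧ ∀ ξ, ∀ x ∈ K, u x - lam / 2 * ‖x - ξ‖ ^ 2 ≤ u (m ξ) - lam / 2 * ‖m ξ - ξ‖ ^ 2

theorem exists_isSel {K : Set E} (hK : IsCompact K) (hne : K.Nonempty) {u : E → ℝ}
    (hu : UpperSemicontinuousOn u K) (lam : ℝ) : ∃ m, IsSel K u lam m := by
  have h1 : ∀ ξ : E, ∃ x ∈ K, ∀ x' ∈ K, u x' - lam / 2 * ‖x' - ξ‖ ^ 2 ≤ u x - lam / 2 * ‖x - ξ‖ ^ 2 := by
    intro ξ
    have hc : UpperSemicontinuousOn (fun x => u x + -(lam / 2 * ‖x - ξ‖ ^ 2)) K :=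
      hu.add (by fun_prop : Continuous fun x : E => -(lam / 2 * ‖x - ξ‖ ^ 2)).continuousOn.upperSemicontinuousOn
    obtain ⟨x, hx, hmax⟩ := hc.exists_isMaxOn hne hK
    refine ⟨x, hx, fun x' hx' => ?_⟩
    have := hmax hx'
    simp only [mem_setOf_eq] at this
    linarith
  choose m hm1 hm2 using h1
  exact ⟨m, hm1, hm2⟩

/-- The convex function attached to a sup-convolution. -/
def cf (u : E → ℝ) (lam : ℝ) (m : E → E) (ξ : E) : ℝ :=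
  u (m ξ) - lam / 2 * ‖m ξ - ξ‖ ^ 2 + lam / 2 * ‖ξ‖ ^ 2

theorem cf_eq (u : E → ℝ) (lam : ℝ) (m : E → E) (ξ : E) :
    cf u lam m ξ = u (m ξ) - lam / 2 * ‖m ξ‖ ^ 2 + lam * ⟪m ξ, ξ⟫ := by
  rw [cf, norm_sub_sq_real]
  ring

theorem IsSel.subG {K : Set E} (hK : IsCompact K) {u : E → ℝ} {lam : ℝ} {m : E → E} (h : IsSel K u lam m) :
    SubG (cf u lam m) (fun ξ => lam • m ξ) where
  ineq x z := by
    have h1 := h.2 z (m x) (h.1 x)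
    rw [norm_sub_sq_real] at h1
    have h2 := cf_eq u lam m x
    have h3 : cf u lam m z = u (m z) - lam / 2 * ‖m z - z‖ ^ 2 + lam / 2 * ‖z‖ ^ 2 := rfl
    rw [h2, h3, real_inner_smul_left, inner_sub_right]
    nlinarith
  bdd := by
    obtain ⟨R, hR⟩ := hK.isBounded.exists_norm_le
    refine ⟨|lam| * R, fun x => ?_⟩
    rw [norm_smul, Real.norm_eq_abs]
    exact mul_le_mul_of_nonneg_left (hR _ (h.1 x)) (abs_nonneg _)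

/-- The magic property. -/
theorem IsSel.magic {K : Set E} {u : E → ℝ} {lam : ℝ} {m : E → E} (h : IsSel K u lam m) (ξ k : E)
    (hk : m ξ + k ∈ K) :
    u (m ξ + k) - u (m ξ) ≤ cf u lam m (ξ + k) - cf u lam m ξ - lam * ⟪ξ, k⟫ - lam / 2 * ‖k‖ ^ 2 := by
  have h1 := h.2 (ξ + k) (m ξ + k) hk
  have h2 : m ξ + k - (ξ + k) = m ξ - ξ := by abel
  rw [h2] at h1
  have h3 : ‖ξ + k‖ ^ 2 = ‖ξ‖ ^ 2 + 2 * ⟪ξ, k⟫ + ‖k‖ ^ 2 := norm_add_sq_real _ _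
  simp only [cf, h3]
  linarith

end One

section Two

variable {E F : Type*} [NormedAddCommGroup E] [InnerProductSpace ℝ E] [NormedAddCommGroup F] [InnerProductSpace ℝ F]

theorem subG_sum {f₁ : E → ℝ} {S₁ : E → E} {f₂ : F → ℝ} {S₂ : F → F} (h₁ : SubG f₁ S₁) (h₂ : SubG f₂ S₂) :
    SubG (G := WithLp 2 (E × F)) (fun z => f₁ z.fst + f₂ z.snd) (fun z => toLp 2 (S₁ z.fst, S₂ z.snd)) where
  ineq x z := by
    have a := h₁.ineq x.fst z.fst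
    have b := h₂.ineq x.snd z.snd
    have e : ⟪toLp 2 (S₁ x.fst, S₂ x.snd), z - x⟫ = ⟪S₁ x.fst, z.fst - x.fst⟫ + ⟪S₂ x.snd, z.snd - x.snd⟫ := rfl
    rw [e]
    linarith
  bdd := by
    obtain ⟨L₁, h1⟩ := h₁.bdd
    obtain ⟨L₂, h2⟩ := h₂.bdd
    refine ⟨L₁ + L₂, fun x => ?_⟩
    have a := h1 x.fst
    have b := h2 x.snd
    have a0 := norm_nonneg (S₁ x.fst)
    have b0 := norm_nonneg (S₂ x.snd)
    refine abs_le_of_sq_le_sq' ?_ (by linarith) |>.2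
    rw [prod_norm_sq_eq_of_L2]
    show ‖S₁ x.fst‖ ^ 2 + ‖S₂ x.snd‖ ^ 2 ≤ _
    nlinarith

theorem quad_bound {G : Type*} [NormedAddCommGroup G] [InnerProductSpace ℝ G] {A : G →L[ℝ] G}
    (hA : ∀ a b, ⟪A a, b⟫ = ⟪a, A b⟫) {ε : ℝ} (hε : 0 < ε) (z ζ : G) :
    ⟪A z, z⟫ ≤ ⟪A ζ, ζ⟫ + ε * ‖A ζ‖ ^ 2 + (1 / ε + ‖A‖) * ‖z - ζ‖ ^ 2 := by
  obtain ⟨w, rfl⟩ : ∃ w, z = ζ + w := ⟨z - ζ, by abel⟩
  rw [add_sub_cancel_left]
  have e1 : ⟪A (ζ + w), ζ + w⟫ = ⟪A ζ, ζ⟫ + 2 * ⟪A ζ, w⟫ + ⟪A w, w⟫ := by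
    have : ⟪A w, ζ⟫ = ⟪A ζ, w⟫ := by rw [hA, real_inner_comm]
    rw [map_add, inner_add_left, inner_add_right, inner_add_right, this]
    ring
  have h1 := inner_le_opNorm A w
  have h2 := real_inner_le_norm (A ζ) w
  have h3 : 2 * (‖A ζ‖ * ‖w‖) ≤ ε * ‖A ζ‖ ^ 2 + 1 / ε * ‖w‖ ^ 2 := by
    have h4 : 0 ≤ (ε * ‖A ζ‖ - ‖w‖) ^ 2 / ε := by positivity
    have h5 : (ε * ‖A ζ‖ - ‖w‖) ^ 2 / ε = ε * ‖A ζ‖ ^ 2 + 1 / ε * ‖w‖ ^ 2 - 2 * (‖A ζ‖ * ‖w‖) := by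
      field_simp
      ring
    linarith
  rw [e1]
  linarith

end Two

end Pool.Agent.VSC
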